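import Pool.Agent.helper77.PV.Iface
import Pool.Agent.helper37.CZ.Spec

/-!
# Project pv (MP_376aaf_an), block A: K-theory of Banach algebras, split excision. Rows pv:*

RULES. One file per row: `Pool/Agent/<seat>/PV/XXX.lean`, `import Pool.Agent.helper77.PV.SpecA`,
`namespace Pool.Agent.PV`, auxiliary lemmas prefixed `XXX_`. Theorem line: `theorem XXX (h : YYY_stmt) .. : XXX_stmt`
(the hypotheses allowed are listed in the docstring as (from YYY, ZZZ); rows wait for nobody). No double quotes, no `convert` /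
`congr!` on instance goals, no own macros. The proof of every row is in its docstring.

`Matrix ι κ A` has the product topology. If a norm is needed: `Matrix.linftyOpNormedRing`, `Matrix.linftyOpNormedAlgebra`
(local instances; topology is the same; complete).
-/

set_option autoImplicit false

open scoped Matrix Topology
open Filter

namespace Pool.Agent.PV

open Pool.Agent.CZ

/-! ## K₀ of a ring -/

/-- ROW pv:K0E (short-medium). Reindex `x`, `y` by `Fintype.equivFin`; first relation of `K0Rel` (see `MAI`/`cls_eq` in helper37/CZ for similar lemmas). -/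
def K0E_stmt : Prop := ∀ (A : Type) [Ring A] (ι κ : Type) [Fintype ι] [Fintype κ] (e : Matrix ι ι A)
  (f : Matrix κ κ A) (he : e * e = e) (hf : f * f = f) (x : Matrix ι κ A) (y : Matrix κ ι A),
  x * y = e → y * x = f → k0 e he = k0 f hf

/-- ROW pv:K0S (short). Second relation of `K0Rel`; `submatrix` by `equivFin.symm` preserves sums and products. -/
def K0S_stmt : Prop := ∀ (A : Type) [Ring A] (ι : Type) [Fintype ι] (e f : Matrix ι ι A) (he : e * e = e)
  (hf : f * f = f) (hs : (e + f) * (e + f) = e + f), e * f = 0 → f * e = 0 →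
  k0 (e + f) hs = k0 e he + k0 f hf

/-- ROW pv:K0B (short-medium; from K0E, K0S). `diag(e, f) = diag(e, 0) + diag(0, f)`; `diag(e, 0) = x y`, `e = y x` with `x = (e ; 0)`,
`y = (e, 0)` (rectangular, `Matrix.fromRows`, `Matrix.fromCols`). Second claim: `e = 0`. Third: `1` over `ι` is the sum of `|ι|` matrices
`single i i 1`, each equivalent to the `1 × 1` matrix 1 (or induction with the first claim). -/
def K0B_stmt : Prop := (∀ (A : Type) [Ring A] (ι κ : Type) [Fintype ι] [Fintype κ] (e : Matrix ι ι A)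
  (f : Matrix κ κ A) (he : e * e = e) (hf : f * f = f)
  (h : Matrix.fromBlocks e 0 0 f * Matrix.fromBlocks e 0 0 f = Matrix.fromBlocks e 0 0 f),
  k0 (Matrix.fromBlocks e 0 0 f) h = k0 e he + k0 f hf) ∧
  (∀ (A : Type) [Ring A] (ι : Type) [Fintype ι] (h : (0 : Matrix ι ι A) * 0 = 0), k0 (0 : Matrix ι ι A) h = 0) ∧
  ∀ (A : Type) [Ring A] (ι : Type) [Fintype ι] [DecidableEq ι] (h : (1 : Matrix ι ι A) * 1 = 1),
    k0 (1 : Matrix ι ι A) h = Fintype.card ι • unitCls A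

/-- ROW pv:K0G (short-medium; from K0E, K0B). Every element of `K₀` is a sum of `± [p_i]` (`FreeAbelianGroup` induction); block sums: `z = [p] - [q]`, `q` of size `n`;
`[q] + [1 - q] = n [1]` (K0S), so `z = ([p] + [1 - q]) - n [1]`. -/
def K0G_stmt : Prop := ∀ (A : Type) [Ring A] (z : K0 A), ∃ (n m : ℕ) (e : Matrix (Fin n) (Fin n) A) (he : e * e = e),
  z = k0 e he - m • unitCls A

/-- `diag(e, 1_k, 0_l)` -/
def pad {A : Type} [Ring A] {ι : Type} (e : Matrix ι ι A) (k l : ℕ) :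
    Matrix (ι ⊕ (Fin k ⊕ Fin l)) (ι ⊕ (Fin k ⊕ Fin l)) A :=
  Matrix.fromBlocks e 0 0 (Matrix.fromBlocks 1 0 0 0)

/-- ROW pv:K0Q (medium). `p ~ q` (on `IdemMat A`): `∃ k, x, y` with `x y = p.e ⊕ 1_k`, `y x = q.e ⊕ 1_k`. This is an equivalence relation (transitivity: add blocks `1`, compose `x x'`, `y' y`
after replacing `x` by `e x f`, `y` by `f y e`), compatible with block sums. The block sum makes the quotient `M` a cancellative commutative monoid (cancellation: if `p ⊕ r ~ q ⊕ r`, add `1 - r`: `r ⊕ (1-r) ~ 1_n`). Map `K0 A` to the group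
completion of `M` (for example the quotient of `M × M` by `(a,b) ~ (a',b')` iff `a + b' = a' + b`, or `Algebra.GrothendieckAddGroup`, or `AddLocalization ⊤`): the relations of `K0Rel` hold ((2): `e + f` and `e ⊕ f` are equivalent by `x = (e, f)`, `y = (e ; f)`). So `[e] = [f]` implies `e ~ f`. -/
def K0Q_stmt : Prop := ∀ (A : Type) [Ring A] (n m : ℕ) (e : Matrix (Fin n) (Fin n) A) (f : Matrix (Fin m) (Fin m) A)
  (he : e * e = e) (hf : f * f = f), cls ⟨n, e, he⟩ = cls ⟨m, f, hf⟩ →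
  ∃ (k : ℕ) (x : Matrix (Fin n ⊕ Fin k) (Fin m ⊕ Fin k) A) (y : Matrix (Fin m ⊕ Fin k) (Fin n ⊕ Fin k) A),
    x * y = Matrix.fromBlocks e 0 0 1 ∧ y * x = Matrix.fromBlocks f 0 0 1

/-- ROW pv:K0C (medium; from K0Q). Reindex (`equivFin`). `E = e ⊕ 1_k`, `F = f ⊕ 1_k` over `J = ι ⊕ Fin k`, `x y = E`, `y x = F`; replace `x` by `E x F`, `y` by `F y E`. Over `J ⊕ J`: `g = [[y, 1 - F], [1 - E, x]]` has the inverse
`[[x, 1 - E], [1 - F, y]]` and `g (E ⊕ 0) = [[y, 0], [0, 0]] = (F ⊕ 0) g`. Reindex `J ⊕ J ≃ ι ⊕ (Fin k ⊕ Fin l)`, `l = |J|`. -/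
def K0C_stmt : Prop := ∀ (A : Type) [Ring A] (ι : Type) [Fintype ι] [DecidableEq ι] (e f : Matrix ι ι A) (he : e * e = e)
  (hf : f * f = f), k0 e he = k0 f hf → ∃ (k l : ℕ) (g : (Matrix (ι ⊕ (Fin k ⊕ Fin l)) (ι ⊕ (Fin k ⊕ Fin l)) A)ˣ),
    (g : Matrix (ι ⊕ (Fin k ⊕ Fin l)) (ι ⊕ (Fin k ⊕ Fin l)) A) * pad e k l = pad f k l * g

/-- ROW pv:K0D (short; from K0B). `pad e k l` is an idempotent with class `[e] + k [1]`. -/
def K0D_stmt : Prop := ∀ (A : Type) [Ring A] (ι : Type) [Fintype ι] (e : Matrix ι ι A) (he : e * e = e) (k l : ℕ),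
  ∃ h : pad e k l * pad e k l = pad e k l, k0 (pad e k l) h = k0 e he + k • unitCls A

/-- ROW pv:FUN (short). Functoriality: check on the generators (`QuotientAddGroup` and `FreeAbelianGroup` extensionality). -/
def FUN_stmt : Prop := (∀ (A : Type) [Ring A] (z : K0 A), k0map (RingHom.id A) z = z) ∧
  (∀ (A B C : Type) [Ring A] [Ring B] [Ring C] (φ : A →+* B) (ψ : B →+* C) (z : K0 A),
    k0map (ψ.comp φ) z = k0map ψ (k0map φ z)) ∧
  (∀ (A B : Type) [Ring A] [Ring B] (φ : A →+* B), k0map φ (unitCls A) = unitCls B) ∧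
  (∀ (A : Type) [Ring A] [TopologicalSpace A] (z : K1 A), k1map (RingHom.id A) continuous_id z = z) ∧
  ∀ (A B C : Type) [Ring A] [Ring B] [Ring C] [TopologicalSpace A] [TopologicalSpace B] [TopologicalSpace C] (φ : A →+* B)
    (ψ : B →+* C) (hφ : Continuous φ) (hψ : Continuous ψ) (h : Continuous (ψ.comp φ)) (z : K1 A),
    k1map (ψ.comp φ) h z = k1map ψ hψ (k1map φ hφ z)

/-! ## K₁ of a Banach algebra -/

/-- ROW pv:K1R (medium). `k1 g = cls1 ⟨card ι, ..⟩`, `card ι = card κ` (generalize and substitute); two reindexings `Fin n ≃ Fin n` differ by a permutation `σ`: `rix σ g = p g p⁻¹`, `p` the permutation matrix (a unit), and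
`[p g p⁻¹] = [p] + [g] + [p⁻¹] = [g]` in the abelian group `K1` (first relation; `[1] = 0`, `[p⁻¹] = -[p]`). -/
def K1R_stmt : Prop := ∀ (A : Type) [Ring A] [TopologicalSpace A] (ι κ : Type) [Fintype ι] [DecidableEq ι] [Fintype κ]
  [DecidableEq κ] (f : ι ≃ κ) (g : (Matrix ι ι A)ˣ), k1 (rix f g) = k1 g

/-- ROW pv:K1M (short). First and third relation (`rix` is multiplicative and continuous). -/
def K1M_stmt : Prop := ∀ (A : Type) [Ring A] [TopologicalSpace A] (ι : Type) [Fintype ι] [DecidableEq ι]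
  (g h : (Matrix ι ι A)ˣ), k1 (g * h) = k1 g + k1 h ∧ k1 g⁻¹ = - k1 g ∧ k1 (1 : (Matrix ι ι A)ˣ) = 0 ∧
    (Htp g h → k1 g = k1 h)

/-- ROW pv:K1B (short-medium; from K1R). Second relation, reindexed. -/
def K1B_stmt : Prop := ∀ (A : Type) [Ring A] [TopologicalSpace A] (ι κ : Type) [Fintype ι] [DecidableEq ι] [Fintype κ]
  [DecidableEq κ] (g : (Matrix ι ι A)ˣ) (h : (Matrix κ κ A)ˣ) (k : (Matrix (ι ⊕ κ) (ι ⊕ κ) A)ˣ),
  (k : Matrix (ι ⊕ κ) (ι ⊕ κ) A) = Matrix.fromBlocks (g : Matrix ι ι A) 0 0 (h : Matrix κ κ A) → k1 k = k1 g + k1 h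

/-- ROW pv:K1G (short-medium; from K1M, K1B, K1R). Induction on the free abelian group: `-[g] = [g⁻¹]`, `[g] + [h] = [g ⊕ h]`; `Fin n ⊕ Fin m ≃ Fin (n + m)`. -/
def K1G_stmt : Prop := ∀ (A : Type) [Ring A] [TopologicalSpace A] (z : K1 A), ∃ (n : ℕ) (g : (Matrix (Fin n) (Fin n) A)ˣ), z = k1 g

/-- rotation by the angle `π s / 2` on `ι ⊕ ι` -/
noncomputable def rotR (A : Type) [NormedRing A] [NormedAlgebra ℂ A] (ι : Type) [Fintype ι] [DecidableEq ι] (s : ℝ) :
    Matrix (ι ⊕ ι) (ι ⊕ ι) A :=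
  Matrix.fromBlocks ((Real.cos (Real.pi * s / 2) : ℂ) • 1) (-((Real.sin (Real.pi * s / 2) : ℂ) • 1))
    ((Real.sin (Real.pi * s / 2) : ℂ) • 1) ((Real.cos (Real.pi * s / 2) : ℂ) • 1)

/-- the path `diag(g, 1) R_s diag(g⁻¹, 1) R_(-s)` from `1` to `diag(g, g⁻¹)` -/
noncomputable def rotW {A : Type} [NormedRing A] [NormedAlgebra ℂ A] {ι : Type} [Fintype ι] [DecidableEq ι]
    (g g' : Matrix ι ι A) (s : ℝ) : Matrix (ι ⊕ ι) (ι ⊕ ι) A :=
  Matrix.fromBlocks g 0 0 1 * rotR A ι s * Matrix.fromBlocks g' 0 0 1 * rotR A ι (-s)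

/-- ROW pv:ROT (short-medium). `R_s R_(-s) = 1`, `R_0 = 1`, `R_1 = [[0,-1],[1,0]]`; the inverse of `rotW g g' s` is `R_s diag(g, 1) R_(-s) diag(g', 1)`. `R_1 diag(g', 1) R_(-1) = diag(1, g')`. -/
def ROT_stmt : Prop := ∀ (A : Type) [NormedRing A] [NormedAlgebra ℂ A] (ι : Type) [Fintype ι] [DecidableEq ι] (g g' : Matrix ι ι A),
  g * g' = 1 → g' * g = 1 → Continuous (rotW g g') ∧ rotW g g' 0 = 1 ∧ rotW g g' 1 = Matrix.fromBlocks g 0 0 g' ∧
  ∃ W' : ℝ → Matrix (ι ⊕ ι) (ι ⊕ ι) A, Continuous W' ∧ ∀ s, W' s * rotW g g' s = 1 ∧ rotW g g' s * W' s = 1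

/-- ROW pv:K1Z (medium; from ROT). `p ~ q` on `InvMat A`: for some `k`, `l` with `p.n + k = q.n + l` the matrices `p.g ⊕ 1_k` and `q.g ⊕ 1_l` are joined (`Htp`, after reindexing). Equivalence relation, compatible with block sums. Block sum makes the quotient `G` an abelian group: permutations: a permutation matrix
is joined to 1 over `ℂ` (`GL_n(ℂ)` is connected; or: a transposition is `diag(-1,1) R_1`-like, so joined by `diag(e^(iπs), 1) R_s`), conjugate by the path, so `p ⊕ q ~ q ⊕ p`; `p ⊕ p⁻¹ ~ 1` (ROT). `(g h) ⊕ 1 ~ g ⊕ h`: multiply `g ⊕ 1` with `W_s(h)⁻¹`-paths: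
`(g ⊕ 1)(h ⊕ 1)` and `(g ⊕ 1)(1 ⊕ h)`: `h ⊕ 1 = (1 ⊕ h) (h ⊕ h⁻¹)`, and `h ⊕ h⁻¹` is joined to 1. So the three relations of `K1Rel` hold in `G`, `K1 A → G`, and `k1 g = 0` means `g ~ 1`. -/
def K1Z_stmt : Prop := ∀ (A : Type) [NormedRing A] [NormedAlgebra ℂ A] (ι : Type) [Fintype ι] [DecidableEq ι] (g : (Matrix ι ι A)ˣ),
  k1 g = 0 → ∃ (k : ℕ) (g' : (Matrix (ι ⊕ Fin k) (ι ⊕ Fin k) A)ˣ),
    (g' : Matrix (ι ⊕ Fin k) (ι ⊕ Fin k) A) = Matrix.fromBlocks (g : Matrix ι ι A) 0 0 1 ∧ Htp g' 1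

/-- ROW pv:K1C (short-medium). With the `linftyOp` norm: if `‖1 - g⁻¹ h‖ < 1` then the segment `(1-s) g + s h = g (1 - s (1 - g⁻¹ h))` consists of units. Choose `ε` with `n ε ‖g⁻¹‖ < 1`. -/
def K1C_stmt : Prop := ∀ (A : Type) [NormedRing A] [NormedAlgebra ℂ A] [CompleteSpace A] (ι : Type) [Fintype ι] [DecidableEq ι]
  (g : (Matrix ι ι A)ˣ), ∃ ε : ℝ, 0 < ε ∧ ∀ h : Matrix ι ι A, (∀ i j, ‖(g : Matrix ι ι A) i j - h i j‖ < ε) →
    ∃ h' : (Matrix ι ι A)ˣ, (h' : Matrix ι ι A) = h ∧ Htp g h'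

/-- ROW pv:K1T (short-medium; from K1M, K1B). Triangular: `[[g, b], [0, h]]` is joined to `diag(g, h)` by `[[g, s b], [0, h]]` (invertible with inverse `[[g⁻¹, -s g⁻¹ b h⁻¹], [0, h⁻¹]]`). Transport: `Z = [[1 - e, x], [y, 1 - f]]`, `Z² = 1`, `Z (g ⊕ 1) Z = 1 ⊕ h`. -/
def K1T_stmt : Prop := (∀ (A : Type) [NormedRing A] [NormedAlgebra ℂ A] (ι κ : Type) [Fintype ι] [DecidableEq ι] [Fintype κ]
  [DecidableEq κ] (g : (Matrix ι ι A)ˣ) (h : (Matrix κ κ A)ˣ) (b : Matrix ι κ A) (k : (Matrix (ι ⊕ κ) (ι ⊕ κ) A)ˣ),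
  (k : Matrix (ι ⊕ κ) (ι ⊕ κ) A) = Matrix.fromBlocks (g : Matrix ι ι A) b 0 (h : Matrix κ κ A) → k1 k = k1 g + k1 h) ∧
  ∀ (A : Type) [NormedRing A] [NormedAlgebra ℂ A] (ι κ : Type) [Fintype ι] [DecidableEq ι] [Fintype κ] [DecidableEq κ]
    (e : Matrix ι ι A) (f : Matrix κ κ A) (x : Matrix ι κ A) (y : Matrix κ ι A) (v : Matrix ι ι A) (g : (Matrix ι ι A)ˣ)
    (h : (Matrix κ κ A)ˣ), x * y = e → y * x = f → e * x = x → x * f = x → f * y = y → y * e = y → e * v = v → v * e = v →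
    (g : Matrix ι ι A) = v + (1 - e) → (h : Matrix κ κ A) = y * v * x + (1 - f) → k1 g = k1 h

/-- ROW pv:PTH (medium). `R` a Banach algebra. `M = sup ‖E‖`, `δ` with `‖E t - E s‖ (2M + 1) < 1/2` for `|t - s| ≤ δ`. `u(t,s) = E t E s + (1 - E t)(1 - E s)`: `E t u = u E s`, `u - 1 = (E t - E s)(2 E s - 1)`-like expression of norm `< 1` (`E t E s + (1-E t)(1-E s) - 1 = (E t - E s)(2 E s - 1)` uses `E s² = E s`), so `u` is invertible, `u(s,s) = 1`.
Partition `t_i = i/N`; `W(t) = u(t, t_i) u(t_i, t_(i-1)) ... u(t_1, t_0)` on `[t_i, t_(i+1)]`, continuous; inverse similarly. (Or: the set of `a ∈ [0,1]` for which the claim holds on `[0,a]`, or induction on `N` for intervals.) -/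
def PTH_stmt : Prop := ∀ (R : Type) [NormedRing R] [NormedAlgebra ℂ R] [CompleteSpace R] (E : C(unitInterval, R)), (∀ t, E t * E t = E t) →
  ∃ W W' : C(unitInterval, R), W 0 = 1 ∧ (∀ t, W' t * W t = 1 ∧ W t * W' t = 1 ∧ E t * W t = W t * E 0)

/-- ROW pv:K0P (short; from K0E, PTH). Matrix version: `E_1 = W_1 E_0 W_1⁻¹`: `x = W_1 E_0`, `y = E_0 W_1⁻¹`. -/
def K0P_stmt : Prop := ∀ (A : Type) [NormedRing A] [NormedAlgebra ℂ A] [CompleteSpace A] (ι : Type) [Fintype ι] [DecidableEq ι]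
  (E : C(unitInterval, Matrix ι ι A)) (h : ∀ t, E t * E t = E t), k0 (E 0) (h 0) = k0 (E 1) (h 1)

/-! ## Continuity of K-theory -/

/-- ROW pv:CS0 (medium; from K0E, NEW_stmt, CLO_stmt of project cz). `e` an idempotent matrix over `A`, approximated by a matrix `a` over `S F` (directed: finitely many entries); `a` is bounded and `a² - a` is small: NEW in the Banach algebra of matrices over `A` with the closed subring of matrices with entries in `S F` gives an idempotent `f` over `S F` close to `a`,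
so close to `e`: CLO. -/
def CS0_stmt : Prop := ∀ (A I : Type) [NormedRing A] [NormedAlgebra ℂ A] [CompleteSpace A] (S : Finset I → Subalgebra ℂ A), Monotone S →
  (∀ F, IsClosed (S F : Set A)) → Dense {a : A | ∃ F, a ∈ S F} → ∀ z : K0 A, ∃ (F : Finset I) (w : K0 (S F)), z = k0map (S F).val.toRingHom w

/-- ROW pv:CI0 (medium; from K0G, K0C, K0E, K0B, K1C, CLO_stmt). `w = [e] - m [1]`; `[e] = [1_m ⊕ 0]` over `A`: `g (pad e) = (pad p) g` (K0C, `p = diag(1_m, 0)` over the same index set; enlarge `e` by zeros first). Approximate `g` by `g₀` over `S F'`, `F ⊆ F'`: `g₀` is invertible in `A`; its inverse is close to a matrix `k` over `S F'` and `g₀ k` is close to 1, so `g₀`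
is invertible over `S F'` (closed subalgebra: Neumann series). `g₀ (pad e) g₀⁻¹` is an idempotent over `S F'` close to `pad p`: same class by CLO in `S F'` (take the approximation after `ε` of CLO for `pad p`: `ε` depends on the algebra; the CLO radius for `pad p` over `S F'` can be taken uniform: use
`x = E f`, `y = f E (1 - E(1-f)E)⁻¹`-argument directly, or use PTH-type element `u = f E + (1-f)(1-E)`, `‖u - 1‖ < 1` as soon as `‖f - E‖ (2‖E‖+1) < 1`). -/
def CI0_stmt : Prop := ∀ (A I : Type) [NormedRing A] [NormedAlgebra ℂ A] [CompleteSpace A] (S : Finset I → Subalgebra ℂ A) (hS : Monotone S),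
  (∀ F, IsClosed (S F : Set A)) → Dense {a : A | ∃ F, a ∈ S F} → ∀ (F : Finset I) (w : K0 (S F)), k0map (S F).val.toRingHom w = 0 →
  ∃ (F' : Finset I) (h : F ⊆ F'), k0map (Subalgebra.inclusion (hS h)).toRingHom w = 0

/-- ROW pv:CS1 (medium; from K1G, K1M, K1C). Approximate `g` by a matrix `g₀` over `S F`; `g₀` is invertible over `S F` if it is close enough to `g` and a matrix over `S F` is close to `g⁻¹` (as in CI0). -/
def CS1_stmt : Prop := ∀ (A I : Type) [NormedRing A] [NormedAlgebra ℂ A] [CompleteSpace A] (S : Finset I → Subalgebra ℂ A), Monotone S →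
  (∀ F, IsClosed (S F : Set A)) → Dense {a : A | ∃ F, a ∈ S F} → ∀ z : K1 A, ∃ (F : Finset I) (w : K1 (S F)),
    z = k1map (S F).val.toRingHom continuous_subtype_val w

/-- ROW pv:CI1 (medium; from K1G, K1Z, K1M, K1C, K1B). `w = [g]`, `g ⊕ 1` is joined to 1 over `A` by a path `γ`; take a fine partition `t_i`, approximate `γ(t_i)` (not the ends) by matrices over `S F'` which are invertible over `S F'`; consecutive ones satisfy `‖1 - g_i⁻¹ g_(i+1)‖ < 1`, so they are joined by segments of invertibles over `S F'`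
(`1 - s (1 - g_i⁻¹ g_(i+1))` has an inverse in the closed subalgebra). -/
def CI1_stmt : Prop := ∀ (A I : Type) [NormedRing A] [NormedAlgebra ℂ A] [CompleteSpace A] (S : Finset I → Subalgebra ℂ A) (hS : Monotone S),
  (∀ F, IsClosed (S F : Set A)) → Dense {a : A | ∃ F, a ∈ S F} → ∀ (F : Finset I) (w : K1 (S F)),
  k1map (S F).val.toRingHom continuous_subtype_val w = 0 → ∃ (F' : Finset I) (h : F ⊆ F'),
    ∀ hc : Continuous (Subalgebra.inclusion (hS h)).toRingHom, k1map (Subalgebra.inclusion (hS h)).toRingHom hc w = 0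

/-! ## Split excision -/

/-- ROW pv:SXA (medium; from K0E, K0B, K0G, FUN). Surjectivity in SX0. `E` idempotent over `C'`, `F = r(e(E))`, `W = [[F, 1-F], [1-F, F]]` (`W² = 1`), `E'' = W (E ⊕ (1-F)) W`: `e(E'') = 1 ⊕ 0` (`e(F) = e(E)`), so all entries of `E''` have scalar image: `E'' = j(E₀)`, `E₀` an idempotent matrix over `C` (`j` injective).
`[E] + [1-F] = [E'']`, `[F] + [1-F] = n [1]`: `[E] = j_* ([E₀] - n[1]) + r_* [e E]`. Then `y = [e E] - (rank)` with `(rank) = k0map(algebraMap) (χ_* [e E])`: `algebraMap ℂ D` composed with `χ`: `y₀ = e_*[E]`, `y = y₀ - κ_* χ_* y₀`, `κ : ℂ → D`; `r_* κ_* = j_* κ_*`. -/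
def SXA_stmt : Prop := ∀ (C C' D : Type) [NormedRing C] [NormedAlgebra ℂ C] [CompleteSpace C]
  [NormedRing C'] [NormedAlgebra ℂ C'] [CompleteSpace C'] [NormedRing D] [NormedAlgebra ℂ D]
  [CompleteSpace D] (j : C →ₐ[ℂ] C') (e : C' →ₐ[ℂ] D) (r : D →ₐ[ℂ] C') (χ : D →ₐ[ℂ] ℂ), Split j e r →
  ∀ z : K0 C', ∃ (x : K0 C) (y : K0 D), k0map χ.toRingHom y = 0 ∧ z = k0map j.toRingHom x + k0map r.toRingHom y

/-- ROW pv:SXB (medium; from K0G, K0C, K0D, K0E, K0B, KC, FUN). Injectivity in SX0. `s : C → ℂ`, `e(j x) = s(x) 1` is a homomorphism if `D ≠ 0` (`χ` exists, so `1 ≠ 0` in `D`). Apply `e_*`: `κ_* s_* x + y = 0`; apply `χ_*` (`χ κ = id`): `s_* x = 0`, so `y = 0`. So `j_* x = 0`, `s_* x = 0`. `x = [E] - m [1]`; enlarge by zeros so that `P = 1_m ⊕ 0` has the size of `E`;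
`s(E)` and `P` have the same class in `K₀(ℂ)`, so (K0C over `ℂ`) they are conjugate by an invertible complex matrix after `pad`: replace `E` by a conjugate of `pad E`: `s(E) = P` (a new `P`, a complex diagonal 0-1 matrix). `[j E] = [P]`: `g (pad (j E)) = (pad P) g` over `C'`. `h = e(g)` commutes with `pad P`. `g' = r(h)⁻¹ g` has `e(g') = 1`, so `g' = j(g₀)`, also
`g'⁻¹ = j(g₀⁻¹)`; `g' (pad j E) = r(h)⁻¹ (pad P) g = (pad P) g'` (`r(h)` commutes with `r(pad P) = pad P`). So `g₀ (pad E) = (pad P) g₀` over `C` and `x = 0`. -/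
def SXB_stmt : Prop := ∀ (C C' D : Type) [NormedRing C] [NormedAlgebra ℂ C] [CompleteSpace C]
  [NormedRing C'] [NormedAlgebra ℂ C'] [CompleteSpace C'] [NormedRing D] [NormedAlgebra ℂ D]
  [CompleteSpace D] (j : C →ₐ[ℂ] C') (e : C' →ₐ[ℂ] D) (r : D →ₐ[ℂ] C') (χ : D →ₐ[ℂ] ℂ), Split j e r →
  ∀ (x : K0 C) (y : K0 D), k0map χ.toRingHom y = 0 → k0map j.toRingHom x + k0map r.toRingHom y = 0 → x = 0 ∧ y = 0

/-- ROW pv:SX1 (medium; from K1G, K1M, K1B, K1Z, KC, FUN). Surjectivity: `g' = r(e g)⁻¹ g` has `e(g') = 1`, so it comes from `C` (also its inverse): `[g] = r_*[e g] + j_*[g₀]`. Injectivity: apply `e_*`: `e_* j_* x` comes from `K₁(ℂ) = 0` if `D ≠ 0` (if `D = 0`: `K₁(D) = 0` and `j` is onto, isometric, an isomorphism), so `y = 0`. `x = [g]`, `s(g) ∈ GL_n(ℂ)` (`e(j g) = s(g)`): multiply `g` by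
the constant matrix `s(g)⁻¹` (class 0: image of `K₁(ℂ)`): `e(j g) = 1`. `[j g] = 0`: `j g ⊕ 1` is joined to 1 by `γ`; `r(e γ(t))⁻¹ γ(t)` is a path over `C` (isometric `j`, so continuous) from `j g ⊕ 1` to 1. -/
def SX1R_stmt : Prop := SX1_stmt

/-! ## Multi-split -/

/-- the elements `c` with `e k c` scalar for all `k ∉ F` -/
def mS {I C D : Type} [NormedRing C] [NormedAlgebra ℂ C] [NormedRing D] [NormedAlgebra ℂ D] (e : I → C →ₐ[ℂ] D) (F : Finset I) : Subalgebra ℂ C where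
  carrier := {c | ∀ k ∉ F, ∃ z : ℂ, e k c = algebraMap ℂ D z}
  mul_mem' := by
    intro a b ha hb k hk
    obtain ⟨z, hz⟩ := ha k hk
    obtain ⟨w, hw⟩ := hb k hk
    exact ⟨z * w, by rw [map_mul, hz, hw, map_mul]⟩
  add_mem' := by
    intro a b ha hb k hk
    obtain ⟨z, hz⟩ := ha k hk
    obtain ⟨w, hw⟩ := hb k hk
    exact ⟨z + w, by rw [map_add, hz, hw, map_add]⟩
  algebraMap_mem' := by
    intro z k _
    exact ⟨z, (e k).commutes z⟩

/-- ROW pv:MSF (short-medium). Closed: the scalars are closed in `D` (one dimensional; `IsClosed` of `Submodule.span`/range of `algebraMap`), `e k` continuous. Monotone. For `k ∉ F`: restriction of `e k` to `mS e (insert k F)`, and `r k` maps into it: `Split (inclusion) (e k) (r k)` with `C = mS e F`, `C' = mS e (insert k F)`. `mS e ∅` is the range of `j`. -/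
def MSF_stmt : Prop := ∀ (I C₀ C D : Type) [NormedRing C₀] [NormedAlgebra ℂ C₀] [NormedRing C] [NormedAlgebra ℂ C] [NormedRing D]
  [NormedAlgebra ℂ D] (j : C₀ →ₐ[ℂ] C) (e : I → C →ₐ[ℂ] D) (r : I → D →ₐ[ℂ] C), MSplit j e r →
  (∀ F, IsClosed (mS e F : Set C)) ∧ Dense {c : C | ∃ F, c ∈ mS e F} ∧ ∃ hM : Monotone (mS e),
  ∀ [DecidableEq I] (F : Finset I) (k : I), k ∉ F → ∃ rk : D →ₐ[ℂ] mS e (insert k F), (∀ d, (rk d : C) = r k d) ∧
    Split (Subalgebra.inclusion (hM (Finset.subset_insert k F))) ((e k).comp (mS e (insert k F)).val) rk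

/-- ROW pv:MF0 (medium; from MSF, SX0, FUN). Induction on `F`. `F = ∅`: `jF : C₀ → mS e ∅` is a bijective isometry (`MSplit.ran`, `MSplit.iso`), so `k0map` is bijective (functoriality for the inverse). Step: SX0 for the split `mS e F → mS e (insert k F)` of MSF: `w = incl_* w₁ + rk_* v`, uniquely;
`jF' = incl ∘ jF`, `rF' = incl ∘ rF` on `F`, `rF' k = rk`. -/
def MF0_stmt : Prop := ∀ (I C₀ C D : Type) [NormedRing C₀] [NormedAlgebra ℂ C₀] [CompleteSpace C₀]
  [NormedRing C] [NormedAlgebra ℂ C] [CompleteSpace C] [NormedRing D] [NormedAlgebra ℂ D]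
  [CompleteSpace D] (j : C₀ →ₐ[ℂ] C) (e : I → C →ₐ[ℂ] D) (r : I → D →ₐ[ℂ] C) (χ : D →ₐ[ℂ] ℂ), MSplit j e r →
  ∀ F : Finset I, ∃ (jF : C₀ →ₐ[ℂ] mS e F) (rF : F → D →ₐ[ℂ] mS e F), (∀ x, (jF x : C) = j x) ∧
  (∀ (k : F) (d : D), (rF k d : C) = r k d) ∧
  (∀ w : K0 (mS e F), ∃ (x : K0 C₀) (y : F → K0 D), (∀ k, k0map χ.toRingHom (y k) = 0) ∧
    w = k0map jF.toRingHom x + ∑ k, k0map (rF k).toRingHom (y k)) ∧
  ∀ (x : K0 C₀) (y : F → K0 D), (∀ k, k0map χ.toRingHom (y k) = 0) →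
    k0map jF.toRingHom x + ∑ k, k0map (rF k).toRingHom (y k) = 0 → x = 0 ∧ y = 0

/-- ROW pv:MS0 (medium; from MSF, MF0, CS0, CI0, FUN). Push MF0 to `C`: surjectivity by CS0 (`y` restricted to `F` as a `Finsupp`), injectivity by CI0 for `F ⊇ support y`. -/
def MS0R_stmt : Prop := MS0_stmt

/-- ROW pv:MF1 (medium; from MSF, SX1, FUN). As MF0. -/
def MF1_stmt : Prop := ∀ (I C₀ C D : Type) [NormedRing C₀] [NormedAlgebra ℂ C₀] [CompleteSpace C₀]
  [NormedRing C] [NormedAlgebra ℂ C] [CompleteSpace C] [NormedRing D] [NormedAlgebra ℂ D]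
  [CompleteSpace D] (j : C₀ →ₐ[ℂ] C) (e : I → C →ₐ[ℂ] D) (r : I → D →ₐ[ℂ] C), MSplit j e r →
  ∀ F : Finset I, ∃ (jF : C₀ →ₐ[ℂ] mS e F) (rF : F → D →ₐ[ℂ] mS e F) (hj : Continuous jF.toRingHom)
    (hr : ∀ k, Continuous (rF k).toRingHom), (∀ x, (jF x : C) = j x) ∧ (∀ (k : F) (d : D), (rF k d : C) = r k d) ∧
  (∀ w : K1 (mS e F), ∃ (x : K1 C₀) (y : F → K1 D),
    w = k1map jF.toRingHom hj x + ∑ k, k1map (rF k).toRingHom (hr k) (y k)) ∧
  ∀ (x : K1 C₀) (y : F → K1 D), k1map jF.toRingHom hj x + ∑ k, k1map (rF k).toRingHom (hr k) (y k) = 0 →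
    x = 0 ∧ y = 0

/-- ROW pv:MS1 (medium; from MSF, MF1, CS1, CI1, FUN). As MS0. -/
def MS1R_stmt : Prop := MS1_stmt

/-! ## `ℂ` and totally disconnected spaces -/

/-- ROW pv:GLC (medium). `GL_n(ℂ)` is path connected: `g ∈ GL_n(ℂ)`: the polynomial `det((1-z) 1 + z g)` has finitely many zeros, none at 0, 1; a path in `ℂ` from 0 to 1 avoiding a finite set (`Set.Finite.countable.isPathConnected_compl_of_one_lt_rank`). -/
def GLC_stmt : Prop := ∀ (ι : Type) [Fintype ι] [DecidableEq ι] (g : (Matrix ι ι ℂ)ˣ), Htp g 1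

/-- ROW pv:TRI (short-medium). The trace of an idempotent complex matrix is a natural number (its rank: `Matrix` → `LinearMap.IsProj`, `LinearMap.trace` of a projection = finrank of the range), and two idempotent matrices over `ℂ` with the same rank are equivalent: `e = x y`, `y x = 1_r` (`x : ℂ^r → range e` a basis, `y` coordinates of `e v`). -/
def TRI_stmt : Prop := ∀ (ι : Type) [Fintype ι] [DecidableEq ι] (e : Matrix ι ι ℂ), e * e = e →
  ∃ (r : ℕ) (x : Matrix ι (Fin r) ℂ) (y : Matrix (Fin r) ι ℂ), e.trace = r ∧ x * y = e ∧ y * x = 1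

/-- ROW pv:KC (short-medium; from K0E, K0G, K0B, K1M, K1G, GLC, TRI). The trace is a homomorphism `K₀(ℂ) → ℂ` (`Matrix.trace_mul_comm`), `[e] = r [1]`. -/
def KCR_stmt : Prop := KC_stmt

/-- ROW pv:RNK (medium; from TRI). `X` compact: the function `x ↦ trace (e x)` is continuous with values in `ℕ`, so it is a continuous function to `ℤ`. It respects the relations of `K0Rel`. -/
def RNK_stmt : Prop := ∀ (X : Type) [TopologicalSpace X] [CompactSpace X], ∃ R : K0 C(X, ℂ) →+ C(X, ℤ),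
  ∀ (ι : Type) [Fintype ι] (e : Matrix ι ι C(X, ℂ)) (he : e * e = e) (x : X), ((R (k0 e he) x : ℤ) : ℂ) = ∑ i, e i i x

/-- ROW pv:KT0 (medium; from RNK, TRI, K0E, K0B, K0G, CLO_stmt). `Ω` compact totally disconnected Hausdorff. `R` of RNK is bijective: for `e` choose a finite partition of `Ω` into clopen sets `U_i ∋ x_i` on which `e` is close to `e(x_i)` (CLO radius for the constant idempotent over `C(Ω)`); `e` is close to the locally constant idempotent `e' = ∑ 1_(U_i) e(x_i)`, `[e'] = ∑ [1_(U_i) e(x_i)]`,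
`1_(U_i) e(x_i) = (x 1_(U_i)) (y 1_(U_i))` equivalent to `1_(U_i) ⊗ 1_r` (TRI). So `K₀` is generated by the classes `[1_U]`, `U` clopen. Injectivity: `∑ n_i [1_(U_i)]` refined to a partition: `R = 0` forces `n_i = 0`. Surjectivity: step functions. (CLO is for normed rings; the radius is for one fixed `e`: use uniform continuity and CLO for `e` itself.) -/
def KT0_stmt : Prop := ∀ (Ω : Type) [TopologicalSpace Ω] [CompactSpace Ω] [T2Space Ω] [TotallyDisconnectedSpace Ω] (R : K0 C(Ω, ℂ) →+ C(Ω, ℤ)),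
  (∀ (ι : Type) [Fintype ι] (e : Matrix ι ι C(Ω, ℂ)) (he : e * e = e) (x : Ω), ((R (k0 e he) x : ℤ) : ℂ) = ∑ i, e i i x) → Function.Bijective R

/-- ROW pv:KT1 (medium; from K1G, K1M, K1C, GLC). `g` is joined to a locally constant `g' = ∑ 1_(U_i) g(x_i)` (K1C), and each `g(x_i)` to 1 in `GL_n(ℂ)` (GLC): `∑ 1_(U_i) γ_i(t)`. -/
def KT1_stmt : Prop := ∀ (Ω : Type) [TopologicalSpace Ω] [CompactSpace Ω] [T2Space Ω] [TotallyDisconnectedSpace Ω] (y : K1 C(Ω, ℂ)), y = 0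

end Pool.Agent.PV
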