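import Pool.Agent.helper77.PV.Base

/-!
# Project pv: interfaces between the blocks
-/

set_option autoImplicit false

open scoped Matrix
open MeasureTheory

namespace Pool.Agent.PV

open Pool.Agent.CZ

/-! ## Algebra homomorphisms between algebras of continuous functions -/

/-- `f ↦ f ∘ α⁻¹` -/
noncomputable def alC {X : Type} [TopologicalSpace X] (α : X ≃ₜ X) : C(X, ℂ) ≃ₐ[ℂ] C(X, ℂ) :=
  AlgEquiv.ofAlgHom (ContinuousMap.compRightAlgHom ℂ ℂ (α.symm : C(X, X)))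
    (ContinuousMap.compRightAlgHom ℂ ℂ (α : C(X, X)))
    (by ext f x; exact congrArg f (α.apply_symm_apply x))
    (by ext f x; exact congrArg f (α.symm_apply_apply x))

/-- constant functions -/
def cstC (X B : Type) [TopologicalSpace X] [NormedRing B] [NormedAlgebra ℂ B] : B →ₐ[ℂ] C(X, B) where
  toFun b := ContinuousMap.const X b
  map_one' := rfl
  map_mul' _ _ := rfl
  map_zero' := rfl
  map_add' _ _ := rfl
  commutes' _ := rfl

/-- evaluation at a point -/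
def evC {X : Type} [TopologicalSpace X] (B : Type) [NormedRing B] [NormedAlgebra ℂ B] (x : X) :
    C(X, B) →ₐ[ℂ] B where
  toFun f := f x
  map_one' := rfl
  map_mul' _ _ := rfl
  map_zero' := rfl
  map_add' _ _ := rfl
  commutes' _ := rfl

/-- `f ↦ φ ∘ f` -/
def cmpC (X : Type) [TopologicalSpace X] {B D : Type} [NormedRing B] [NormedAlgebra ℂ B] [NormedRing D]
    [NormedAlgebra ℂ D] (φ : B →ₐ[ℂ] D) (hφ : Continuous φ) : C(X, B) →ₐ[ℂ] C(X, D) :=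
  φ.compLeftContinuous ℂ hφ

/-- `f ↦ f ∘ π` -/
abbrev pbC {X Y : Type} [TopologicalSpace X] [TopologicalSpace Y] (B : Type) [NormedRing B]
    [NormedAlgebra ℂ B] (π : C(X, Y)) : C(Y, B) →ₐ[ℂ] C(X, B) := ContinuousMap.compRightAlgHom ℂ B π

/-! ## Z-pairs -/

/-- a Z-pair: `al` an isometric automorphism of `B`, `io : B → A` isometric, `u ∈ A` invertible,
`u io(b) = io(al b) u`, the monomials `io(b) u^n` span a dense subspace, Fourier coefficients `c n` -/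
structure ZPair {B A : Type} [NormedRing B] [NormedAlgebra ℂ B] [NormedRing A] [NormedAlgebra ℂ A]
    (al : B ≃ₐ[ℂ] B) (io : B →ₐ[ℂ] A) (u : Aˣ) (c : ℤ → A →ₗ[ℂ] B) : Prop where
  isoB : ∀ b, ‖al b‖ = ‖b‖
  isoA : ∀ b, ‖io b‖ = ‖b‖
  nu : ‖(u : A)‖ ≤ 1
  nui : ‖((u⁻¹ : Aˣ) : A)‖ ≤ 1
  cov : ∀ b, (u : A) * io b = io (al b) * (u : A)
  dense : Dense ((Submodule.span ℂ {a : A | ∃ (b : B) (n : ℤ), a = io b * ((u ^ n : Aˣ) : A)} :
    Submodule ℂ A) : Set A)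
  cnorm : ∀ n a, ‖c n a‖ ≤ ‖a‖
  cval : ∀ m n b, c m (io b * ((u ^ n : Aˣ) : A)) = if m = n then b else 0

/-- a map of Z-pairs -/
structure ZMap {B A B' A' : Type} [NormedRing B] [NormedAlgebra ℂ B] [NormedRing A] [NormedAlgebra ℂ A]
    [NormedRing B'] [NormedAlgebra ℂ B'] [NormedRing A'] [NormedAlgebra ℂ A']
    (al : B ≃ₐ[ℂ] B) (io : B →ₐ[ℂ] A) (u : Aˣ) (al' : B' ≃ₐ[ℂ] B') (io' : B' →ₐ[ℂ] A') (u' : A'ˣ)
    (f : B →ₐ[ℂ] B') (F : A →ₐ[ℂ] A') : Prop where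
  cf : Continuous f
  cF : Continuous F
  fal : ∀ b, f (al b) = al' (f b)
  fio : ∀ b, F (io b) = io' (f b)
  fu : F (u : A) = (u' : A')

/-! ## Split excision and multi-split algebras -/

/-- `e : C' → D` is split by `r`, and `j` identifies `C` with the elements of `C'` with scalar image -/
structure Split {C C' D : Type} [NormedRing C] [NormedAlgebra ℂ C] [NormedRing C'] [NormedAlgebra ℂ C']
    [NormedRing D] [NormedAlgebra ℂ D] (j : C →ₐ[ℂ] C') (e : C' →ₐ[ℂ] D) (r : D →ₐ[ℂ] C') : Prop where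
  iso : ∀ x, ‖j x‖ = ‖x‖
  ran : ∀ c, (∃ z : ℂ, e c = algebraMap ℂ D z) → ∃ x, j x = c
  sca : ∀ x, ∃ z : ℂ, e (j x) = algebraMap ℂ D z
  ce : Continuous e
  cr : Continuous r
  er : ∀ d, e (r d) = d

/-- `e k : C → D` is split by `r k`, `e i (r k d)` is scalar for `i ≠ k`, the elements with almost all
`e k c` scalar are dense, and `j` identifies `C₀` with the elements with all `e k c` scalar -/
structure MSplit {I C₀ C D : Type} [NormedRing C₀] [NormedAlgebra ℂ C₀] [NormedRing C]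
    [NormedAlgebra ℂ C] [NormedRing D] [NormedAlgebra ℂ D] (j : C₀ →ₐ[ℂ] C) (e : I → C →ₐ[ℂ] D)
    (r : I → D →ₐ[ℂ] C) : Prop where
  iso : ∀ x, ‖j x‖ = ‖x‖
  ran : ∀ c, (∀ k, ∃ z : ℂ, e k c = algebraMap ℂ D z) → ∃ x, j x = c
  sca : ∀ k x, ∃ z : ℂ, e k (j x) = algebraMap ℂ D z
  ce : ∀ k, Continuous (e k)
  cr : ∀ k, Continuous (r k)
  er : ∀ k d, e k (r k d) = d
  eo : ∀ i k, i ≠ k → ∀ d, ∃ z : ℂ, e i (r k d) = algebraMap ℂ D z
  dense : Dense {c : C | ∃ F : Finset I, ∀ k ∉ F, ∃ z : ℂ, e k c = algebraMap ℂ D z}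

/-- split excision for `K₀` (proof: page, A5) -/
def SX0_stmt : Prop := ∀ (C C' D : Type) [NormedRing C] [NormedAlgebra ℂ C] [CompleteSpace C]
  [NormedRing C'] [NormedAlgebra ℂ C'] [CompleteSpace C'] [NormedRing D] [NormedAlgebra ℂ D]
  [CompleteSpace D] (j : C →ₐ[ℂ] C') (e : C' →ₐ[ℂ] D) (r : D →ₐ[ℂ] C') (χ : D →ₐ[ℂ] ℂ),
  Split j e r →
  (∀ z : K0 C', ∃ (x : K0 C) (y : K0 D), k0map χ.toRingHom y = 0 ∧
    z = k0map j.toRingHom x + k0map r.toRingHom y) ∧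
  ∀ (x : K0 C) (y : K0 D), k0map χ.toRingHom y = 0 →
    k0map j.toRingHom x + k0map r.toRingHom y = 0 → x = 0 ∧ y = 0

/-- split excision for `K₁` -/
def SX1_stmt : Prop := ∀ (C C' D : Type) [NormedRing C] [NormedAlgebra ℂ C] [CompleteSpace C]
  [NormedRing C'] [NormedAlgebra ℂ C'] [CompleteSpace C'] [NormedRing D] [NormedAlgebra ℂ D]
  [CompleteSpace D] (j : C →ₐ[ℂ] C') (e : C' →ₐ[ℂ] D) (r : D →ₐ[ℂ] C')
  (hj : Continuous j.toRingHom) (hr : Continuous r.toRingHom), Split j e r →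
  (∀ z : K1 C', ∃ (x : K1 C) (y : K1 D), z = k1map j.toRingHom hj x + k1map r.toRingHom hr y) ∧
  ∀ (x : K1 C) (y : K1 D), k1map j.toRingHom hj x + k1map r.toRingHom hr y = 0 → x = 0 ∧ y = 0

/-- multi-split algebras, `K₀` (page, A6) -/
def MS0_stmt : Prop := ∀ (I C₀ C D : Type) [NormedRing C₀] [NormedAlgebra ℂ C₀] [CompleteSpace C₀]
  [NormedRing C] [NormedAlgebra ℂ C] [CompleteSpace C] [NormedRing D] [NormedAlgebra ℂ D]
  [CompleteSpace D] (j : C₀ →ₐ[ℂ] C) (e : I → C →ₐ[ℂ] D) (r : I → D →ₐ[ℂ] C) (χ : D →ₐ[ℂ] ℂ),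
  MSplit j e r →
  (∀ z : K0 C, ∃ (x : K0 C₀) (y : I →₀ K0 D), (∀ k, k0map χ.toRingHom (y k) = 0) ∧
    z = k0map j.toRingHom x + y.sum fun k v => k0map (r k).toRingHom v) ∧
  ∀ (x : K0 C₀) (y : I →₀ K0 D), (∀ k, k0map χ.toRingHom (y k) = 0) →
    (k0map j.toRingHom x + y.sum fun k v => k0map (r k).toRingHom v) = 0 → x = 0 ∧ y = 0

/-- multi-split algebras, `K₁` -/
def MS1_stmt : Prop := ∀ (I C₀ C D : Type) [NormedRing C₀] [NormedAlgebra ℂ C₀] [CompleteSpace C₀]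
  [NormedRing C] [NormedAlgebra ℂ C] [CompleteSpace C] [NormedRing D] [NormedAlgebra ℂ D]
  [CompleteSpace D] (j : C₀ →ₐ[ℂ] C) (e : I → C →ₐ[ℂ] D) (r : I → D →ₐ[ℂ] C)
  (hj : Continuous j.toRingHom) (hr : ∀ k, Continuous (r k).toRingHom), MSplit j e r →
  (∀ z : K1 C, ∃ (x : K1 C₀) (y : I →₀ K1 D),
    z = k1map j.toRingHom hj x + y.sum fun k v => k1map (r k).toRingHom (hr k) v) ∧
  ∀ (x : K1 C₀) (y : I →₀ K1 D),
    (k1map j.toRingHom hj x + y.sum fun k v => k1map (r k).toRingHom (hr k) v) = 0 → x = 0 ∧ y = 0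

/-! ## Loops -/

/-- the loop `t ↦ e^(2πit) 1` in `B` -/
noncomputable def zl (B : Type) [NormedRing B] [NormedAlgebra ℂ B] : C(UnitAddCircle, B) :=
  ⟨fun t => (fourier 1 t : ℂ) • (1 : B), (map_continuous (fourier 1)).smul continuous_const⟩

/-- the loop `t ↦ e^(-2πit) 1` in `B` -/
noncomputable def zi (B : Type) [NormedRing B] [NormedAlgebra ℂ B] : C(UnitAddCircle, B) :=
  ⟨fun t => (fourier (-1) t : ℂ) • (1 : B), (map_continuous (fourier (-1))).smul continuous_const⟩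

/-- the invertible loop `z` -/
noncomputable def zU (B : Type) [NormedRing B] [NormedAlgebra ℂ B] : (C(UnitAddCircle, B))ˣ where
  val := zl B
  inv := zi B
  val_inv := by
    ext t
    change (fourier 1 t : ℂ) • (1 : B) * ((fourier (-1) t : ℂ) • (1 : B)) = 1
    rw [smul_mul_smul_comm, mul_one, ← fourier_add]
    simp
  inv_val := by
    ext t
    change (fourier (-1) t : ℂ) • (1 : B) * ((fourier 1 t : ℂ) • (1 : B)) = 1
    rw [smul_mul_smul_comm, mul_one, ← fourier_add]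
    simp

/-- constant loops, evaluation of loops at the base point -/
abbrev cl (B : Type) [NormedRing B] [NormedAlgebra ℂ B] : B →ₐ[ℂ] C(UnitAddCircle, B) :=
  cstC UnitAddCircle B

abbrev el (B : Type) [NormedRing B] [NormedAlgebra ℂ B] : C(UnitAddCircle, B) →ₐ[ℂ] B :=
  evC B (0 : UnitAddCircle)

theorem cl_cont (B : Type) [NormedRing B] [NormedAlgebra ℂ B] : Continuous (cl B).toRingHom :=
  ContinuousMap.continuous_const'

theorem el_cont (B : Type) [NormedRing B] [NormedAlgebra ℂ B] : Continuous (el B).toRingHom :=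
  continuous_eval_const (0 : UnitAddCircle)

/-- Bott: `K₁(C(circle, B)) = K₁(B) ⊕ K₀(B)`, `β[e] = [z e + 1 - e]` (page, C1) -/
def BOT_stmt : Prop := ∀ (B : Type) [NormedRing B] [NormedAlgebra ℂ B] [CompleteSpace B],
  ∃ (be : K0 B →+ K1 C(UnitAddCircle, B)) (d : K1 C(UnitAddCircle, B) →+ K0 B),
    (∀ (ι : Type) [Fintype ι] [DecidableEq ι] (e : Matrix ι ι B) (he : e * e = e)
      (g : (Matrix ι ι C(UnitAddCircle, B))ˣ), (g : Matrix ι ι C(UnitAddCircle, B)) =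
        zl B • e.map (cl B) + (1 - e.map (cl B)) → be (k0 e he) = k1 g) ∧
    (∀ z, d (be z) = z) ∧ (∀ y : K1 B, d (k1map (cl B).toRingHom (cl_cont B) y) = 0) ∧
    (∀ z, k1map (el B).toRingHom (el_cont B) (be z) = 0) ∧
    ∀ y : K1 C(UnitAddCircle, B), y = k1map (cl B).toRingHom (cl_cont B)
      (k1map (el B).toRingHom (el_cont B) y) + be (d y)

/-- the value at `t` of a matrix of loops -/
def evM {B : Type} [NormedRing B] {ι : Type} (E : Matrix ι ι C(UnitAddCircle, B)) (t : UnitAddCircle) :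
    Matrix ι ι B := E.map fun f => f t

/-- `V(s) : E(0) → E(s)`, `0 ≤ s ≤ 1`, is a continuous family of isomorphisms, `V(0) = E(0)` -/
structure Hol {B : Type} [NormedRing B] [NormedAlgebra ℂ B] {ι : Type} [Fintype ι] [DecidableEq ι]
    (E : Matrix ι ι C(UnitAddCircle, B)) (V V' : C(unitInterval, Matrix ι ι B)) : Prop where
  v0 : V 0 = evM E 0
  l : ∀ s, V' s * V s = evM E 0
  r : ∀ s, V s * V' s = evM E ((s : ℝ) : UnitAddCircle)
  ve : ∀ s, V s * evM E 0 = V s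
  ev : ∀ s, evM E 0 * V' s = V' s

/-- holonomy: `K₀(C(circle, B)) = K₀(B) ⊕ K₁(B)` (page, C2) -/
def HOL_stmt : Prop := ∀ (B : Type) [NormedRing B] [NormedAlgebra ℂ B] [CompleteSpace B],
  ∃ de : K0 C(UnitAddCircle, B) →+ K1 B,
    (∀ (ι : Type) [Fintype ι] [DecidableEq ι] (E : Matrix ι ι C(UnitAddCircle, B)) (hE : E * E = E)
      (V V' : C(unitInterval, Matrix ι ι B)) (g : (Matrix ι ι B)ˣ), Hol E V V' →
      (g : Matrix ι ι B) = V 1 + (1 - evM E 0) → de (k0 E hE) = k1 g) ∧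
    (∀ (ι : Type) [Fintype ι] [DecidableEq ι] (E : Matrix ι ι C(UnitAddCircle, B)), E * E = E →
      ∃ (V V' : C(unitInterval, Matrix ι ι B)) (g : (Matrix ι ι B)ˣ), Hol E V V' ∧
      (g : Matrix ι ι B) = V 1 + (1 - evM E 0)) ∧
    (∀ z, k0map (el B).toRingHom z = 0 → de z = 0 → z = 0) ∧
    ∀ y : K1 B, ∃ z, k0map (el B).toRingHom z = 0 ∧ de z = y

/-- `K₀(ℂ) = ℤ`, `K₁(ℂ) = 0` -/
def KC_stmt : Prop := (∀ z : K0 ℂ, ∃ n : ℤ, z = n • unitCls ℂ) ∧ (∀ n : ℤ, n • unitCls ℂ = 0 → n = 0) ∧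
  ∀ y : K1 ℂ, y = 0

/-- `K₀(C(circle)) = ℤ`, `K₁(C(circle)) = ℤ [z]` (page, C4) -/
def KS_stmt : Prop := (∀ z : K0 C(UnitAddCircle, ℂ), k0map (el ℂ).toRingHom z = 0 → z = 0) ∧
  (∀ y : K1 C(UnitAddCircle, ℂ), ∃ n : ℤ, ∀ g : (Matrix Unit Unit C(UnitAddCircle, ℂ))ˣ,
    (g : Matrix Unit Unit C(UnitAddCircle, ℂ)) = Matrix.of (fun _ _ => zl ℂ) → y = n • k1 g) ∧
  ∀ (n : ℤ) (g : (Matrix Unit Unit C(UnitAddCircle, ℂ))ˣ),
    (g : Matrix Unit Unit C(UnitAddCircle, ℂ)) = Matrix.of (fun _ _ => zl ℂ) → n • k1 g = 0 → n = 0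

end Pool.Agent.PV
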