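import Pool.Agent.helper77.PV.SpecK

/-!
# Project pv (MP_376aaf_an), block K, part 3: the small boundary property of the extension. Rows pvk:FSV, FSG, DXC, KSC

RULES as in SpecK. `import Pool.Agent.helper77.PV.SpecK3`.
-/

set_option autoImplicit false

open scoped Matrix Topology
open Filter MeasureTheory

namespace Pool.Agent.PV

open Pool.Agent.CZ Pool.Agent.PVH

/-- ROW pvk:FSV (medium). Metric `d` on `X`; `K_n = {x : 2^(-n-1) ≤ d(x, x₀) ≤ 2^(-n)}`, `n ≥ 1`, `K_0 = {x : 1/2 ≤ d(x, x₀)}`. `C ∩ K_n = closure C ∩ K_n` is compact; cover it by finitely many open sets `V` with null boundary (`SmallBdry`), contained in `G` and in `{x : 2^(-n-2) < d(x, x₀) < 2^(-n+1)}` (for `n = 0`: in `{x : 1/4 < d(x, x₀)}`).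
`V` = the union of all of them; the family is locally finite on `{x₀}ᶜ`, so `frontier V ⊆ {x₀} ∪ ⋃ frontier V_i` (a countable union of null sets). -/
def FSV_stmt : Prop := ∀ (X : Type) [TopologicalSpace X] [CompactSpace X] [TopologicalSpace.MetrizableSpace X] (α : X ≃ₜ X), SmallBdry α →
  ∀ (x₀ : X) (C G : Set X), C ⊆ G → IsOpen G → x₀ ∉ G → closure C ⊆ C ∪ {x₀} → ∃ V : Set X, IsOpen V ∧ C ⊆ V ∧ V ⊆ G ∧
    ∀ [MeasurableSpace X] [BorelSpace X] (μ : Measure X), IsProbabilityMeasure μ → μ.map α = μ → μ (frontier V \ {x₀}) = 0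

/-- ROW pvk:FSG (medium; from FSV, FNM, FAP, FID). `X` = the extension, `π = ePr`. Let `p ∈ W`. `W` contains a set `{q : π q ∈ U, q.2 k ∈ W_k for k ∈ S}`, `S` finite, `U`, `W_k` open. The boundary of a finite intersection lies in the union of the boundaries, so it is enough to find, for `U` and for each `k`, an open set `O ∋ p` with null boundary in `{q : π q ∈ U}`, resp. in `{q : q.2 k ∈ W_k}`.
(1) `U`: `V₀ ∋ π p`, `V₀ ⊆ U` with null boundary (`SmallBdry α₀`), `O = π⁻¹ V₀`, `frontier O ⊆ π⁻¹ (frontier V₀)`, and `μ.map π` is an `α₀`-invariant Borel probability measure (`borel X₀`; FID). (2) `k` with `α₀^k (π p) ≠ x₀`: `q.2 k = f(α₀^k (π q))` near `p`: use (1) for `U' = {x : α₀^k x ≠ x₀, f(α₀^k x) ∈ W_k}`, open (`f` is continuous off `x₀`).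
(3) `k` with `α₀^k (π p) = x₀`: `W'` open, `p.2 k ∈ W'`, `closure W' ⊆ W_k`; `C = {x ≠ x₀ : f x ∈ closure W'}`, `G = {x ≠ x₀ : f x ∈ W_k}`, `V` from FSV. `O = {q : α₀^k (π q) ∈ V} ∪ {q : α₀^k (π q) = x₀, q.2 k ∈ W'}` is open: if `q'.2 k ∈ W'` then `α₀^k (π q') = x₀` or `α₀^k (π q') ∈ C ⊆ V`. `O ⊆ {q : q.2 k ∈ W_k}`.
`frontier O ⊆ {q : α₀^k (π q) = x₀} ∪ {q : α₀^k (π q) ∈ frontier V \ {x₀}}`: null by FNM (aperiodic: FAP) and FSV (`μ.map π` and `α₀^k` invariance). -/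
def FSG_stmt : Prop := ∀ (X₀ Y : Type) [TopologicalSpace X₀] [TopologicalSpace Y] [CompactSpace X₀] [TopologicalSpace.MetrizableSpace X₀] [CompactSpace Y] [T2Space Y]
  [Infinite X₀] (α₀ : X₀ ≃ₜ X₀) (x₀ : X₀) (f : X₀ → Y), ContinuousOn f {x₀}ᶜ → IsMinimal α₀ → SmallBdry α₀ → SmallBdry (eHom α₀ x₀ f)

/-- ROW pvk:DXC (short; from FMZ, FMI, FEA, DXD, FSG). As DXA (see helper53/PV/DXA.lean), with the small boundary property. -/
def DXC_stmt : Prop := ∀ (X₀ Y : Type) [TopologicalSpace X₀] [TopologicalSpace Y] [CompactSpace X₀] [CompactSpace Y]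
  [TopologicalSpace.MetrizableSpace X₀] [TopologicalSpace.MetrizableSpace Y] [Infinite X₀] [PathConnectedSpace Y] (α₀ : X₀ ≃ₜ X₀), IsMinimal α₀ →
  ∃ (X : Type) (_ : TopologicalSpace X) (_ : CompactSpace X) (_ : TopologicalSpace.MetrizableSpace X) (_ : Infinite X) (α : X ≃ₜ X) (π : C(X, X₀))
    (e : ℤ → C(X, ℂ) →ₐ[ℂ] C(Y, ℂ)) (r : ℤ → C(Y, ℂ) →ₐ[ℂ] C(X, ℂ)), IsMinimal α ∧ ExtData α₀ α π e r ∧ (SmallBdry α₀ → SmallBdry α)

/-- ROW pvk:KSC (short; from YSP, DXC, LCP, COE, DFN, DTB, KSX). As KSB (see helper20/PV/KSB.lean), with the small boundary property. -/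
def KSC_stmt : Prop := ∀ (X₀ : Type) [TopologicalSpace X₀] [CompactSpace X₀] [TopologicalSpace.MetrizableSpace X₀] [Infinite X₀] (α₀ : X₀ ≃ₜ X₀), IsMinimal α₀ →
  ∀ (A₀ : Type) [CStarAlgebra A₀] (ι₀ : C(X₀, ℂ) →⋆ₐ[ℂ] A₀) (u₀ : unitary A₀), IsCrossedProduct α₀ ι₀ u₀ →
  ∀ (S₀ S₁ : Type) [AddCommGroup S₀] [Countable S₀] [AddCommGroup S₁] [Countable S₁],
  ∃ (X : Type) (_ : TopologicalSpace X) (_ : CompactSpace X) (_ : TopologicalSpace.MetrizableSpace X) (_ : Infinite X) (α : X ≃ₜ X) (π : C(X, X₀)),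
    IsMinimal α ∧ (SmallBdry α₀ → SmallBdry α) ∧ Function.Surjective π ∧ (∀ x, π (α x) = α₀ (π x)) ∧ (∃ x : X₀, ∀ p q : X, π p = x → π q = x → p = q) ∧
    ∃ (A : Type) (_ : CStarAlgebra A) (ι : C(X, ℂ) →⋆ₐ[ℂ] A) (u : unitary A), IsCrossedProduct α ι u ∧
    (∃ Φ : A₀ →⋆ₐ[ℂ] A, (∀ f, Φ (ι₀ f) = ι (f.comp π)) ∧ Φ (u₀ : A₀) = u ∧
      (∀ t₀ : TracialState A₀, ∃ t : TracialState A, ∀ a, t.τ (Φ a) = t₀.τ a) ∧ ∀ t t' : TracialState A, (∀ a, t.τ (Φ a) = t'.τ (Φ a)) → t = t') ∧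
    ∀ (G₀ : Type) [AddCommGroup G₀] (g : G₀) (G₁ : Type) [AddCommGroup G₁] (E : Type) [AddCommGroup E] [Module ℝ E] [TopologicalSpace E]
      (K : Set E) (ρ : G₀ →+ C(K, ℝ)), HasInv A₀ g G₁ K ρ → HasInv A ((g, 0) : G₀ × S₀) (G₁ × S₁) K (ρ.comp (AddMonoidHom.fst G₀ S₀))

end Pool.Agent.PV
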