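import Pool.Agent.helper77.PV.SpecK

/-!
# Project pv (MP_376aaf_an): the final statements
-/

set_option autoImplicit false

namespace Pool.Agent.PV

open Pool.Agent.CZ Pool.Agent.PVH

/-- `(G₀, g, G₁, K, ρ)` is the invariant of a crossed product `C(X) ⋊ ℤ` by a minimal homeomorphism of
an infinite compact metrizable space -/
def Occurs {G₀ : Type} [AddCommGroup G₀] (g : G₀) (G₁ : Type) [AddCommGroup G₁] {E : Type} [AddCommGroup E]
    [Module ℝ E] [TopologicalSpace E] (K : Set E) (ρ : G₀ →+ C(K, ℝ)) : Prop :=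
  ∃ (X : Type) (_ : TopologicalSpace X) (_ : CompactSpace X) (_ : TopologicalSpace.MetrizableSpace X)
    (_ : Infinite X) (α : X ≃ₜ X), IsMinimal α ∧
    ∃ (A : Type) (_ : CStarAlgebra A) (ι : C(X, ℂ) →⋆ₐ[ℂ] A) (u : unitary A),
      IsCrossedProduct α ι u ∧ HasInv A g G₁ K ρ

/-- the same, and the homeomorphism has the small boundary property -/
def OccursSBP {G₀ : Type} [AddCommGroup G₀] (g : G₀) (G₁ : Type) [AddCommGroup G₁] {E : Type}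
    [AddCommGroup E] [Module ℝ E] [TopologicalSpace E] (K : Set E) (ρ : G₀ →+ C(K, ℝ)) : Prop :=
  ∃ (X : Type) (_ : TopologicalSpace X) (_ : CompactSpace X) (_ : TopologicalSpace.MetrizableSpace X)
    (_ : Infinite X) (α : X ≃ₜ X), IsMinimal α ∧ SmallBdry α ∧
    ∃ (A : Type) (_ : CStarAlgebra A) (ι : C(X, ℂ) →⋆ₐ[ℂ] A) (u : unitary A),
      IsCrossedProduct α ι u ∧ HasInv A g G₁ K ρ

/-- the algebraic condition -/
def RangeCond {G₀ : Type} [AddCommGroup G₀] (g : G₀) (G₁ : Type) [AddCommGroup G₁] {E : Type}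
    [AddCommGroup E] [Module ℝ E] [TopologicalSpace E] (K : Set E) (ρ : G₀ →+ C(K, ℝ)) : Prop :=
  (∃ (G' : Type) (_ : AddCommGroup G'), Nonempty (G₁ ≃+ ℤ × G')) ∧
  ∃ H S : AddSubgroup G₀, IsCompl H S ∧ g ∈ H ∧
    (∀ (n : ℕ) (x : G₀), n ≠ 0 → x ∈ H → n • x = 0 → x = 0) ∧ ∀ x ∈ S, ρ x = 0

theorem Fin_range (hKNE : KNE_stmt) (hKSU : KSU_stmt) (hKHI : KHI_stmt) (E : Type) [AddCommGroup E] [Module ℝ E]
    [TopologicalSpace E] [IsTopologicalAddGroup E] [ContinuousSMul ℝ E] [LocallyConvexSpace ℝ E] [T2Space E]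
    (K : Set E) (hK : IsCompact K) (hc : Convex ℝ K) (hn : K.Nonempty) (hs : IsSimplex K) (G₀ G₁ : Type)
    [AddCommGroup G₀] [AddCommGroup G₁] [Countable G₀] [Countable G₁] (g : G₀) (ρ : G₀ →+ C(K, ℝ))
    (ha : ∀ x, IsAff (ρ x)) (h1 : ρ g = 1)
    (hd : ∀ a : C(K, ℝ), IsAff a → ∀ ε : ℝ, 0 < ε → ∃ x, ∀ t, |ρ x t - a t| < ε) :
    (Occurs g G₁ K ρ ↔ RangeCond g G₁ K ρ) ∧ (OccursSBP g G₁ K ρ ↔ RangeCond g G₁ K ρ) := by
  have hA : Occurs g G₁ K ρ → RangeCond g G₁ K ρ := by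
    rintro ⟨X, i1, i2, i3, i4, α, hα, A, i5, ι, u, hcp, hI⟩
    exact hKNE X α hα A ι u hcp G₀ g G₁ E K ρ hI
  have hB : RangeCond g G₁ K ρ → OccursSBP g G₁ K ρ := by
    rintro ⟨⟨G', i, ⟨f⟩⟩, H, S, hcp, hg, htf, hS⟩
    haveI : Countable G' := by
      refine Function.Injective.countable (f := fun x : G' => f.symm ((0 : ℤ), x)) ?_
      intro x y hxy
      have h := f.symm.injective hxy
      exact congrArg Prod.snd h
    obtain ⟨X, j1, j2, j3, j4, α, hα, hb, A, j5, ι, u, hx, hI⟩ :=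
      hKSU E K hs G₀ g ρ ⟨hK, hc, hn, ha, hd, h1⟩ G' H S hcp hg htf hS
    refine ⟨X, j1, j2, j3, j4, α, hα, hb, A, j5, ι, u, hx, ?_⟩
    exact hKHI A G₀ g (ℤ × G') E K ρ hI G₀ G₁ (AddEquiv.refl G₀) f.symm ρ fun x => rfl
  have hC : OccursSBP g G₁ K ρ → Occurs g G₁ K ρ := by
    rintro ⟨X, j1, j2, j3, j4, α, hα, hb, A, j5, ι, u, hx, hI⟩
    exact ⟨X, j1, j2, j3, j4, α, hα, A, j5, ι, u, hx, hI⟩
  exact ⟨⟨hA, fun h => hC (hB h)⟩, ⟨fun h => hA (hC h), hB⟩⟩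

end Pool.Agent.PV
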