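import Pool.Agent.helper77.PV.Top
import Pool.Agent.helper62.PV.FSV
import Pool.Agent.helper62.PV.FSG
import Pool.Agent.helper62.PV.DXC
import Pool.Agent.helper62.PV.KSC

/-!
# Project pv (MP_376aaf_an): assembly, the stability theorem with the small boundary property
-/

set_option autoImplicit false

namespace Pool.Agent.PV

open Pool.Agent.CZ

theorem T_FSV : FSV_stmt := Pool.Agent.PV.FSV

theorem T_FSG : FSG_stmt := Pool.Agent.PV.FSG T_FSV aFNM aFAP aFID

theorem T_DXC : DXC_stmt := Pool.Agent.PV.DXC aFMZ aFMI aFEA aDXD T_FSG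

theorem T_KSC : KSC_stmt := Pool.Agent.PV.KSC T_YSP T_DXC T_LCP T_COE T_DFN T_DTB T_KSX

end Pool.Agent.PV
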