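import Pool.Agent.helper77.PV.Defs

/-!
# Project pv: classes of matrices over arbitrary finite index types, functoriality
-/

set_option autoImplicit false

open scoped Matrix

namespace Pool.Agent.PV

open Pool.Agent.CZ

/-- the class in `K₀(A)` of an idempotent matrix over any finite index type -/
noncomputable def k0 {A : Type} [Ring A] {ι : Type} [Fintype ι] (e : Matrix ι ι A)
    (he : e * e = e) : K0 A :=
  cls ⟨Fintype.card ι, e.submatrix (Fintype.equivFin ι).symm (Fintype.equivFin ι).symm, by
    rw [Matrix.submatrix_mul_equiv, he]⟩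

/-- an invertible matrix with renamed indices -/
def rix {A : Type} [Ring A] {ι κ : Type} [Fintype ι] [DecidableEq ι] [Fintype κ] [DecidableEq κ]
    (f : ι ≃ κ) (g : (Matrix ι ι A)ˣ) : (Matrix κ κ A)ˣ :=
  Units.map ((Matrix.reindexRingEquiv A f : Matrix ι ι A ≃+* Matrix κ κ A) : Matrix ι ι A →* Matrix κ κ A) g

/-- the class in `K₁(A)` of an invertible matrix over any finite index type -/
noncomputable def k1 {A : Type} [Ring A] [TopologicalSpace A] {ι : Type} [Fintype ι] [DecidableEq ι]
    (g : (Matrix ι ι A)ˣ) : K1 A :=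
  cls1 ⟨Fintype.card ι, rix (Fintype.equivFin ι) g⟩

/-- entrywise image of an invertible matrix -/
def umap {A B : Type} [Ring A] [Ring B] {ι : Type} [Fintype ι] [DecidableEq ι] (φ : A →+* B)
    (g : (Matrix ι ι A)ˣ) : (Matrix ι ι B)ˣ :=
  Units.map ((φ.mapMatrix : Matrix ι ι A →+* Matrix ι ι B) : Matrix ι ι A →* Matrix ι ι B) g

/-- entrywise image of an idempotent matrix -/
def imap {A B : Type} [Ring A] [Ring B] (φ : A →+* B) (p : IdemMat A) : IdemMat B :=
  ⟨p.n, p.e.map φ, by
    have h := congrArg (φ.mapMatrix) p.idem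
    rw [map_mul] at h
    exact h⟩

/-- entrywise image of an invertible matrix -/
def gmap {A B : Type} [Ring A] [Ring B] (φ : A →+* B) (p : InvMat A) : InvMat B :=
  ⟨p.n, umap φ p.g⟩

/-- functoriality of `K₀` -/
noncomputable def k0map {A B : Type} [Ring A] [Ring B] (φ : A →+* B) : K0 A →+ K0 B :=
  QuotientAddGroup.map _ _ (FreeAbelianGroup.map (imap φ)) (by
    rw [AddSubgroup.closure_le]
    rintro z (⟨p, q, ⟨x, y, h1, h2⟩, rfl⟩ | ⟨n, e, f, he, hf, hs, hef, hfe, rfl⟩)
    · refine AddSubgroup.subset_closure (Or.inl ⟨imap φ p, imap φ q, ⟨x.map φ, y.map φ, ?_, ?_⟩, ?_⟩)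
      · change x.map φ * y.map φ = p.e.map φ
        rw [← h1, Matrix.map_mul]
      · change y.map φ * x.map φ = q.e.map φ
        rw [← h2, Matrix.map_mul]
      · rw [map_sub, FreeAbelianGroup.map_of_apply, FreeAbelianGroup.map_of_apply]
    · have hE : (e.map φ) * (e.map φ) = e.map φ := by rw [← Matrix.map_mul, he]
      have hF : (f.map φ) * (f.map φ) = f.map φ := by rw [← Matrix.map_mul, hf]
      have hS : (e.map φ + f.map φ) * (e.map φ + f.map φ) = e.map φ + f.map φ := by
        have h := congrArg (φ.mapMatrix) hs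
        rw [map_mul, map_add] at h
        exact h
      refine AddSubgroup.subset_closure (Or.inr ⟨n, e.map φ, f.map φ, hE, hF, hS, ?_, ?_, ?_⟩)
      · rw [← Matrix.map_mul, hef]
        exact map_zero φ.mapMatrix
      · rw [← Matrix.map_mul, hfe]
        exact map_zero φ.mapMatrix
      · rw [map_sub, map_sub, FreeAbelianGroup.map_of_apply, FreeAbelianGroup.map_of_apply,
          FreeAbelianGroup.map_of_apply]
        have h : imap φ ⟨n, e + f, hs⟩ = ⟨n, e.map φ + f.map φ, hS⟩ := by
          unfold imap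
          congr 1
          exact map_add φ.mapMatrix e f
        rw [h]
        rfl)

/-- functoriality of `K₁` (continuous homomorphisms) -/
noncomputable def k1map {A B : Type} [Ring A] [Ring B] [TopologicalSpace A] [TopologicalSpace B]
    (φ : A →+* B) (hφ : Continuous φ) : K1 A →+ K1 B :=
  QuotientAddGroup.map _ _ (FreeAbelianGroup.map (gmap φ)) (by
    rw [AddSubgroup.closure_le]
    rintro z (⟨n, g, h, rfl⟩ | ⟨n, m, g, h, k, hk, rfl⟩ | ⟨n, g, h, ⟨γ, hγ, h0, h1⟩, rfl⟩)
    · refine AddSubgroup.subset_closure (Or.inl ⟨n, umap φ g, umap φ h, ?_⟩)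
      rw [map_sub, map_sub, FreeAbelianGroup.map_of_apply, FreeAbelianGroup.map_of_apply,
        FreeAbelianGroup.map_of_apply]
      have e : gmap φ ⟨n, g * h⟩ = ⟨n, umap φ g * umap φ h⟩ := by
        unfold gmap umap
        rw [map_mul]
      rw [e]
      rfl
    · refine AddSubgroup.subset_closure (Or.inr (Or.inl ⟨n, m, umap φ g, umap φ h, umap φ k, ?_, ?_⟩))
      · change (k : Matrix (Fin (n + m)) (Fin (n + m)) A).map φ = _
        rw [hk]
        unfold dsum
        rw [← Matrix.submatrix_map, Matrix.fromBlocks_map]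
        congr 1
        rw [Matrix.map_zero _ (map_zero φ), Matrix.map_zero _ (map_zero φ)]
        rfl
      · rw [map_sub, map_sub, FreeAbelianGroup.map_of_apply, FreeAbelianGroup.map_of_apply,
          FreeAbelianGroup.map_of_apply]
        rfl
    · refine AddSubgroup.subset_closure (Or.inr (Or.inr ⟨n, umap φ g, umap φ h, ?_, ?_⟩))
      · refine ⟨⟨fun t => (γ t).map φ, γ.continuous.matrix_map hφ⟩, ?_, ?_, ?_⟩
        · intro t
          obtain ⟨w, hw⟩ := hγ t
          refine ⟨umap φ w, ?_⟩
          change (w : Matrix (Fin n) (Fin n) A).map φ = (γ t).map φ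
          rw [hw]
        · change (γ 0).map φ = (g : Matrix (Fin n) (Fin n) A).map φ
          rw [h0]
        · change (γ 1).map φ = (h : Matrix (Fin n) (Fin n) A).map φ
          rw [h1]
      · rw [map_sub, FreeAbelianGroup.map_of_apply, FreeAbelianGroup.map_of_apply]
        rfl)

theorem k0map_k0 {A B : Type} [Ring A] [Ring B] (φ : A →+* B) {ι : Type} [Fintype ι]
    (e : Matrix ι ι A) (he : e * e = e) (hm : e.map φ * e.map φ = e.map φ) :
    k0map φ (k0 e he) = k0 (e.map φ) hm := rfl

theorem k1map_k1 {A B : Type} [Ring A] [Ring B] [TopologicalSpace A] [TopologicalSpace B]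
    (φ : A →+* B) (hφ : Continuous φ) {ι : Type} [Fintype ι] [DecidableEq ι] (g : (Matrix ι ι A)ˣ) :
    k1map φ hφ (k1 g) = k1 (umap φ g) := rfl

end Pool.Agent.PV
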