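import Pool.Agent.helper37.CZ.Defs

/-!
# Project pv (MP_376aaf_an): range of the invariant of crossed products by ℤ. Main definitions

`K₀` is `Pool.Agent.CZ.K0` (idempotent matrices). Here: `K₁`, functoriality, simplices, invariant
probability measures.
-/

set_option autoImplicit false

open scoped Matrix
open MeasureTheory

namespace Pool.Agent.PV

open Pool.Agent.CZ

/-! ## `K₁` -/

/-- an invertible matrix over `A` -/
structure InvMat (A : Type) [Ring A] where
  n : ℕ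
  g : (Matrix (Fin n) (Fin n) A)ˣ

/-- the block sum of two square matrices -/
def dsum {A : Type} [Ring A] {n m : ℕ} (g : Matrix (Fin n) (Fin n) A) (h : Matrix (Fin m) (Fin m) A) :
    Matrix (Fin (n + m)) (Fin (n + m)) A :=
  (Matrix.fromBlocks g 0 0 h).submatrix finSumFinEquiv.symm finSumFinEquiv.symm

/-- two invertible matrices are joined by a path of invertible matrices -/
def Htp {A : Type} [Ring A] [TopologicalSpace A] {ι : Type} [Fintype ι] [DecidableEq ι]
    (g h : (Matrix ι ι A)ˣ) : Prop :=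
  ∃ γ : C(unitInterval, Matrix ι ι A), (∀ t, IsUnit (γ t)) ∧ γ 0 = (g : Matrix ι ι A) ∧
    γ 1 = (h : Matrix ι ι A)

/-- the relations of `K₁(A)`: `[g h] = [g] + [h]`, `[g ⊕ h] = [g] + [h]`, `[g] = [h]` if `g` and `h`
are joined by a path of invertible matrices -/
def K1Rel (A : Type) [Ring A] [TopologicalSpace A] : Set (FreeAbelianGroup (InvMat A)) :=
  {z | (∃ (n : ℕ) (g h : (Matrix (Fin n) (Fin n) A)ˣ), z = FreeAbelianGroup.of ⟨n, g * h⟩ -
      FreeAbelianGroup.of ⟨n, g⟩ - FreeAbelianGroup.of ⟨n, h⟩) ∨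
    (∃ (n m : ℕ) (g : (Matrix (Fin n) (Fin n) A)ˣ) (h : (Matrix (Fin m) (Fin m) A)ˣ)
      (k : (Matrix (Fin (n + m)) (Fin (n + m)) A)ˣ),
      (k : Matrix (Fin (n + m)) (Fin (n + m)) A) = dsum (g : Matrix (Fin n) (Fin n) A)
        (h : Matrix (Fin m) (Fin m) A) ∧
      z = FreeAbelianGroup.of ⟨n + m, k⟩ - FreeAbelianGroup.of ⟨n, g⟩ - FreeAbelianGroup.of ⟨m, h⟩) ∨
    ∃ (n : ℕ) (g h : (Matrix (Fin n) (Fin n) A)ˣ), Htp g h ∧
      z = FreeAbelianGroup.of ⟨n, g⟩ - FreeAbelianGroup.of ⟨n, h⟩}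

/-- the group `K₁(A)` -/
abbrev K1 (A : Type) [Ring A] [TopologicalSpace A] : Type :=
  FreeAbelianGroup (InvMat A) ⧸ AddSubgroup.closure (K1Rel A)

/-- the class of an invertible matrix -/
def cls1 {A : Type} [Ring A] [TopologicalSpace A] (p : InvMat A) : K1 A :=
  QuotientAddGroup.mk (FreeAbelianGroup.of p)

/-! ## Invariant measures, simplices -/

/-- the invariant Borel probability measures of a homeomorphism -/
structure InvMeas {X : Type} [TopologicalSpace X] [MeasurableSpace X] (α : X ≃ₜ X) where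
  μ : Measure X
  prob : IsProbabilityMeasure μ
  inv : μ.map α = μ

/-- a continuous affine function on a convex set `K` -/
structure IsAff {E : Type} [AddCommGroup E] [Module ℝ E] [TopologicalSpace E] {K : Set E}
    (a : C(K, ℝ)) : Prop where
  aff : ∀ (x y z : K) (s t : ℝ), 0 ≤ s → 0 ≤ t → s + t = 1 → (z : E) = s • (x : E) + t • (y : E) →
    a z = s * a x + t * a y

/-- `K` is a Choquet simplex: the continuous affine functions on `K` have the Riesz interpolation
property (Edwards) -/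
def IsSimplex {E : Type} [AddCommGroup E] [Module ℝ E] [TopologicalSpace E] (K : Set E) : Prop :=
  ∀ a₁ a₂ b₁ b₂ : C(K, ℝ), IsAff a₁ → IsAff a₂ → IsAff b₁ → IsAff b₂ →
    (∀ x, a₁ x ≤ b₁ x) → (∀ x, a₁ x ≤ b₂ x) → (∀ x, a₂ x ≤ b₁ x) → (∀ x, a₂ x ≤ b₂ x) →
    ∃ c : C(K, ℝ), IsAff c ∧ (∀ x, a₁ x ≤ c x) ∧ (∀ x, a₂ x ≤ c x) ∧ (∀ x, c x ≤ b₁ x) ∧
      ∀ x, c x ≤ b₂ x

end Pool.Agent.PV
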