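import Pool.Agent.helper77.PV.SpecA

/-!
# Project pv (MP_376aaf_an), block B: Z-pairs, the linearisation lemma, the index map. Rows pv:*

RULES as in SpecA. `import Pool.Agent.helper77.PV.SpecB`, `namespace Pool.Agent.PV`.
Matrices over a normed ring carry the `linftyOp` norm in this file (local instances below: repeat the line
`attribute [local instance] Matrix.linftyOpNormedRing Matrix.linftyOpNormedAlgebra` in your file).
-/

set_option autoImplicit false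

open scoped Matrix Topology
open Filter

namespace Pool.Agent.PV

open Pool.Agent.CZ

attribute [local instance] Matrix.linftyOpNormedRing Matrix.linftyOpNormedAlgebra

/-- the diagonal matrix `u` -/
def uM {A : Type} [Ring A] (ι : Type) [Fintype ι] [DecidableEq ι] (u : Aˣ) : (Matrix ι ι A)ˣ :=
  Units.map ((Matrix.scalar ι : A →+* Matrix ι ι A) : A →* Matrix ι ι A) u

/-- the maps on `K₀` and `K₁` of an automorphism -/
noncomputable def k0a {B : Type} [NormedRing B] [NormedAlgebra ℂ B] (al : B ≃ₐ[ℂ] B) : K0 B →+ K0 B :=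
  k0map (al : B →ₐ[ℂ] B).toRingHom

noncomputable def k1a {B : Type} [NormedRing B] [NormedAlgebra ℂ B] (al : B ≃ₐ[ℂ] B)
    (h : Continuous (al : B →ₐ[ℂ] B).toRingHom) : K1 B →+ K1 B := k1map (al : B →ₐ[ℂ] B).toRingHom h

/-- `L = io(a) + io(b) u` -/
def IsLin {B A : Type} [NormedRing B] [NormedAlgebra ℂ B] [NormedRing A] [NormedAlgebra ℂ A] (io : B →ₐ[ℂ] A) (u : Aˣ)
    {κ : Type} [Fintype κ] [DecidableEq κ] (a b : Matrix κ κ B) (L : (Matrix κ κ A)ˣ) : Prop :=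
  (L : Matrix κ κ A) = a.map io + b.map io * (uM κ u : Matrix κ κ A)

/-- the coefficients of `L⁻¹` -/
noncomputable def rL {B A : Type} [NormedRing B] [NormedAlgebra ℂ B] [NormedRing A] [NormedAlgebra ℂ A] (c : ℤ → A →ₗ[ℂ] B)
    {κ : Type} [Fintype κ] [DecidableEq κ] (L : (Matrix κ κ A)ˣ) (n : ℤ) : Matrix κ κ B :=
  ((L⁻¹ : (Matrix κ κ A)ˣ) : Matrix κ κ A).map (c n)

/-- `q = r_(-1) al⁻¹(b)` -/
noncomputable def qL {B A : Type} [NormedRing B] [NormedAlgebra ℂ B] [NormedRing A] [NormedAlgebra ℂ A] (al : B ≃ₐ[ℂ] B)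
    (c : ℤ → A →ₗ[ℂ] B) {κ : Type} [Fintype κ] [DecidableEq κ] (b : Matrix κ κ B) (L : (Matrix κ κ A)ˣ) : Matrix κ κ B :=
  rL c L (-1) * b.map al.symm

/-- `q' = b al(r_(-1))` -/
noncomputable def qL' {B A : Type} [NormedRing B] [NormedAlgebra ℂ B] [NormedRing A] [NormedAlgebra ℂ A] (al : B ≃ₐ[ℂ] B)
    (c : ℤ → A →ₗ[ℂ] B) {κ : Type} [Fintype κ] [DecidableEq κ] (b : Matrix κ κ B) (L : (Matrix κ κ A)ˣ) : Matrix κ κ B :=
  b * (rL c L (-1)).map al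

/-- the polynomial `∑_(k ≤ d) io(x_k) u^k` -/
noncomputable def pX {B A : Type} [NormedRing B] [NormedAlgebra ℂ B] [NormedRing A] [NormedAlgebra ℂ A] (io : B →ₐ[ℂ] A) (u : Aˣ)
    {ι : Type} [Fintype ι] [DecidableEq ι] (x : ℕ → Matrix ι ι B) (d : ℕ) : Matrix ι ι A :=
  ∑ k ∈ Finset.range (d + 1), (x k).map io * ((uM ι u ^ k : (Matrix ι ι A)ˣ) : Matrix ι ι A)

/-- the constant part of the linearisation: first row `x_0, .., x_(d-1)`, then the rows of the identity -/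
def aL {B : Type} [Ring B] {ι : Type} [DecidableEq ι] (d : ℕ) (x : ℕ → Matrix ι ι B) : Matrix (Fin d × ι) (Fin d × ι) B :=
  Matrix.of fun p q => if p.1.val = 0 then x q.1.val p.2 q.2 else if p = q then 1 else 0

/-- the part with `u`: `x_d` at `(0, d-1)`, `-1` at `(i, i-1)` -/
def bL {B : Type} [Ring B] {ι : Type} [DecidableEq ι] (d : ℕ) (x : ℕ → Matrix ι ι B) : Matrix (Fin d × ι) (Fin d × ι) B :=
  Matrix.of fun p q => if p.1.val = 0 then (if q.1.val + 1 = d then x d p.2 q.2 else 0) else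
    if q.1.val + 1 = p.1.val ∧ p.2 = q.2 then -1 else 0

/-! ## Coefficients -/

/-- ROW pv:ZC (medium). All claims hold for `a = io(b') u^n` (`u^k io(b) = io(al^k b) u^k` for `k : ℤ` by induction from `cov`), so on the span, and both sides are continuous in `a` (`cnorm`, `isoB`). `c_m(a) → 0`: finite sums, then `cnorm` (an `ε` argument). -/
def ZC_stmt : Prop := ∀ (B A : Type) [NormedRing B] [NormedAlgebra ℂ B] [CompleteSpace B] [NormedRing A] [NormedAlgebra ℂ A] [CompleteSpace A]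
  (al : B ≃ₐ[ℂ] B) (io : B →ₐ[ℂ] A) (u : Aˣ) (c : ℤ → A →ₗ[ℂ] B), ZPair al io u c →
  (∀ (k : ℤ) (b : B), ((u ^ k : Aˣ) : A) * io b = io ((al ^ k) b) * ((u ^ k : Aˣ) : A)) ∧
  (∀ (m : ℤ) (b : B) (a : A), c m (io b * a) = b * c m a) ∧ (∀ (m : ℤ) (b : B) (a : A), c m (a * io b) = c m a * (al ^ m) b) ∧
  (∀ (m k : ℤ) (a : A), c m (a * ((u ^ k : Aˣ) : A)) = c (m - k) a) ∧
  (∀ (m k : ℤ) (a : A), c m (((u ^ k : Aˣ) : A) * a) = (al ^ k) (c (m - k) a)) ∧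
  (∀ b : B, c 0 (io b) = b) ∧ ∀ a : A, Tendsto (fun m : ℤ => c m a) cofinite (𝓝 0)

/-- ROW pv:ZM (short-medium). Entrywise. `linftyOp` norm = maximal row sum. The monomial matrices span a dense subspace: approximate every entry; `single i j (io b u^n)` is `(single i j b).map io * uM^n`. (`κ` may be empty.) -/
def ZM_stmt : Prop := ∀ (B A : Type) [NormedRing B] [NormedAlgebra ℂ B] [CompleteSpace B] [NormedRing A] [NormedAlgebra ℂ A] [CompleteSpace A]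
  (al : B ≃ₐ[ℂ] B) (io : B →ₐ[ℂ] A) (u : Aˣ) (c : ℤ → A →ₗ[ℂ] B), ZPair al io u c → ∀ (κ : Type) [Fintype κ] [DecidableEq κ],
  ZPair (B := Matrix κ κ B) (A := Matrix κ κ A) al.mapMatrix io.mapMatrix (uM κ u) (fun n => (c n).mapMatrix)

/-! ## The q-lemma (abstract Z-pair; it is applied to matrices through ZM) -/

/-- ROW pv:QS (medium; from ZC). `r_n = c_n(L⁻¹)`. From `L L⁻¹ = 1`: `a r_n + b al(r_(n-1)) = δ_(n0)`; from `L⁻¹ L = 1`: `r_n al^n(a) + r_(n-1) al^(n-1)(b) = δ_(n0)`. `S(m,n) = r_m al^m(b) al^(m+1)(r_n)`. Compute `r_m al^m(a r_n)` in two ways: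
`δ_(m0) r_n - S(m-1,n) = δ_(n0) r_m - S(m,n-1)`. For fixed `N = m + n` the sequence `s_m = S(m, N-m)` satisfies `s_m - s_(m-1) = δ_(m,N+1) r_(N+1) - δ_(m,0) r_(N+1)` and tends to 0 for `m → ±∞` (`r_m → 0`, all factors bounded), so it is as claimed. -/
def QS_stmt : Prop := ∀ (B A : Type) [NormedRing B] [NormedAlgebra ℂ B] [CompleteSpace B] [NormedRing A] [NormedAlgebra ℂ A] [CompleteSpace A]
  (al : B ≃ₐ[ℂ] B) (io : B →ₐ[ℂ] A) (u : Aˣ) (c : ℤ → A →ₗ[ℂ] B), ZPair al io u c → ∀ (a b : B) (L : Aˣ), (L : A) = io a + io b * u →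
  (∀ n : ℤ, a * c n (L⁻¹ : Aˣ) + b * al (c (n - 1) (L⁻¹ : Aˣ)) = if n = 0 then 1 else 0) ∧
  (∀ n : ℤ, c n (L⁻¹ : Aˣ) * (al ^ n) a + c (n - 1) (L⁻¹ : Aˣ) * (al ^ (n - 1)) b = if n = 0 then 1 else 0) ∧
  ∀ m n : ℤ, c m (L⁻¹ : Aˣ) * (al ^ m) b * (al ^ (m + 1)) (c n (L⁻¹ : Aˣ)) =
    if m < 0 ∧ n < 0 then c (m + n + 1) (L⁻¹ : Aˣ) else if 0 ≤ m ∧ 0 ≤ n then - c (m + n + 1) (L⁻¹ : Aˣ) else 0

/-- the conclusions of the q-lemma: `r n = c_n(L⁻¹)`, `q = r_(-1) al⁻¹(b)`, `q' = b al(r_(-1))` -/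
structure QData {B : Type} [NormedRing B] [NormedAlgebra ℂ B] (al : B ≃ₐ[ℂ] B) (a b : B) (r : ℤ → B) (q q' : B) : Prop where
  hq : q = r (-1) * al.symm b
  hq' : q' = b * al (r (-1))
  qq : q * q = q
  qq' : q' * q' = q'
  r0a : r 0 * a = 1 - q
  ar0 : a * r 0 = 1 - q'
  aq : a * q = q' * a
  bq : b * al q = q' * b
  qn : ∀ n : ℤ, n < 0 → q * r n = r n
  qp : ∀ n : ℤ, 0 ≤ n → q * r n = 0
  nq : ∀ n : ℤ, n < 0 → r n * (al ^ n) q' = r n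
  pq : ∀ n : ℤ, 0 ≤ n → r n * (al ^ n) q' = 0
  q'n : q' * a * r (-1) = 0 - b * al (r (-2))

/-- ROW pv:QD (short-medium; from QS). `q r_n = S(-1, n)`, `r_n al^n(q') = S(n, -1)`; `q q = (q r_(-1)) al⁻¹(b)`, `q' q' = b al(r_(-1) al⁻¹(b) r_(-1)) = b al(q r_(-1))`; `r_0 a = 1 - r_(-1) al⁻¹(b)` and `a r_0 = 1 - q'` (QS, `n = 0`);
`a q = a r_(-1) al⁻¹(b) = -b al(r_(-2)) al⁻¹(b)`, `q' a = b al(r_(-1) al⁻¹(a)) = -b al(r_(-2) al⁻²(b))`; `b al(q) = b al(r_(-1)) b`. Last: `q' a = a q`, `q r_(-1) = r_(-1)`, `a r_(-1) = -b al(r_(-2))`. -/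
def QD_stmt : Prop := ∀ (B A : Type) [NormedRing B] [NormedAlgebra ℂ B] [CompleteSpace B] [NormedRing A] [NormedAlgebra ℂ A] [CompleteSpace A]
  (al : B ≃ₐ[ℂ] B) (io : B →ₐ[ℂ] A) (u : Aˣ) (c : ℤ → A →ₗ[ℂ] B), ZPair al io u c → ∀ (a b : B) (L : Aˣ), (L : A) = io a + io b * u →
  QData al a b (fun n => c n (L⁻¹ : Aˣ)) (c (-1) (L⁻¹ : Aˣ) * al.symm b) (b * al (c (-1) (L⁻¹ : Aˣ)))

/-- ROW pv:QPA (medium; from ZC, QS, QD). `L_s = (a + s b u)(1-q) + (s a + b u) q = (1-q')(a + s b u) + q'(s a + b u)`. For `0 ≤ s < 1`: `R_s = ∑_(n ≥ 0) s^n r_n u^n + ∑_(n < 0) s^(-n-1) r_n u^n` (absolutely convergent, `‖r_n‖ ≤ ‖L⁻¹‖`, `‖u^n‖ ≤ C`: `nu`, `nui`).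
`L_s R_s`: for `n ≥ 0` use `q r_n = 0`, so `L_s r_n u^n = (a + s b u) r_n u^n`: the sum telescopes to `a r_0 = 1 - q'`; for `n < 0` use `q r_n = r_n`: the sum is `b al(r_(-1)) = q'`. `R_s L_s`: the same with `r_n u^n q' = r_n al^n(q') u^n` and the second relation: `r_0 a + r_(-1) al⁻¹(b) = 1`. `s = 1`: `L_1 = L`. -/
def QPA_stmt : Prop := ∀ (B A : Type) [NormedRing B] [NormedAlgebra ℂ B] [CompleteSpace B] [NormedRing A] [NormedAlgebra ℂ A] [CompleteSpace A]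
  (al : B ≃ₐ[ℂ] B) (io : B →ₐ[ℂ] A) (u : Aˣ) (c : ℤ → A →ₗ[ℂ] B), ZPair al io u c → ∀ (a b : B) (L : Aˣ), (L : A) = io a + io b * u →
  ∀ s : ℝ, 0 ≤ s → s ≤ 1 → IsUnit ((io a + (s : ℂ) • (io b * u)) * (1 - io (c (-1) (L⁻¹ : Aˣ) * al.symm b)) +
    ((s : ℂ) • io a + io b * u) * io (c (-1) (L⁻¹ : Aˣ) * al.symm b))

/-! ## Matrix versions -/

/-- ROW pv:QDM (short; from ZM, QD). Instance of QD for the Z-pair of matrices (unfold `rL`, `qL`, `qL'`, `IsLin`; `mapMatrix` is `map`). -/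
def QDM_stmt : Prop := ∀ (B A : Type) [NormedRing B] [NormedAlgebra ℂ B] [CompleteSpace B] [NormedRing A] [NormedAlgebra ℂ A] [CompleteSpace A]
  (al : B ≃ₐ[ℂ] B) (io : B →ₐ[ℂ] A) (u : Aˣ) (c : ℤ → A →ₗ[ℂ] B), ZPair al io u c → ∀ (κ : Type) [Fintype κ] [DecidableEq κ]
  (a b : Matrix κ κ B) (L : (Matrix κ κ A)ˣ), IsLin io u a b L →
  QData (B := Matrix κ κ B) al.mapMatrix a b (rL c L) (qL al c b L) (qL' al c b L)

/-- ROW pv:QCL (short-medium; from QDM, K0P). `t ↦ (L t)⁻¹` is continuous (inversion is continuous on the units of a Banach algebra; `L t` is a continuous function of `t` by `hL`), so `q_t` is a continuous path of idempotents. -/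
def QCL_stmt : Prop := ∀ (B A : Type) [NormedRing B] [NormedAlgebra ℂ B] [CompleteSpace B] [NormedRing A] [NormedAlgebra ℂ A] [CompleteSpace A]
  (al : B ≃ₐ[ℂ] B) (io : B →ₐ[ℂ] A) (u : Aˣ) (c : ℤ → A →ₗ[ℂ] B), ZPair al io u c → ∀ (κ : Type) [Fintype κ] [DecidableEq κ]
  (a b : C(unitInterval, Matrix κ κ B)) (L : unitInterval → (Matrix κ κ A)ˣ), (∀ t, IsLin io u (a t) (b t) (L t)) →
  ∀ (h0 : qL al c (b 0) (L 0) * qL al c (b 0) (L 0) = qL al c (b 0) (L 0))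
    (h1 : qL al c (b 1) (L 1) * qL al c (b 1) (L 1) = qL al c (b 1) (L 1)),
  k0 (qL al c (b 0) (L 0)) h0 = k0 (qL al c (b 1) (L 1)) h1

/-- ROW pv:QOP (short-medium; from QDM, K0B, K0E, ZC). Block sums: `q` of `L ⊕ L'` is `q ⊕ q'`. Reindexing. Left multiplication by an invertible constant matrix `σ`: `(σL)⁻¹ = L⁻¹ σ⁻¹`, `r'_(-1) = r_(-1) al⁻¹(σ⁻¹)`, `q(σL) = q(L)`. `b = 0` gives `q = 0`; `L = u`: `a = 0`, `b = 1`, `q = 1`; `L = -u`: `b = -1`, `q = 1`. -/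
def QOP_stmt : Prop := ∀ (B A : Type) [NormedRing B] [NormedAlgebra ℂ B] [CompleteSpace B] [NormedRing A] [NormedAlgebra ℂ A] [CompleteSpace A]
  (al : B ≃ₐ[ℂ] B) (io : B →ₐ[ℂ] A) (u : Aˣ) (c : ℤ → A →ₗ[ℂ] B), ZPair al io u c → ∀ (κ κ' : Type) [Fintype κ] [DecidableEq κ] [Fintype κ'] [DecidableEq κ'],
  (∀ (b : Matrix κ κ B) (b' : Matrix κ' κ' B) (L : (Matrix κ κ A)ˣ) (L' : (Matrix κ' κ' A)ˣ) (K : (Matrix (κ ⊕ κ') (κ ⊕ κ') A)ˣ),
    (K : Matrix (κ ⊕ κ') (κ ⊕ κ') A) = Matrix.fromBlocks (L : Matrix κ κ A) 0 0 (L' : Matrix κ' κ' A) →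
    qL al c (Matrix.fromBlocks b 0 0 b') K = Matrix.fromBlocks (qL al c b L) 0 0 (qL al c b' L')) ∧
  (∀ (f : κ ≃ κ') (b : Matrix κ κ B) (L : (Matrix κ κ A)ˣ), qL al c (b.submatrix f.symm f.symm) (rix f L) =
    (qL al c b L).submatrix f.symm f.symm) ∧
  (∀ (b : Matrix κ κ B) (σ : (Matrix κ κ B)ˣ) (L : (Matrix κ κ A)ˣ), qL al c ((σ : Matrix κ κ B) * b) (umap io.toRingHom σ * L) = qL al c b L) ∧
  (∀ L : (Matrix κ κ A)ˣ, qL al c 0 L = 0) ∧ qL al c 1 (uM κ u) = 1 ∧ qL al c (-1) (-(uM κ u)) = 1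

/-! ## Linearisation -/

/-- ROW pv:LFA (medium; from K1M, K1T, K1R). `U = (u^(i-j))_(i ≥ j)` (lower triangular, blocks): `L U` has the rows `e_i` for `i ≥ 1` and first row `y_0 = X, y_1, .., y_(d-1)`, `y_i = ∑_(j=i)^d x_j u^(j-i)`. `U` is invertible with inverse `1 - u E_(i+1,i)` and joined to 1 (`s u` instead of `u`), so `[U] = 0`;
`[[X, y], [0, 1]]` is invertible with class `[X]` (reindex `Fin d × ι ≃ ι ⊕ ..`, K1T; or multiply by an explicit unipotent matrix). -/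
def LFA_stmt : Prop := ∀ (B A : Type) [NormedRing B] [NormedAlgebra ℂ B] [CompleteSpace B] [NormedRing A] [NormedAlgebra ℂ A] [CompleteSpace A]
  (al : B ≃ₐ[ℂ] B) (io : B →ₐ[ℂ] A) (u : Aˣ) (c : ℤ → A →ₗ[ℂ] B), ZPair al io u c → ∀ (ι : Type) [Fintype ι] [DecidableEq ι]
  (d : ℕ) (x : ℕ → Matrix ι ι B) (X : (Matrix ι ι A)ˣ), 1 ≤ d → (X : Matrix ι ι A) = pX io u x d →
  ∃ L : (Matrix (Fin d × ι) (Fin d × ι) A)ˣ, IsLin io u (aL d x) (bL d x) L ∧ k1 L = k1 X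

/-- ROW pv:QIN (medium; from QDM, ZC, K0E, K0S). Comparing coefficients in `L (P.map io) = (Q.map io) L`: `r_n al^n(Q) = P r_n`. `q P = r_(-1) al⁻¹(b) P = r_(-1) al⁻¹(b al P) = r_(-1) al⁻¹(Q b) = P q`, `q' Q = Q q'`. `P(1-q) = (P r_0)(a)`, `Q(1-q') = a (P r_0)`; `P q = (P r_(-1)) (al⁻¹ b)`-pair with
`al⁻¹(Q q') = (al⁻¹ b)(P r_(-1))`. So `[P] - [Q] = [P q] - [Q q'] = al⁻¹_*[Q q'] - [Q q']`; `w = al⁻¹_*[Q q']`: `[P] - [Q] = w - al_* w`. (For K0E make `x = e x f`.) -/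
def QIN_stmt : Prop := ∀ (B A : Type) [NormedRing B] [NormedAlgebra ℂ B] [CompleteSpace B] [NormedRing A] [NormedAlgebra ℂ A] [CompleteSpace A]
  (al : B ≃ₐ[ℂ] B) (io : B →ₐ[ℂ] A) (u : Aˣ) (c : ℤ → A →ₗ[ℂ] B), ZPair al io u c → ∀ (κ : Type) [Fintype κ] [DecidableEq κ]
  (a b : Matrix κ κ B) (L : (Matrix κ κ A)ˣ) (P Q : Matrix κ κ B) (hP : P * P = P) (hQ : Q * Q = Q), IsLin io u a b L → a * P = Q * a →
  b * P.map al = Q * b → ∃ w : K0 B, k0 P hP - k0 Q hQ = w - k0a al w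

/-- ROW pv:LPO (medium; from LFA, QIN, K0B, FUN). `L` of LFA, `P^ = diag(P, al P, .., al^(d-1) P)`, `Q^ = diag(Q, al P, .., al^(d-1) P)` over `Fin d × ι`: `aL P^ = Q^ aL`, `bL al(P^) = Q^ bL` (entries: `x_j al^j(P) = Q x_j`). `[P^] - [Q^] = [P] - [Q]` (block diagonal: `K0B`, induction on `d`, or orthogonal sums K0S). `d = 0`: use `d = 1` with `x_1 = 0`. -/
def LPO_stmt : Prop := ∀ (B A : Type) [NormedRing B] [NormedAlgebra ℂ B] [CompleteSpace B] [NormedRing A] [NormedAlgebra ℂ A] [CompleteSpace A]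
  (al : B ≃ₐ[ℂ] B) (io : B →ₐ[ℂ] A) (u : Aˣ) (c : ℤ → A →ₗ[ℂ] B), ZPair al io u c → ∀ (ι : Type) [Fintype ι] [DecidableEq ι]
  (d : ℕ) (x : ℕ → Matrix ι ι B) (X : (Matrix ι ι A)ˣ) (P Q : Matrix ι ι B) (hP : P * P = P) (hQ : Q * Q = Q), 1 ≤ d →
  (X : Matrix ι ι A) = pX io u x d → (∀ k, x k * P.map (al ^ k : B ≃ₐ[ℂ] B) = Q * x k) → ∃ w : K0 B, k0 P hP - k0 Q hQ = w - k0a al w

/-- ROW pv:APX (short-medium; from ZM). The matrices of Laurent polynomials are dense: for `g` and `ε > 0` there are `N`, `d = 2N` (or larger), `x` with `‖g - pX x d u^(-N)‖ < ε`. -/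
def APX_stmt : Prop := ∀ (B A : Type) [NormedRing B] [NormedAlgebra ℂ B] [CompleteSpace B] [NormedRing A] [NormedAlgebra ℂ A] [CompleteSpace A]
  (al : B ≃ₐ[ℂ] B) (io : B →ₐ[ℂ] A) (u : Aˣ) (c : ℤ → A →ₗ[ℂ] B), ZPair al io u c → ∀ (ι : Type) [Fintype ι] [DecidableEq ι]
  (g : Matrix ι ι A) (ε : ℝ), 0 < ε → ∃ (N d : ℕ) (x : ℕ → Matrix ι ι B), 1 ≤ d ∧ (∀ k, d < k → x k = 0) ∧
    ‖g - pX io u x d * ((uM ι u ^ (-(N : ℤ)) : (Matrix ι ι A)ˣ) : Matrix ι ι A)‖ < ε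

/-- ROW pv:T1 (medium; from K0G, K0B, K0C, K0D, K0E, APX, LPO, ZC, FUN). `z = [P] - m[1]`, `P` over `Fin n`; enlarge so that `Q = 1_m ⊕ 0` has the same size. K0C over `A`: `g (pad P) = (pad Q) g`; write `P`, `Q` for the padded matrices (over `B`). Approximate `g` by a Laurent polynomial `g₀`; `g₁ = Q g₀ P + (1-Q) g₀ (1-P)` is a Laurent polynomial, close to
`Q g P + (1-Q) g (1-P) = g`, so invertible, and `g₁ P = Q g₁`. `X = g₁ u^N` is a polynomial, `X al^(-N)(P) = Q X`, i.e. `x_k al^k(P') = Q x_k` with `P' = al^(-N)(P)` (coefficients, ZC). LPO: `[P'] - [Q] ∈ (1 - al)K₀`, and `[P] - [P'] = v - al^(-N) v`, a telescoping sum. -/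
def T1_stmt : Prop := ∀ (B A : Type) [NormedRing B] [NormedAlgebra ℂ B] [CompleteSpace B] [NormedRing A] [NormedAlgebra ℂ A] [CompleteSpace A]
  (al : B ≃ₐ[ℂ] B) (io : B →ₐ[ℂ] A) (u : Aˣ) (c : ℤ → A →ₗ[ℂ] B), ZPair al io u c → ∀ z : K0 B, k0map io.toRingHom z = 0 → ∃ w : K0 B, z = w - k0a al w

/-- ROW pv:T1C (short; from K0G, K0E, K1G, K1M, FUN). `io(al e) = u io(e) u⁻¹` entrywise: `x = u io(e)`, `y = io(e) u⁻¹`; the same for invertible matrices. -/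
def T1C_stmt : Prop := ∀ (B A : Type) [NormedRing B] [NormedAlgebra ℂ B] [CompleteSpace B] [NormedRing A] [NormedAlgebra ℂ A] [CompleteSpace A]
  (al : B ≃ₐ[ℂ] B) (io : B →ₐ[ℂ] A) (u : Aˣ) (c : ℤ → A →ₗ[ℂ] B), ZPair al io u c → (∀ z : K0 B, k0map io.toRingHom (k0a al z) = k0map io.toRingHom z) ∧
  ∀ (ha : Continuous (al : B →ₐ[ℂ] B).toRingHom) (hi : Continuous io.toRingHom) (z : K1 B),
    k1map io.toRingHom hi (k1a al ha z) = k1map io.toRingHom hi z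

/-! ## The index -/

/-- ROW pv:PAD (medium; from QDM, QCL, QOP, K0B, K0E, LFA). `x_(d+1) = 0`. `L_(d+1) = E' (L_d ⊕ 1) E`, `E' = 1 + x_d E_(0,d)` (constant), `E = 1 - u E_(d,d-1)`, and `(L_d ⊕ 1)(1 - s u E_(d,d-1)) = L_d ⊕ 1 - s u E_(d,d-1)` is linear in `u`. The path `E'_s (L_d ⊕ 1 - s u E_(d,d-1))`, `E'_s = 1 + s x_d E_(0,d)`, joins `L_(d+1)` to `L_d ⊕ 1`:
QCL, QOP (`Fin (d+1) × ι ≃ (Fin d × ι) ⊕ ι`; the block `1` has `b = 0`, `q = 0`). -/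
def PAD_stmt : Prop := ∀ (B A : Type) [NormedRing B] [NormedAlgebra ℂ B] [CompleteSpace B] [NormedRing A] [NormedAlgebra ℂ A] [CompleteSpace A]
  (al : B ≃ₐ[ℂ] B) (io : B →ₐ[ℂ] A) (u : Aˣ) (c : ℤ → A →ₗ[ℂ] B), ZPair al io u c → ∀ (ι : Type) [Fintype ι] [DecidableEq ι]
  (d : ℕ) (x : ℕ → Matrix ι ι B), 1 ≤ d → x (d + 1) = 0 → ∀ (L : (Matrix (Fin d × ι) (Fin d × ι) A)ˣ)
  (L' : (Matrix (Fin (d + 1) × ι) (Fin (d + 1) × ι) A)ˣ), IsLin io u (aL d x) (bL d x) L → IsLin io u (aL (d + 1) x) (bL (d + 1) x) L' →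
  ∀ (h : qL al c (bL d x) L * qL al c (bL d x) L = qL al c (bL d x) L)
    (h' : qL al c (bL (d + 1) x) L' * qL al c (bL (d + 1) x) L' = qL al c (bL (d + 1) x) L'),
  k0 (qL al c (bL (d + 1) x) L') h' = k0 (qL al c (bL d x) L) h

/-- the coefficients of `X u` -/
def shx {B : Type} [Ring B] {ι : Type} (x : ℕ → Matrix ι ι B) : ℕ → Matrix ι ι B
  | 0 => 0
  | k + 1 => x k

/-- ROW pv:SHF (medium; from QDM, QCL, QOP, K0B, K0E). `L_(d+1)(X u)`: column 0 is `(0, -u, 0, ..)`. Remove row 1 and column 0: the rest is `L_d(X)`. So after a row permutation (a constant invertible `σ`, `q(σL) = q(L)`) it is `[[-u, (1,0,..,0)], [0, L_d(X)]]`; the path `[[-u, s(1,0,..)], [0, L_d]]` is linear in `u` and invertible; `q(-u) = 1`. -/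
def SHF_stmt : Prop := ∀ (B A : Type) [NormedRing B] [NormedAlgebra ℂ B] [CompleteSpace B] [NormedRing A] [NormedAlgebra ℂ A] [CompleteSpace A]
  (al : B ≃ₐ[ℂ] B) (io : B →ₐ[ℂ] A) (u : Aˣ) (c : ℤ → A →ₗ[ℂ] B), ZPair al io u c → ∀ (ι : Type) [Fintype ι] [DecidableEq ι]
  (d : ℕ) (x : ℕ → Matrix ι ι B), 1 ≤ d → ∀ (L : (Matrix (Fin d × ι) (Fin d × ι) A)ˣ)
  (L' : (Matrix (Fin (d + 1) × ι) (Fin (d + 1) × ι) A)ˣ), IsLin io u (aL d x) (bL d x) L → IsLin io u (aL (d + 1) (shx x)) (bL (d + 1) (shx x)) L' →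
  ∀ (h : qL al c (bL d x) L * qL al c (bL d x) L = qL al c (bL d x) L)
    (h' : qL al c (bL (d + 1) (shx x)) L' * qL al c (bL (d + 1) (shx x)) L' = qL al c (bL (d + 1) (shx x)) L'),
  k0 (qL al c (bL (d + 1) (shx x)) L') h' = k0 (qL al c (bL d x) L) h + Fintype.card ι • unitCls B

/-- `z` is the index of `g`: `X = pX x d` with `X u^(-N)` close to `g`, `z = [q(L_d(x))] - N |ι| [1]` -/
def IsInd {B A : Type} [NormedRing B] [NormedAlgebra ℂ B] [NormedRing A] [NormedAlgebra ℂ A] (al : B ≃ₐ[ℂ] B) (io : B →ₐ[ℂ] A) (u : Aˣ)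
    (c : ℤ → A →ₗ[ℂ] B) {ι : Type} [Fintype ι] [DecidableEq ι] (g : (Matrix ι ι A)ˣ) (z : K0 B) : Prop :=
  ∃ (N d : ℕ) (x : ℕ → Matrix ι ι B) (L : (Matrix (Fin d × ι) (Fin d × ι) A)ˣ)
    (h : qL al c (bL d x) L * qL al c (bL d x) L = qL al c (bL d x) L), 1 ≤ d ∧ (∀ k, d < k → x k = 0) ∧
    ‖1 - ((g⁻¹ : (Matrix ι ι A)ˣ) : Matrix ι ι A) * (pX io u x d * ((uM ι u ^ (-(N : ℤ)) : (Matrix ι ι A)ˣ) : Matrix ι ι A))‖ < 1 ∧
    IsLin io u (aL d x) (bL d x) L ∧ z = k0 (qL al c (bL d x) L) h - (N * Fintype.card ι) • unitCls B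

/-- ROW pv:INE (short-medium; from APX, LFA, QDM). APX with small `ε`; `X u^(-N) = g (1 - (1 - g⁻¹ X u^(-N)))` is invertible, so `X` is; LFA; `q² = q` by QDM. -/
def INE_stmt : Prop := ∀ (B A : Type) [NormedRing B] [NormedAlgebra ℂ B] [CompleteSpace B] [NormedRing A] [NormedAlgebra ℂ A] [CompleteSpace A]
  (al : B ≃ₐ[ℂ] B) (io : B →ₐ[ℂ] A) (u : Aˣ) (c : ℤ → A →ₗ[ℂ] B), ZPair al io u c → ∀ (ι : Type) [Fintype ι] [DecidableEq ι]
  (g : (Matrix ι ι A)ˣ), ∃ z, IsInd al io u c g z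

/-- ROW pv:INU (medium; from PAD, SHF, QCL, QDM, LFA). Two data `(N,d,x)`, `(N',d',x')` for `g` and for a nearby `g'`. Replacing `(N, d, x)` by `(N+1, d+1, shx x)` or `(N, d+1, x)` changes neither `X u^(-N)` nor `z` (SHF, PAD; the new `L` exists by LFA). So `N = N'`, `d = d'`. The segment `x_s = (1-s) x + s x'`:
`‖1 - g⁻¹ X_s u^(-N)‖ < 1` (convexity), so `X_s` is invertible, `L_d(x_s)` is a path as in QCL. Second claim (local constancy): if `‖1 - g⁻¹ g'‖` is small then one `X u^(-N)` is close to both `g` and `g'`; a path is compact. So `Htp g g'` implies the same index: cut the path in small pieces. -/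
def INU_stmt : Prop := ∀ (B A : Type) [NormedRing B] [NormedAlgebra ℂ B] [CompleteSpace B] [NormedRing A] [NormedAlgebra ℂ A] [CompleteSpace A]
  (al : B ≃ₐ[ℂ] B) (io : B →ₐ[ℂ] A) (u : Aˣ) (c : ℤ → A →ₗ[ℂ] B), ZPair al io u c → ∀ (ι : Type) [Fintype ι] [DecidableEq ι]
  (g : (Matrix ι ι A)ˣ) (z z' : K0 B), IsInd al io u c g z → IsInd al io u c g z' → z = z'

/-- ROW pv:INH (medium; from INE, INU, APX, LFA, QDM). Homotopy invariance, see INU. -/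
def INH_stmt : Prop := ∀ (B A : Type) [NormedRing B] [NormedAlgebra ℂ B] [CompleteSpace B] [NormedRing A] [NormedAlgebra ℂ A] [CompleteSpace A]
  (al : B ≃ₐ[ℂ] B) (io : B →ₐ[ℂ] A) (u : Aˣ) (c : ℤ → A →ₗ[ℂ] B), ZPair al io u c → ∀ (ι : Type) [Fintype ι] [DecidableEq ι]
  (g g' : (Matrix ι ι A)ˣ) (z : K0 B), Htp g g' → IsInd al io u c g z → IsInd al io u c g' z

/-- ROW pv:INB (medium; from INE, INU, PAD, SHF, QOP, QDM, K0B, K0E, LFA). Block sums: same `N`, `d` (PAD, SHF); `L_d(x ⊕ x')` is `L_d(x) ⊕ L_d(x')` after `Fin d × (ι ⊕ κ) ≃ Fin d × ι ⊕ Fin d × κ`. Reindexing: clear. -/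
def INB_stmt : Prop := ∀ (B A : Type) [NormedRing B] [NormedAlgebra ℂ B] [CompleteSpace B] [NormedRing A] [NormedAlgebra ℂ A] [CompleteSpace A]
  (al : B ≃ₐ[ℂ] B) (io : B →ₐ[ℂ] A) (u : Aˣ) (c : ℤ → A →ₗ[ℂ] B), ZPair al io u c → ∀ (ι κ : Type) [Fintype ι] [DecidableEq ι] [Fintype κ] [DecidableEq κ],
  (∀ (g : (Matrix ι ι A)ˣ) (h : (Matrix κ κ A)ˣ) (k : (Matrix (ι ⊕ κ) (ι ⊕ κ) A)ˣ) (z w : K0 B),
    (k : Matrix (ι ⊕ κ) (ι ⊕ κ) A) = Matrix.fromBlocks (g : Matrix ι ι A) 0 0 (h : Matrix κ κ A) →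
    IsInd al io u c g z → IsInd al io u c h w → IsInd al io u c k (z + w)) ∧
  ∀ (f : ι ≃ κ) (g : (Matrix ι ι A)ˣ) (z : K0 B), IsInd al io u c g z → IsInd al io u c (rix f g) z

/-- ROW pv:IN0 (short-medium; from QOP, QDM, ZC, K0E). Constants: `N = 0`, `d = 1`, `x_0 = g`, `x_1 = 0`: `L = g` (over `Fin 1 × ι`), `b = 0`, `q = 0`. `u`: `N = 0`, `d = 1`, `x_0 = 0`, `x_1 = 1`, `q = 1`. `v = w u + 1 - P` with `w = P w`, `w al(P) = w`, `w w' = P`, `w' w = al P`: `d = 1`, `x_0 = 1 - P`, `x_1 = w`; `v⁻¹ = 1 - P + u⁻¹ w'`, `r_(-1) = al⁻¹(w')`, `q = al⁻¹(w' w) = P`.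
Third claim: every IsInd value is fixed by `al`: QDM: `[1] = [q] + [r_0 a] = [q] + [a r_0] = [q] + [1] - [q']`, so `[q] = [q']`, and `q = r_(-1) (al⁻¹ b) ~ (al⁻¹ b) r_(-1) = al⁻¹(q')`. -/
def IN0_stmt : Prop := ∀ (B A : Type) [NormedRing B] [NormedAlgebra ℂ B] [CompleteSpace B] [NormedRing A] [NormedAlgebra ℂ A] [CompleteSpace A]
  (al : B ≃ₐ[ℂ] B) (io : B →ₐ[ℂ] A) (u : Aˣ) (c : ℤ → A →ₗ[ℂ] B), ZPair al io u c → ∀ (ι : Type) [Fintype ι] [DecidableEq ι],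
  (∀ g : (Matrix ι ι B)ˣ, IsInd al io u c (umap io.toRingHom g) 0) ∧ IsInd al io u c (uM ι u) (Fintype.card ι • unitCls B) ∧
  ∀ (P w w' : Matrix ι ι B) (hP : P * P = P) (v : (Matrix ι ι A)ˣ), P * w = w → w * P.map al = w → w * w' = P → w' * w = P.map al →
    (v : Matrix ι ι A) = w.map io * (uM ι u : Matrix ι ι A) + (1 - P.map io) → IsInd al io u c v (k0 P hP)

/-- ROW pv:INA (short-medium; from QDM, K0E, K0S, K0B, FUN). The third claim of the docstring of IN0: the index is `al`-invariant. -/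
def INA_stmt : Prop := ∀ (B A : Type) [NormedRing B] [NormedAlgebra ℂ B] [CompleteSpace B] [NormedRing A] [NormedAlgebra ℂ A] [CompleteSpace A]
  (al : B ≃ₐ[ℂ] B) (io : B →ₐ[ℂ] A) (u : Aˣ) (c : ℤ → A →ₗ[ℂ] B), ZPair al io u c → ∀ (ι : Type) [Fintype ι] [DecidableEq ι]
  (g : (Matrix ι ι A)ˣ) (z : K0 B), IsInd al io u c g z → k0a al z = z

/-- `d1` is the index map -/
def IsD1 {B A : Type} [NormedRing B] [NormedAlgebra ℂ B] [NormedRing A] [NormedAlgebra ℂ A] (al : B ≃ₐ[ℂ] B) (io : B →ₐ[ℂ] A) (u : Aˣ)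
    (c : ℤ → A →ₗ[ℂ] B) (d1 : K1 A →+ K0 B) : Prop :=
  ∀ (ι : Type) [Fintype ι] [DecidableEq ι] (g : (Matrix ι ι A)ˣ) (z : K0 B), IsInd al io u c g z → d1 (k1 g) = z

/-- ROW pv:D1E (medium; from INE, INU, INH, INB, IN0, ROT, K1R). Define on generators by choice (INE, INU) and extend; relations: product: `(g h) ⊕ 1` and `g ⊕ h` are joined (`h ⊕ 1 = (1 ⊕ h)(h ⊕ h⁻¹)` and ROT), INB, INH, IN0 (index of 1 is 0), INU; block sum: INB (`dsum` is a reindexing of `fromBlocks`); homotopy: INH. For arbitrary `ι`: INB (reindexing). -/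
def D1E_stmt : Prop := ∀ (B A : Type) [NormedRing B] [NormedAlgebra ℂ B] [CompleteSpace B] [NormedRing A] [NormedAlgebra ℂ A] [CompleteSpace A]
  (al : B ≃ₐ[ℂ] B) (io : B →ₐ[ℂ] A) (u : Aˣ) (c : ℤ → A →ₗ[ℂ] B), ZPair al io u c → ∃ d1 : K1 A →+ K0 B, IsD1 al io u c d1

/-- ROW pv:D1N (medium; from INE, K1G, QDM). Naturality: if `(N, d, x)` is a datum for `g` with `X u^(-N)` close enough to `g` (use INE-type approximation with `ε` small) then `(N, d, f(x))` is one for `F(g)`; `F(L)⁻¹` has the coefficients `f(r_n)`: `c'_n(F a) = f(c_n a)` holds for monomials and by continuity. `q` is mapped to `q`. -/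
def D1N_stmt : Prop := ∀ (B A B' A' : Type) [NormedRing B] [NormedAlgebra ℂ B] [CompleteSpace B] [NormedRing A] [NormedAlgebra ℂ A] [CompleteSpace A]
  [NormedRing B'] [NormedAlgebra ℂ B'] [CompleteSpace B'] [NormedRing A'] [NormedAlgebra ℂ A'] [CompleteSpace A']
  (al : B ≃ₐ[ℂ] B) (io : B →ₐ[ℂ] A) (u : Aˣ) (c : ℤ → A →ₗ[ℂ] B) (al' : B' ≃ₐ[ℂ] B') (io' : B' →ₐ[ℂ] A') (u' : A'ˣ) (c' : ℤ → A' →ₗ[ℂ] B')
  (f : B →ₐ[ℂ] B') (F : A →ₐ[ℂ] A') (hF : Continuous F.toRingHom), ZPair al io u c → ZPair al' io' u' c' → ZMap al io u al' io' u' f F →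
  ∀ (d1 : K1 A →+ K0 B) (d1' : K1 A' →+ K0 B'), IsD1 al io u c d1 → IsD1 al' io' u' c' d1' →
  ∀ y : K1 A, k0map f.toRingHom (d1 y) = d1' (k1map F.toRingHom hF y)

/-- ROW pv:KRA (medium; from QDM, QPA, ZM, K1M, K1T, K1B). `s : κ × M`, `s' : M × κ` over `B`, `s s' = q`, `s' s = 1_M`. QPA (for matrices): `L` is joined to `L_0 = a(1-q) + b al(q) u`. `s₂ = b al(s)`, `s₂' = al(s' r_(-1))`: `s₂ s₂' = b al(q r_(-1)) = q'`, `s₂' s₂ = al(s' q s) = 1`. `C = a(1-q) + s₂ s'` is invertible over `B` with inverse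
`r_0 (1-q') + s s₂'` (`a(1-q) = (1-q')a`, `r_0 a = 1-q`, `a r_0 = 1-q'`, `q r_0 = 0`). `L_0 = C ((1-q) + s u s')` and `[(1-q) + s u s'] = [u 1_M] = M [u]` (K1T transport with `e = q`, `f = 1`). -/
def KRA_stmt : Prop := ∀ (B A : Type) [NormedRing B] [NormedAlgebra ℂ B] [CompleteSpace B] [NormedRing A] [NormedAlgebra ℂ A] [CompleteSpace A]
  (al : B ≃ₐ[ℂ] B) (io : B →ₐ[ℂ] A) (u : Aˣ) (c : ℤ → A →ₗ[ℂ] B) (hi : Continuous io.toRingHom), ZPair al io u c →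
  ∀ (κ : Type) [Fintype κ] [DecidableEq κ] (a b : Matrix κ κ B) (L : (Matrix κ κ A)ˣ) (M : ℕ) (s : Matrix κ (Fin M) B)
  (s' : Matrix (Fin M) κ B), IsLin io u a b L → s * s' = qL al c b L → s' * s = 1 →
  ∃ y : K1 B, k1 L = k1map io.toRingHom hi y + M • k1 (uM Unit u)

/-- ROW pv:D1K (medium; from INE, KRA, LFA, QOP, QDM, K0Q, K0B, K1M, K1B, K1G, K1R, K1C). `y = [g]`, IsInd `g 0` (by IsD1 and INE): `[q] = N |ι| [1]`, so `q ⊕ 1_k` is equivalent to `1_M`, `M = N|ι| + k` (K0Q, after reindexing; `x y = q ⊕ 1_k ⊕ 1_j`). `L' = L ⊕ u 1_k` is linear with `q(L') = q ⊕ 1_k` (QOP). KRA: `[L'] = io_* y' + M [u]`, `[L'] = [L] + k [u]`,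
`[L] = [X]` (LFA; the `L` with given `aL`, `bL` is unique), `[X] = [g] + N |ι| [u]` (`X u^(-N)` is joined to `g`). -/
def D1K_stmt : Prop := ∀ (B A : Type) [NormedRing B] [NormedAlgebra ℂ B] [CompleteSpace B] [NormedRing A] [NormedAlgebra ℂ A] [CompleteSpace A]
  (al : B ≃ₐ[ℂ] B) (io : B →ₐ[ℂ] A) (u : Aˣ) (c : ℤ → A →ₗ[ℂ] B) (hi : Continuous io.toRingHom), ZPair al io u c →
  ∀ d1 : K1 A →+ K0 B, IsD1 al io u c d1 → ∀ y : K1 A, d1 y = 0 → ∃ y' : K1 B, y = k1map io.toRingHom hi y'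

/-- ROW pv:D1P (medium; from INE, INA, IN0, K0G, K0C, K0D, K0B, K1G, K1M, K1B, FUN). `d1` kills constants and is `al`-invariant (IN0, INA, K1G). Image: `al_* z = z`, `z = [P] - m [1]`, `[al P] = [P]`: K0C: `g (pad (al P)) = (pad P) g` over `B`, replace `P` by `pad P` (`z` changes by a multiple of `[1]`): `w = g al(P)`, `w' = al(P) g⁻¹`: `w w' = P`, `w' w = al P`, `P w = w`. `v = w u + 1 - P` is invertible
(`v⁻¹ = 1 - P + u⁻¹ w'`), IN0: `d1 [v] = [P]`; `d1 [u] = [1]`. -/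
def D1P_stmt : Prop := ∀ (B A : Type) [NormedRing B] [NormedAlgebra ℂ B] [CompleteSpace B] [NormedRing A] [NormedAlgebra ℂ A] [CompleteSpace A]
  (al : B ≃ₐ[ℂ] B) (io : B →ₐ[ℂ] A) (u : Aˣ) (c : ℤ → A →ₗ[ℂ] B) (hi : Continuous io.toRingHom), ZPair al io u c →
  ∀ d1 : K1 A →+ K0 B, IsD1 al io u c d1 → (∀ y : K1 B, d1 (k1map io.toRingHom hi y) = 0) ∧ (∀ y : K1 A, k0a al (d1 y) = d1 y) ∧
  (∀ z : K0 B, k0a al z = z → ∃ y : K1 A, d1 y = z) ∧ d1 (k1 (uM Unit u)) = unitCls B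

end Pool.Agent.PV
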