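import Pool.Agent.helper77.PV.SpecB

/-!
# Project pv (MP_376aaf_an), block C: loops, Bott periodicity, holonomy, the Pimsner-Voiculescu sequence. Rows pv:*

RULES as in SpecA. `import Pool.Agent.helper77.PV.SpecC`, `namespace Pool.Agent.PV`.
The circle is `UnitAddCircle`; `cl B` = constant loops, `el B` = evaluation at 0 (Iface.lean).
-/

set_option autoImplicit false

open scoped Matrix Topology
open Filter

namespace Pool.Agent.PV

open Pool.Agent.CZ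

/-- `be[e] = [z e + 1 - e]` -/
def IsBe (B : Type) [NormedRing B] [NormedAlgebra ℂ B] (be : K0 B →+ K1 C(UnitAddCircle, B)) : Prop :=
  ∀ (ι : Type) [Fintype ι] [DecidableEq ι] (e : Matrix ι ι B) (he : e * e = e)
    (g : (Matrix ι ι C(UnitAddCircle, B))ˣ), (g : Matrix ι ι C(UnitAddCircle, B)) =
      zl B • e.map (cl B) + (1 - e.map (cl B)) → be (k0 e he) = k1 g

/-- `de[E]` is the class of the holonomy -/
def IsDe (B : Type) [NormedRing B] [NormedAlgebra ℂ B] (de : K0 C(UnitAddCircle, B) →+ K1 B) : Prop :=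
  ∀ (ι : Type) [Fintype ι] [DecidableEq ι] (E : Matrix ι ι C(UnitAddCircle, B)) (hE : E * E = E)
    (V V' : C(unitInterval, Matrix ι ι B)) (g : (Matrix ι ι B)ˣ), Hol E V V' →
    (g : Matrix ι ι B) = V 1 + (1 - evM E 0) → de (k0 E hE) = k1 g

/-- the automorphism of the loop algebra -/
noncomputable def lal {B : Type} [NormedRing B] [NormedAlgebra ℂ B] (al : B ≃ₐ[ℂ] B) (h : Continuous (al : B →ₐ[ℂ] B))
    (h' : Continuous (al.symm : B →ₐ[ℂ] B)) : C(UnitAddCircle, B) ≃ₐ[ℂ] C(UnitAddCircle, B) :=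
  AlgEquiv.ofAlgHom (cmpC UnitAddCircle (al : B →ₐ[ℂ] B) h) (cmpC UnitAddCircle (al.symm : B →ₐ[ℂ] B) h')
    (by ext f t; exact al.apply_symm_apply (f t)) (by ext f t; exact al.symm_apply_apply (f t))

/-- the constant loop `u` -/
def lu {A : Type} [NormedRing A] [NormedAlgebra ℂ A] (u : Aˣ) : (C(UnitAddCircle, A))ˣ :=
  Units.map ((cl A).toRingHom : A →* C(UnitAddCircle, A)) u

/-! ## Two Z-pairs -/

/-- ROW pv:ZLP (medium; from ZC). `cc n f = c n ∘ f` (`c n` is continuous by `cnorm`). Sup norms. Density: partition of unity on the circle: `f` is close to `∑ φ_i f(t_i)`, `f(t_i)` is close to a finite sum of `io(b) u^k`, and `φ io(b) u^k = lio(φ b) lu^k`. -/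
def ZLP_stmt : Prop := ∀ (B A : Type) [NormedRing B] [NormedAlgebra ℂ B] [CompleteSpace B] [NormedRing A] [NormedAlgebra ℂ A] [CompleteSpace A]
  (al : B ≃ₐ[ℂ] B) (io : B →ₐ[ℂ] A) (u : Aˣ) (c : ℤ → A →ₗ[ℂ] B) (h : Continuous (al : B →ₐ[ℂ] B)) (h' : Continuous (al.symm : B →ₐ[ℂ] B))
  (hi : Continuous io), ZPair al io u c → ∃ cc : ℤ → C(UnitAddCircle, A) →ₗ[ℂ] C(UnitAddCircle, B),
    ZPair (lal al h h') (cmpC UnitAddCircle io hi) (lu u) cc ∧ ∀ n f t, cc n f t = c n (f t)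

/-- ROW pv:BZP (medium). `c n f = fourierCoeff f n` (Bochner integral of `fourier (-n) t • f t`; linear, norm `≤ ‖f‖`, Haar probability measure); `fourierCoeff` of `t ↦ b * z^k(t)` is `b` for `n = k` and 0 otherwise (`fourierCoeff_fourier`, pull out `b` with `integral_smul_const`). Density: `f` is close to `∑ φ_i b_i` (partition of unity), and `φ_i` is close to a trigonometric
polynomial (`span_fourier_closure_eq_top`). `(zU B)^n` is `t ↦ fourier n t • 1`. -/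
def BZP_stmt : Prop := ∀ (B : Type) [NormedRing B] [NormedAlgebra ℂ B] [CompleteSpace B],
  ∃ c : ℤ → C(UnitAddCircle, B) →ₗ[ℂ] B, ZPair (AlgEquiv.refl : B ≃ₐ[ℂ] B) (cl B) (zU B) c

/-! ## Bott -/

/-- ROW pv:BET (medium; from K1T, K1M, K1B, K1R). Define on generators: `z e + 1 - e` has the inverse `z⁻¹ e + 1 - e`. Relation (1): K1T transport over `C(circle, B)` with `v = z e` (`x`, `y` replaced by `e x f`, `f y e`, constant loops): `y (z e) x = z f`. Relation (2): `(z e + 1 - e)(z f + 1 - f) = z (e + f) + 1 - e - f` if `e f = f e = 0`. Arbitrary index types: K1R. -/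
def BET_stmt : Prop := ∀ (B : Type) [NormedRing B] [NormedAlgebra ℂ B] [CompleteSpace B], ∃ be : K0 B →+ K1 C(UnitAddCircle, B), IsBe B be

/-- ROW pv:BEN (short-medium; from K0G, FUN, BET). Naturality of `be` (check on the classes `[e]`; the unit `g` of BET exists for each `e`), and `el_* be = 0` (`z(0) = 1`). -/
def BEN_stmt : Prop := (∀ (B D : Type) [NormedRing B] [NormedAlgebra ℂ B] [CompleteSpace B] [NormedRing D] [NormedAlgebra ℂ D] [CompleteSpace D]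
  (φ : B →ₐ[ℂ] D) (hφ : Continuous φ) (be : K0 B →+ K1 C(UnitAddCircle, B)) (be' : K0 D →+ K1 C(UnitAddCircle, D)) (hc : Continuous (cmpC UnitAddCircle φ hφ).toRingHom),
  IsBe B be → IsBe D be' → ∀ z, k1map (cmpC UnitAddCircle φ hφ).toRingHom hc (be z) = be' (k0map φ.toRingHom z)) ∧
  ∀ (B : Type) [NormedRing B] [NormedAlgebra ℂ B] [CompleteSpace B] (be : K0 B →+ K1 C(UnitAddCircle, B)), IsBe B be →
    ∀ z, k1map (el B).toRingHom (el_cont B) (be z) = 0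

/-- ROW pv:BOT (medium; from BZP, BET, BEN, D1E, D1K, D1P, IN0, K0G, FUN). `d` = index map of the Z-pair BZP. IN0 with `al = id`, `w = w' = P`: the index of `P z + 1 - P` is `[P]`, so `d be = 1`. D1P: `d` kills constant loops. `y - be(d y) ∈ ker d`, so it is `cl_* w` (D1K); apply `el_*` (`el_* cl_* = 1`, `el_* be = 0`): `w = el_* y`. -/
def BOTR_stmt : Prop := BOT_stmt

/-! ## Holonomy -/

/-- ROW pv:LPC (short-medium). A path with equal ends is a loop: entrywise; `h : C(unitInterval, B)`, `h 0 = h 1`: `AddCircle.liftIco` / `AddCircle.homeoIccQuot` / `AddCircle.liftIco_continuous` with `h` extended to `ℝ` (`Set.IccExtend`). -/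
def LPC_stmt : Prop := ∀ (B : Type) [NormedRing B] (ι : Type) [Fintype ι] (h : C(unitInterval, Matrix ι ι B)), h 0 = h 1 →
  ∃ E : Matrix ι ι C(UnitAddCircle, B), ∀ s : unitInterval, evM E ((s : ℝ) : UnitAddCircle) = h s

/-- ROW pv:HOA (short-medium; from PTH). PTH in the Banach algebra of matrices (linftyOp) for `s ↦ evM E s`: `V(s) = W(s) E_0`, `V'(s) = E_0 W'(s)`. `evM E 1 = evM E 0` so `W(1)` commutes with `E_0`: `g = V(1) + 1 - E_0` has the inverse `V'(1) + 1 - E_0`. Second claim: for two data, `s ↦ V₂'(s) V₁(s) + 1 - E_0` is a path of invertibles from 1 to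
`g₂⁻¹ g₁` (`V₁'(s) V₂(s) + 1 - E_0` is the inverse; note `V V' E = V`, `E(s) V(s) = V(s)`). -/
def HOA_stmt : Prop := ∀ (B : Type) [NormedRing B] [NormedAlgebra ℂ B] [CompleteSpace B] (ι : Type) [Fintype ι] [DecidableEq ι]
  (E : Matrix ι ι C(UnitAddCircle, B)), E * E = E →
  (∃ (V V' : C(unitInterval, Matrix ι ι B)) (g : (Matrix ι ι B)ˣ), Hol E V V' ∧ (g : Matrix ι ι B) = V 1 + (1 - evM E 0)) ∧
  ∀ (V₁ V₁' V₂ V₂' : C(unitInterval, Matrix ι ι B)) (g₁ g₂ : (Matrix ι ι B)ˣ), Hol E V₁ V₁' → Hol E V₂ V₂' →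
    (g₁ : Matrix ι ι B) = V₁ 1 + (1 - evM E 0) → (g₂ : Matrix ι ι B) = V₂ 1 + (1 - evM E 0) → Htp g₁ g₂

/-- ROW pv:HOE (medium; from HOA, K1T, K1M, K1R, K1B, K0S). Define `de` on generators by HOA. Relation (1): `E = X Y`, `F = Y X` (replace `X` by `E X F`, `Y` by `F Y E`): `V_F(s) = Y(s) V_E(s) X(0)`, `V_F'(s) = Y(0) V_E'(s) X(s)`; `g_F = Y(0) V_E(1) X(0) + 1 - F_0`: K1T transport. Relation (2): `V_E + V_F` for `E + F` (`E F = F E = 0`: `V_E' V_F = V_E' E F V_F = 0`, and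
at 0 likewise), `g = g_E g_F`. Any index type: reindexing (K1R) of the data. -/
def HOE_stmt : Prop := ∀ (B : Type) [NormedRing B] [NormedAlgebra ℂ B] [CompleteSpace B], ∃ de : K0 C(UnitAddCircle, B) →+ K1 B, IsDe B de

/-- ROW pv:HON (short-medium; from HOA, K0G, FUN). Naturality: `Hol` data are mapped to `Hol` data. Constant loops: `V = V' = E_0` constant, `g = 1`: `de (cl_* z) = 0`. -/
def HON_stmt : Prop := (∀ (B D : Type) [NormedRing B] [NormedAlgebra ℂ B] [CompleteSpace B] [NormedRing D] [NormedAlgebra ℂ D] [CompleteSpace D]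
  (φ : B →ₐ[ℂ] D) (hφ : Continuous φ) (hφ' : Continuous φ.toRingHom) (de : K0 C(UnitAddCircle, B) →+ K1 B) (de' : K0 C(UnitAddCircle, D) →+ K1 D),
  IsDe B de → IsDe D de' → ∀ z, k1map φ.toRingHom hφ' (de z) = de' (k0map (cmpC UnitAddCircle φ hφ).toRingHom z)) ∧
  ∀ (B : Type) [NormedRing B] [NormedAlgebra ℂ B] [CompleteSpace B] (de : K0 C(UnitAddCircle, B) →+ K1 B), IsDe B de →
    ∀ z, de (k0map (cl B).toRingHom z) = 0

/-- ROW pv:HOF (medium; from HOA, LPC, K0G, K0C, K0D, K0E, K0B, K1Z, K1M, K1B, FUN). `z = [E] - m [1]`, `el_* z = 0`: K0C over `B`: `g (pad E(0)) = (pad P₀) g`, `P₀ = 1_m ⊕ 0`, `g` over `B`; conjugating `pad E` by the constant loop `g` we may assume `E(0) = P`, `P` a diagonal 0-1 matrix with `z = [E] - [P]`. `V`, `g` Hol data: `g = V(1) + 1 - P`, `[g] = de z + 0 = 0`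
(`de [P] = 0`, HON-like: constant). K1Z: `g ⊕ 1_k` is joined to 1. Add `1_k` to `E` and `P` : then `v = V(1) ∈ P M P` with `v + 1 - P` joined to 1 by `γ(t)`; to get a path inside the corner enlarge: `P M_κ P` is `M_r(B)` and K1Z applied to the `r × r` block of `v` (`[v + 1 - P] = [block of v]`, K1B). So there is a path `s(t) ∈ P M P` of invertibles of the corner from `P` (t = 0) to `v⁻¹` (t = 1).
`V^(t) = V(t) s(t)` satisfies `V^(0) = P = V^(1)`: it is a loop (LPC) and `V^ : P → E` is an isomorphism over `C(circle, B)`: `[E] = [P]`. -/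
def HOF_stmt : Prop := ∀ (B : Type) [NormedRing B] [NormedAlgebra ℂ B] [CompleteSpace B] (de : K0 C(UnitAddCircle, B) →+ K1 B), IsDe B de →
  ∀ z, k0map (el B).toRingHom z = 0 → de z = 0 → z = 0

/-- ROW pv:HOG (short-medium; from ROT, LPC, K1G, K1B, K1M, K0B, FUN). `y = [w]`, `w ∈ GL_n(B)`. `W_t = rotW w w⁻¹ t` from 1 to `diag(w, w⁻¹)`, `P = 1 ⊕ 0`: `E(t) = W_t P W_t⁻¹` is a loop of idempotents, `E(0) = P`; `V(t) = W_t P`, `V'(t) = P W_t⁻¹`, `g = diag(w, 0) + diag(0, 1)`: `de [E] = [w]`. `z = [E] - [P]`, `de [P] = 0` (constant data). -/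
def HOG_stmt : Prop := ∀ (B : Type) [NormedRing B] [NormedAlgebra ℂ B] [CompleteSpace B] (de : K0 C(UnitAddCircle, B) →+ K1 B), IsDe B de →
  ∀ y : K1 B, ∃ z, k0map (el B).toRingHom z = 0 ∧ de z = y

/-- ROW pv:HOL (short; from HOE, HOA, HOF, HOG). Assembly. -/
def HOLR_stmt : Prop := HOL_stmt

/-- ROW pv:KS (short-medium; from BOT, HOL, KC, BEN, K0G, FUN). `B = ℂ`. `K₀`: `de z ∈ K₁(ℂ) = 0`. `K₁`: `y = cl_*(..) + be (d y)`, `K₁(ℂ) = 0`, `d y = n [1]`, `be [1] = [z]` (`e = 1` over `Unit`). `n [z] = 0`: apply `d`. -/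
def KSR_stmt : Prop := KS_stmt

/-! ## The second boundary map -/

/-- `d0 = de ∘ (index of the loop pair) ∘ be` -/
def IsD0 {B A : Type} [NormedRing B] [NormedAlgebra ℂ B] [NormedRing A] [NormedAlgebra ℂ A] (al : B ≃ₐ[ℂ] B) (io : B →ₐ[ℂ] A) (u : Aˣ)
    (c : ℤ → A →ₗ[ℂ] B) (d0 : K0 A →+ K1 B) : Prop :=
  ∃ (h : Continuous (al : B →ₐ[ℂ] B)) (h' : Continuous (al.symm : B →ₐ[ℂ] B)) (hi : Continuous io)
    (cc : ℤ → C(UnitAddCircle, A) →ₗ[ℂ] C(UnitAddCircle, B)) (be : K0 A →+ K1 C(UnitAddCircle, A))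
    (dl : K1 C(UnitAddCircle, A) →+ K0 C(UnitAddCircle, B)) (de : K0 C(UnitAddCircle, B) →+ K1 B),
    ZPair (lal al h h') (cmpC UnitAddCircle io hi) (lu u) cc ∧ (∀ n f t, cc n f t = c n (f t)) ∧ IsBe A be ∧
    IsD1 (lal al h h') (cmpC UnitAddCircle io hi) (lu u) cc dl ∧ IsDe B de ∧ ∀ z, d0 z = de (dl (be z))

/-- ROW pv:D0E (short; from ZLP, BET, D1E, HOE). Existence. -/
def D0E_stmt : Prop := ∀ (B A : Type) [NormedRing B] [NormedAlgebra ℂ B] [CompleteSpace B] [NormedRing A] [NormedAlgebra ℂ A] [CompleteSpace A]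
  (al : B ≃ₐ[ℂ] B) (io : B →ₐ[ℂ] A) (u : Aˣ) (c : ℤ → A →ₗ[ℂ] B), ZPair al io u c → ∃ d0 : K0 A →+ K1 B, IsD0 al io u c d0

/-- ROW pv:D0X (medium; from D1E, D1N, D1K, BOT, BET, BEN, HOF, FUN, K0G). `d0 z = 0`. `y = dl(be z) ∈ K₀(C(circle, B))`: `de y = 0`, and `el_* y = d1(el_* be z) = d1 0 = 0` (D1N for the map of Z-pairs `el`: loops → base): `y = 0` (HOF). D1K for the loop pair: `be z = lio_* x`, `x ∈ K₁(C(circle, B))`, `x = cl_*(..) + be_B(d_B x)` (BOT).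
Apply `d_A` of BOT: `z = d_A(be z) = d_A(cl_* ..) + d_A(be_A(io_* d_B x)) = io_*(d_B x)` (BEN; `lio cl = cl io`; the `be` in BOT is the `be` of IsD0: both are IsBe, equal on generators, K0G). -/
def D0X_stmt : Prop := ∀ (B A : Type) [NormedRing B] [NormedAlgebra ℂ B] [CompleteSpace B] [NormedRing A] [NormedAlgebra ℂ A] [CompleteSpace A]
  (al : B ≃ₐ[ℂ] B) (io : B →ₐ[ℂ] A) (u : Aˣ) (c : ℤ → A →ₗ[ℂ] B), ZPair al io u c → ∀ d0 : K0 A →+ K1 B, IsD0 al io u c d0 →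
  ∀ z, d0 z = 0 → ∃ w : K0 B, z = k0map io.toRingHom w

/-- ROW pv:D0Y (short-medium; from D1P, BET, BEN, HON, FUN, K0G). `be(io_* w) = lio_*(be_B w)` (BEN) is killed by `dl` (D1P for the loop pair). Invariance: `dl y` is `lal`-invariant (D1P), and `al_* de = de lal_*` (HON). -/
def D0Y_stmt : Prop := ∀ (B A : Type) [NormedRing B] [NormedAlgebra ℂ B] [CompleteSpace B] [NormedRing A] [NormedAlgebra ℂ A] [CompleteSpace A]
  (al : B ≃ₐ[ℂ] B) (io : B →ₐ[ℂ] A) (u : Aˣ) (c : ℤ → A →ₗ[ℂ] B), ZPair al io u c → ∀ d0 : K0 A →+ K1 B, IsD0 al io u c d0 →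
  (∀ w : K0 B, d0 (k0map io.toRingHom w) = 0) ∧ ∀ (ha : Continuous (al : B →ₐ[ℂ] B).toRingHom) z, k1a al ha (d0 z) = d0 z

/-- ROW pv:D0Z (medium; from D1E, D1N, D1P, BOT, BET, BEN, HON, HOF, HOG, FUN, K0G). `al_* y = y`. HOG: `x ∈ K₀(C(circle, B))`, `el_* x = 0`, `de x = y`. `lal_* x - x` is killed by `el_*` and `de` (HON), so `lal_* x = x` (HOF). D1P for the loop pair: `x = dl g`, `g = cl_*(el_* g) + be_A(d_A g)` (BOT). `dl(cl_* g₁) = cl_*(d1 g₁)` (D1N for the map of Z-pairs `cl`), killed by `de` (HON).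
So `y = de(dl(be_A(d_A g))) = d0(d_A g)`. -/
def D0Z_stmt : Prop := ∀ (B A : Type) [NormedRing B] [NormedAlgebra ℂ B] [CompleteSpace B] [NormedRing A] [NormedAlgebra ℂ A] [CompleteSpace A]
  (al : B ≃ₐ[ℂ] B) (io : B →ₐ[ℂ] A) (u : Aˣ) (c : ℤ → A →ₗ[ℂ] B), ZPair al io u c → ∀ d0 : K0 A →+ K1 B, IsD0 al io u c d0 →
  ∀ (ha : Continuous (al : B →ₐ[ℂ] B).toRingHom) (y : K1 B), k1a al ha y = y → ∃ z, d0 z = y

/-- ROW pv:D0N (medium; from D1N, BEN, HON, K0G, FUN). A map of Z-pairs `(f, F)` gives the map of loop pairs `(f ∘ ·, F ∘ ·)`; naturality of `be`, `dl`, `de`. -/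
def D0N_stmt : Prop := ∀ (B A B' A' : Type) [NormedRing B] [NormedAlgebra ℂ B] [CompleteSpace B] [NormedRing A] [NormedAlgebra ℂ A] [CompleteSpace A]
  [NormedRing B'] [NormedAlgebra ℂ B'] [CompleteSpace B'] [NormedRing A'] [NormedAlgebra ℂ A'] [CompleteSpace A']
  (al : B ≃ₐ[ℂ] B) (io : B →ₐ[ℂ] A) (u : Aˣ) (c : ℤ → A →ₗ[ℂ] B) (al' : B' ≃ₐ[ℂ] B') (io' : B' →ₐ[ℂ] A') (u' : A'ˣ) (c' : ℤ → A' →ₗ[ℂ] B')
  (f : B →ₐ[ℂ] B') (F : A →ₐ[ℂ] A') (hf : Continuous f.toRingHom), ZPair al io u c → ZPair al' io' u' c' → ZMap al io u al' io' u' f F →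
  ∀ (d0 : K0 A →+ K1 B) (d0' : K0 A' →+ K1 B'), IsD0 al io u c d0 → IsD0 al' io' u' c' d0' →
  ∀ z : K0 A, k1map f.toRingHom hf (d0 z) = d0' (k0map F.toRingHom z)

/-- ROW pv:T2 (medium; from T1, ZLP, HOE, HON, HOF, HOG, FUN). `io_* y = 0`. HOG: `x ∈ K₀(C(circle, B))`, `el_* x = 0`, `de x = y`. `lio_* x` is killed by `el_*` and by `de_A` (HON), so it is 0 (HOF over `A`). T1 for the loop pair: `x = w - lal_* w`; `y = de x = de w - al_*(de w)`. -/
def T2_stmt : Prop := ∀ (B A : Type) [NormedRing B] [NormedAlgebra ℂ B] [CompleteSpace B] [NormedRing A] [NormedAlgebra ℂ A] [CompleteSpace A]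
  (al : B ≃ₐ[ℂ] B) (io : B →ₐ[ℂ] A) (u : Aˣ) (c : ℤ → A →ₗ[ℂ] B) (hi : Continuous io.toRingHom) (ha : Continuous (al : B →ₐ[ℂ] B).toRingHom),
  ZPair al io u c → ∀ y : K1 B, k1map io.toRingHom hi y = 0 → ∃ w : K1 B, y = w - k1a al ha w

/-! ## The whole sequence -/

/-- Pimsner-Voiculescu for a Z-pair: two exact sequences (assembled by helper77) -/
def PVS_stmt : Prop := ∀ (B A : Type) [NormedRing B] [NormedAlgebra ℂ B] [CompleteSpace B] [NormedRing A] [NormedAlgebra ℂ A] [CompleteSpace A]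
  (al : B ≃ₐ[ℂ] B) (io : B →ₐ[ℂ] A) (u : Aˣ) (c : ℤ → A →ₗ[ℂ] B) (hi : Continuous io.toRingHom) (ha : Continuous (al : B →ₐ[ℂ] B).toRingHom),
  ZPair al io u c → ∃ (d1 : K1 A →+ K0 B) (d0 : K0 A →+ K1 B), IsD1 al io u c d1 ∧ IsD0 al io u c d0 ∧
  (∀ z : K0 B, k0map io.toRingHom z = 0 ↔ ∃ w, z = w - k0a al w) ∧ (∀ z : K0 A, d0 z = 0 ↔ ∃ w, z = k0map io.toRingHom w) ∧
  (∀ y : K1 B, k1a al ha y = y ↔ ∃ z, d0 z = y) ∧ (∀ y : K1 B, k1map io.toRingHom hi y = 0 ↔ ∃ w, y = w - k1a al ha w) ∧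
  (∀ y : K1 A, d1 y = 0 ↔ ∃ w, y = k1map io.toRingHom hi w) ∧ (∀ z : K0 B, k0a al z = z ↔ ∃ y, d1 y = z) ∧
  d1 (k1 (uM Unit u)) = unitCls B

/-- ROW pv:PVS (short; from T1, T1C, T2, D1E, D1K, D1P, D0E, D0X, D0Y, D0Z, FUN). Assembly of the two exact sequences. -/
def PVSR_stmt : Prop := PVS_stmt

end Pool.Agent.PV
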