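import Pool.Agent.helper77.PV.SpecC

/-!
# Project pv: Bott periodicity for algebras with `‖1‖ ≤ 1`, renorming. Rows pv:BZ1, BT1, RNM, BTR

`BZP_stmt` of SpecC is false (a `NormedRing` need not satisfy `‖1‖ ≤ 1`); it is replaced by `BZ1_stmt`. `BOT_stmt` is true for all Banach algebras: `BT1_stmt` + renorming.
-/

set_option autoImplicit false

open scoped Matrix Topology
open Filter

namespace Pool.Agent.PV

open Pool.Agent.CZ

/-- ROW pv:BZ1 (medium). As BZP, with `‖1‖ ≤ 1`. -/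
def BZ1_stmt : Prop := ∀ (B : Type) [NormedRing B] [NormedAlgebra ℂ B] [CompleteSpace B], ‖(1 : B)‖ ≤ 1 →
  ∃ c : ℤ → C(UnitAddCircle, B) →ₗ[ℂ] B, ZPair (AlgEquiv.refl : B ≃ₐ[ℂ] B) (cl B) (zU B) c

/-- ROW pv:BT1 (medium; from BZ1, BET, BEN, D1E, D1K, D1P, IN0, K0G, FUN). As BOT in SpecC. -/
def BT1_stmt : Prop := ∀ (B : Type) [NormedRing B] [NormedAlgebra ℂ B] [CompleteSpace B], ‖(1 : B)‖ ≤ 1 →
  ∃ (be : K0 B →+ K1 C(UnitAddCircle, B)) (d : K1 C(UnitAddCircle, B) →+ K0 B),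
    (∀ (ι : Type) [Fintype ι] [DecidableEq ι] (e : Matrix ι ι B) (he : e * e = e)
      (g : (Matrix ι ι C(UnitAddCircle, B))ˣ), (g : Matrix ι ι C(UnitAddCircle, B)) =
        zl B • e.map (cl B) + (1 - e.map (cl B)) → be (k0 e he) = k1 g) ∧
    (∀ z, d (be z) = z) ∧ (∀ y : K1 B, d (k1map (cl B).toRingHom (cl_cont B) y) = 0) ∧
    (∀ z, k1map (el B).toRingHom (el_cont B) (be z) = 0) ∧
    ∀ y : K1 C(UnitAddCircle, B), y = k1map (cl B).toRingHom (cl_cont B)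
      (k1map (el B).toRingHom (el_cont B) y) + be (d y)

/-- ROW pv:RNM (short-medium). Renorming. `B'` = the range of `b ↦ (x ↦ b x)` in `B →L[ℂ] B` (operator norm): `‖b‖ ≤ ‖L_b‖ ‖1‖`, `‖L_b‖ ≤ ‖b‖`, so `B → B'` is a homeomorphic isomorphism and `B'` is complete; `‖1‖ ≤ 1` in `B'`. -/
def RNM_stmt : Prop := ∀ (B : Type) [NormedRing B] [NormedAlgebra ℂ B] [CompleteSpace B],
  ∃ (B' : Type) (_ : NormedRing B') (_ : NormedAlgebra ℂ B') (_ : CompleteSpace B') (f : B ≃ₐ[ℂ] B'),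
    Continuous f ∧ Continuous f.symm ∧ ‖(1 : B')‖ ≤ 1

/-- ROW pv:BTR (short-medium; from BT1, RNM, BET, BEN, FUN). `f : B ≃ B'` of RNM, `F = f ∘ · : C(circle, B) → C(circle, B')`. `be` from BET for `B`, `be'`, `d'` from BT1 for `B'` (`be'` is IsBe); `d = f⁻¹_* d' F_*`. Naturality of `be` (BEN), `F cl = cl' f`, `el' F = f el` and FUN. For the last clause apply the injective map `F_*`. -/
def BTRR_stmt : Prop := BOT_stmt

end Pool.Agent.PV
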