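import Pool.Agent.helper77.PV.SpecC
import Pool.Agent.helper53.PV.SpecD
import Pool.Agent.helper45.PV.DefsG
import Pool.Agent.helper72.PV.SpecH

/-!
# Project pv (MP_376aaf_an), block K: assembly. Rows pvk:*

RULES. One file per row: `Pool/Agent/<seat>/PV/XXX.lean`, `import Pool.Agent.helper77.PV.SpecK`, `namespace Pool.Agent.PV`,
`open Pool.Agent.CZ Pool.Agent.PVH`, auxiliary lemmas prefixed `XXX_`. Other rows enter only as hypotheses (exact theorem line in the lock note), no row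
waits for another. No straight double quotes, no `convert` / `congr!`. The proof of every row is in its docstring.
-/

set_option autoImplicit false

open scoped Matrix Topology
open Filter

namespace Pool.Agent.PV

open Pool.Agent.CZ Pool.Agent.PVH

/-! ## Algebra -/

/-- `G = G₀ ⊕ ⊕_ℤ S`; the endomorphism `a` is `a₀` on `G₀` and the shift on the second summand -/
structure Dec {G₀ G S : Type} [AddCommGroup G₀] [AddCommGroup G] [AddCommGroup S] (a₀ : G₀ →+ G₀) (a : G →+ G)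
    (jm : G₀ →+ G) (rm : ℤ → S →+ G) : Prop where
  aj : ∀ x, a (jm x) = jm (a₀ x)
  ar : ∀ k s, a (rm k s) = rm (k - 1) s
  gen : ∀ z : G, ∃ (x : G₀) (y : ℤ →₀ S), z = jm x + y.sum fun k v => rm k v
  inj : ∀ (x : G₀) (y : ℤ →₀ S), (jm x + y.sum fun k v => rm k v) = 0 → x = 0 ∧ y = 0

/-- ROW pvk:KSH (short-medium). `a (jm x + ∑ rm k (y k)) = jm (a₀ x) + ∑ rm k (y (k+1))` (`Finsupp.mapDomain`/`Finsupp.sum`, or work with sums over a large interval). (1) `a z = z`: `a₀ x = x` and `y k = y (k+1)` for all `k`, so `y = 0` (finite support).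
(2) `w = jm x' + ∑ rm k (y k)`: `w - a w = jm (x' - a₀ x') + ∑ rm k (y k - y (k+1))`: `x = x' - a₀ x'` and `y k - y (k+1) = s` for `k = 0`, `= 0` otherwise; `y` vanishes for large `|k|`, so `y k = 0` for `k ≥ 1` and for `k ≤ 0`, `s = 0`. (3) `rm k v - rm 0 v = w - a w` by induction on `k` in both directions (`rm (k+1) v - rm k v = rm (k+1) v - a (rm (k+1) v)`), and sum up.
(4) `y = 0` in `inj`. -/
def KSH_stmt : Prop := ∀ (G₀ G S : Type) [AddCommGroup G₀] [AddCommGroup G] [AddCommGroup S] (a₀ : G₀ →+ G₀) (a : G →+ G)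
  (jm : G₀ →+ G) (rm : ℤ → S →+ G), Dec a₀ a jm rm →
  (∀ z, a z = z → ∃ x, a₀ x = x ∧ z = jm x) ∧
  (∀ x s w, jm x + rm 0 s = w - a w → (∃ w₀, x = w₀ - a₀ w₀) ∧ s = 0) ∧
  (∀ z, ∃ x s w, z = jm x + rm 0 s + (w - a w)) ∧ Function.Injective jm

/-- ROW pvk:KFV (short-medium; from KSH). Five lemma. Onto: `d z` is fixed by `b`, so `d z = jn x`, `b₀ x = x`, `x = d₀ z₀`, `d (F z₀) = jn x = d z`, `z - F z₀ = i w`, `w = jm x' + rm 0 s + (v - a v)` (KSH 3), `i w = F (i₀ x') + i (rm 0 s)`. One-to-one: `d i = 0`, so `jn (d₀ z₀) = d (F z₀) = 0`, `d₀ z₀ = 0`, `z₀ = i₀ w₀`,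
`i (jm w₀ + rm 0 s) = 0`, so `jm w₀ + rm 0 s = w - a w`, and KSH 2: `w₀ = v - a₀ v`, `s = 0`, `z₀ = i₀ w₀ = 0`. -/
def KFV_stmt : Prop := ∀ (G₀ G S H₀ H P₀ P : Type) [AddCommGroup G₀] [AddCommGroup G] [AddCommGroup S] [AddCommGroup H₀] [AddCommGroup H]
  [AddCommGroup P₀] [AddCommGroup P] (a₀ : G₀ →+ G₀) (a : G →+ G) (jm : G₀ →+ G) (rm : ℤ → S →+ G) (b₀ : H₀ →+ H₀) (b : H →+ H) (jn : H₀ →+ H)
  (i₀ : G₀ →+ P₀) (i : G →+ P) (d₀ : P₀ →+ H₀) (d : P →+ H) (F : P₀ →+ P),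
  Dec a₀ a jm rm → Function.Injective jn → (∀ y, b y = y → ∃ x, b₀ x = x ∧ y = jn x) →
  (∀ x, F (i₀ x) = i (jm x)) → (∀ z, jn (d₀ z) = d (F z)) →
  (∀ z, i z = 0 ↔ ∃ w, z = w - a w) → (∀ z, i₀ z = 0 ↔ ∃ w, z = w - a₀ w) →
  (∀ z, d z = 0 ↔ ∃ w, z = i w) → (∀ z, d₀ z = 0 ↔ ∃ w, z = i₀ w) →
  (∀ y, b y = y ↔ ∃ z, d z = y) → (∀ y, b₀ y = y ↔ ∃ z, d₀ z = y) →
  (∀ z : P, ∃ z₀ s, z = F z₀ + i (rm 0 s)) ∧ ∀ z₀ s, F z₀ + i (rm 0 s) = 0 → z₀ = 0 ∧ s = 0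

/-- ROW pvk:KSG (short). `G' = ker δ`, `x ↦ (δ x, x - δ x • u)`. -/
def KSG_stmt : Prop := ∀ (G : Type) [AddCommGroup G] (δ : G →+ ℤ) (u : G), δ u = 1 →
  ∃ (G' : Type) (_ : AddCommGroup G'), Nonempty (G ≃+ ℤ × G')

/-- ROW pvk:KDS (short-medium). The map `(x, s) ↦ F x + j s` from `P₀ × ker χ` to `P` is additive and bijective (`AddEquiv.ofBijective`); compose its inverse with `σ`. -/
def KDS_stmt : Prop := ∀ (P₀ P S' T' : Type) [AddCommGroup P₀] [AddCommGroup P] [AddCommGroup S'] [AddCommGroup T'] (F : P₀ →+ P) (j : S' →+ P) (χ : S' →+ T'),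
  (∀ z, ∃ x s, χ s = 0 ∧ z = F x + j s) → (∀ x s, χ s = 0 → F x + j s = 0 → x = 0 ∧ s = 0) →
  ∀ (S : Type) [AddCommGroup S] (σ : ↥χ.ker ≃+ S), ∃ φ : P ≃+ P₀ × S, (∀ x, φ (F x) = (x, 0)) ∧ ∀ (s : S') (h : s ∈ χ.ker), φ (j s) = (0, σ ⟨s, h⟩)

/-! ## K-theory of the extension -/

/-- ROW pvk:KM0 (short-medium; from MS0, FUN). `k0map` of a composition (FUN): `alC α ∘ pbC π = pbC π ∘ alC α₀` (`ExtData.eqv`: `π (α⁻¹ x) = α₀⁻¹ (π x)`), `alC α ∘ r k = r (k-1)` (`ExtData.al`). `gen`, `inj`: MS0 with `χ = evC ℂ y`; a `Finsupp` with values in `K0 C(Y, ℂ)` all of whose values are in the kernel is the same as a `Finsupp` with values in the kernel (`Finsupp.mapRange`). -/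
def KM0_stmt : Prop := ∀ (X₀ Y X : Type) [TopologicalSpace X₀] [TopologicalSpace Y] [TopologicalSpace X] [CompactSpace X₀]
  [CompactSpace Y] [CompactSpace X] (α₀ : X₀ ≃ₜ X₀) (α : X ≃ₜ X) (π : C(X, X₀)) (e : ℤ → C(X, ℂ) →ₐ[ℂ] C(Y, ℂ)) (r : ℤ → C(Y, ℂ) →ₐ[ℂ] C(X, ℂ)),
  ExtData α₀ α π e r → ∀ y : Y, Dec (S := ↥(k0map (evC ℂ y).toRingHom).ker) (k0a (alC α₀)) (k0a (alC α)) (k0map (pbC ℂ π).toRingHom)
    (fun k => (k0map (r k).toRingHom).comp (k0map (evC ℂ y).toRingHom).ker.subtype)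

/-- ROW pvk:KM1 (short-medium; from MS1, FUN). As KM0, for `K₁`. -/
def KM1_stmt : Prop := ∀ (X₀ Y X : Type) [TopologicalSpace X₀] [TopologicalSpace Y] [TopologicalSpace X] [CompactSpace X₀]
  [CompactSpace Y] [CompactSpace X] (α₀ : X₀ ≃ₜ X₀) (α : X ≃ₜ X) (π : C(X, X₀)) (e : ℤ → C(X, ℂ) →ₐ[ℂ] C(Y, ℂ)) (r : ℤ → C(Y, ℂ) →ₐ[ℂ] C(X, ℂ)),
  ExtData α₀ α π e r → ∀ (h₀ : Continuous (alC α₀ : C(X₀, ℂ) →ₐ[ℂ] C(X₀, ℂ)).toRingHom) (h : Continuous (alC α : C(X, ℂ) →ₐ[ℂ] C(X, ℂ)).toRingHom)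
    (hj : Continuous (pbC ℂ π).toRingHom) (hr : ∀ k, Continuous (r k).toRingHom),
    Dec (S := K1 C(Y, ℂ)) (k1a (alC α₀) h₀) (k1a (alC α) h) (k1map (pbC ℂ π).toRingHom hj) (fun k => k1map (r k).toRingHom (hr k))

/-- ROW pvk:KTA (medium; from KSH, KFV, KM0, KM1, PVS, D1N, D0N, DZP, DZM, FUN). DZP: Z-pairs for `X` and `X₀`; DZM: the map of Z-pairs. PVS for both; KFV twice: for `K₀`: `G = K0 C(X, ℂ)`, `H = K1 C(X, ℂ)`, `d = d0`, D0N; for `K₁`: `G = K1 C(X, ℂ)`, `H = K0 C(X, ℂ)`, `d = d1`, D1N.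
`F ∘ i₀ = i ∘ jm`: `Φ (ι₀ f) = ι (f ∘ π)` and FUN. The second hypothesis of KFV: KSH 1 and 4 for the other decomposition. Continuity of all the maps: star homomorphisms, pull-backs, `ExtData.ms.cr`. -/
def KTA_stmt : Prop := ∀ (X₀ Y X : Type) [TopologicalSpace X₀] [TopologicalSpace Y] [TopologicalSpace X] [CompactSpace X₀]
  [CompactSpace Y] [CompactSpace X] (α₀ : X₀ ≃ₜ X₀) (α : X ≃ₜ X) (π : C(X, X₀)) (e : ℤ → C(X, ℂ) →ₐ[ℂ] C(Y, ℂ)) (r : ℤ → C(Y, ℂ) →ₐ[ℂ] C(X, ℂ)),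
  ExtData α₀ α π e r → ∀ (A A₀ : Type) [CStarAlgebra A] [CStarAlgebra A₀]
  (ι : C(X, ℂ) →⋆ₐ[ℂ] A) (u : unitary A) (c : ℤ → A →ₗ[ℂ] C(X, ℂ)) (ι₀ : C(X₀, ℂ) →⋆ₐ[ℂ] A₀) (u₀ : unitary A₀) (c₀ : ℤ → A₀ →ₗ[ℂ] C(X₀, ℂ)),
  Cov α ι u c → Cov α₀ ι₀ u₀ c₀ → ∀ Φ : A₀ →⋆ₐ[ℂ] A, (∀ f, Φ (ι₀ f) = ι (f.comp π)) → Φ (u₀ : A₀) = u → ∀ y : Y,
  ∀ (hΦ : Continuous Φ.toAlgHom.toRingHom) (hr : Continuous (ι.toAlgHom.comp (r 0)).toRingHom),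
  (∀ z : K0 A, ∃ (x : K0 A₀) (s : K0 C(Y, ℂ)), k0map (evC ℂ y).toRingHom s = 0 ∧
    z = k0map Φ.toAlgHom.toRingHom x + k0map (ι.toAlgHom.comp (r 0)).toRingHom s) ∧
  (∀ (x : K0 A₀) (s : K0 C(Y, ℂ)), k0map (evC ℂ y).toRingHom s = 0 →
    k0map Φ.toAlgHom.toRingHom x + k0map (ι.toAlgHom.comp (r 0)).toRingHom s = 0 → x = 0 ∧ s = 0) ∧
  (∀ z : K1 A, ∃ (x : K1 A₀) (s : K1 C(Y, ℂ)), z = k1map Φ.toAlgHom.toRingHom hΦ x + k1map (ι.toAlgHom.comp (r 0)).toRingHom hr s) ∧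
  ∀ (x : K1 A₀) (s : K1 C(Y, ℂ)), k1map Φ.toAlgHom.toRingHom hΦ x + k1map (ι.toAlgHom.comp (r 0)).toRingHom hr s = 0 → x = 0 ∧ s = 0

/-- ROW pvk:KPZ (short; from JCX, JST, JPR, JNA, JCO, FUN). `pair t (ι_* (r_* s)) = φ.cx (trC (r_* s)) = φ.cx (r (trC s)) = 0`, as `trC s = 0` (JCO); `φ` from JST. -/
def KPZ_stmt : Prop := ∀ (X Y : Type) [TopologicalSpace X] [TopologicalSpace Y] [CompactSpace X] [PreconnectedSpace Y] (α : X ≃ₜ X) (A : Type) [CStarAlgebra A]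
  (ι : C(X, ℂ) →⋆ₐ[ℂ] A) (u : unitary A), (∀ f : C(X, ℂ), (u : A) * ι f * star (u : A) = ι (f.comp (α.symm : C(X, X)))) →
  ∀ (r : C(Y, ℂ) →ₐ[ℂ] C(X, ℂ)) (t : TracialState A) (y : Y) (s : K0 C(Y, ℂ)), k0map (evC ℂ y).toRingHom s = 0 →
  pair t (k0map (ι.toAlgHom.comp r).toRingHom s) = 0

/-! ## The Cantor base -/

/-- ROW pvk:KC0 (medium; from RNK, KT0, KT1, PVS, DZP, FUN, K0G). `R` of RNK is an isomorphism `K0 C(Ω, ℂ) → C(Ω, ℤ)` (KT0) with `R (k0a (alC s) z) = (R z) ∘ s⁻¹` and `R z x = trC z x` (on classes). PVS: `K₁(C(Ω)) = 0` (KT1), so `ι₀_*` is onto, with kernel `{w - al w}`. `Q (R z) = 0` iff `R z = e ∘ s - e = f - f ∘ s⁻¹` with `f = e ∘ s`, iff `z = w - al w`.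
So `Q ∘ R` induces an isomorphism of `K0 A₀` with `H` (`AddEquiv.ofBijective`, or choose preimages; `Q` is onto). -/
def KC0_stmt : Prop := ∀ (H : Type) [AddCommGroup H] (P : H → Prop) (g : H) (Ω : Type) [TopologicalSpace Ω] [CompactSpace Ω] [T2Space Ω]
  [TotallyDisconnectedSpace Ω] (s : Ω ≃ₜ Ω) (Q : C(Ω, ℤ) →+ H), IsDim P g s Q →
  ∀ (A : Type) [CStarAlgebra A] (ι : C(Ω, ℂ) →⋆ₐ[ℂ] A) (u : unitary A) (c : ℤ → A →ₗ[ℂ] C(Ω, ℂ)), Cov s ι u c →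
  ∃ (ψ : K0 A ≃+ H) (R : K0 C(Ω, ℂ) →+ C(Ω, ℤ)), (∀ z x, ((R z x : ℤ) : ℂ) = trC C(Ω, ℂ) z x) ∧
    (∀ z, ψ (k0map ι.toAlgHom.toRingHom z) = Q (R z)) ∧ (∀ z : K0 A, ∃ w, z = k0map ι.toAlgHom.toRingHom w) ∧ ψ (unitCls A) = g

/-- ROW pvk:KC1 (short-medium; from RNK, KT0, KT1, PVS, DZP, FUN, K0G). PVS: `d1` is injective (`K₁(C(Ω)) = 0`, KT1), its range is `{z : al z = z}`, which `R` maps isomorphically to the functions with `f ∘ s⁻¹ = f`, i.e. (hypothesis) to the constants `ℤ` (`Ω` is not empty, so the constant is unique). -/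
def KC1_stmt : Prop := ∀ (Ω : Type) [TopologicalSpace Ω] [CompactSpace Ω] [T2Space Ω]
  [TotallyDisconnectedSpace Ω] [Nonempty Ω] (s : Ω ≃ₜ Ω), (∀ f : C(Ω, ℤ), (∀ x, f (s x) = f x) → ∃ c : ℤ, ∀ x, f x = c) →
  ∀ (A : Type) [CStarAlgebra A] (ι : C(Ω, ℂ) →⋆ₐ[ℂ] A) (u : unitary A) (c : ℤ → A →ₗ[ℂ] C(Ω, ℂ)), Cov s ι u c →
  Nonempty (K1 A ≃+ ℤ)

/-- ROW pvk:KN1 (short; from PVS, DZP, RNK). `δ = (value at a point) ∘ R ∘ d1`; `d1 [u] = [1]` and `R [1] = 1` (`unitCls` is `k0 1` over `Fin 1`, up to reindexing). -/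
def KN1_stmt : Prop := ∀ (X : Type) [TopologicalSpace X] [CompactSpace X] [Nonempty X] (α : X ≃ₜ X) (A : Type) [CStarAlgebra A]
  (ι : C(X, ℂ) →⋆ₐ[ℂ] A) (u : unitary A) (c : ℤ → A →ₗ[ℂ] C(X, ℂ)), Cov α ι u c →
  ∃ δ : K1 A →+ ℤ, δ (k1 (uM Unit (Unitary.toUnits u))) = 1

/-! ## The invariant -/

/-- `(G₀, g, G₁, K, ρ)` is (isomorphic to) the invariant of `A` -/
def HasInv (A : Type) [CStarAlgebra A] {G₀ : Type} [AddCommGroup G₀] (g : G₀) (G₁ : Type) [AddCommGroup G₁] {E : Type} [AddCommGroup E] [Module ℝ E]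
    [TopologicalSpace E] (K : Set E) (ρ : G₀ →+ C(K, ℝ)) : Prop :=
  ∃ (φ : K0 A ≃+ G₀) (_ : K1 A ≃+ G₁) (τ : K → TracialState A), φ (unitCls A) = g ∧ Function.Bijective τ ∧
    (∀ a : A, ∃ b b' : C(K, ℝ), IsAff b ∧ IsAff b' ∧ ∀ t, (τ t).τ a = ⟨b t, b' t⟩) ∧ ∀ t z, pair (τ t) z = ((ρ (φ z) t : ℝ) : ℂ)

/-- ROW pvk:KHI (short). Transport along isomorphisms. -/
def KHI_stmt : Prop := ∀ (A : Type) [CStarAlgebra A] (G₀ : Type) [AddCommGroup G₀] (g : G₀) (G₁ : Type) [AddCommGroup G₁] (E : Type) [AddCommGroup E] [Module ℝ E]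
    [TopologicalSpace E] (K : Set E) (ρ : G₀ →+ C(K, ℝ)), HasInv A g G₁ K ρ →
  ∀ (G₀' G₁' : Type) [AddCommGroup G₀'] [AddCommGroup G₁'] (f : G₀ ≃+ G₀') (_ : G₁ ≃+ G₁') (ρ' : G₀' →+ C(K, ℝ)), (∀ x, ρ' (f x) = ρ x) →
  HasInv A (f g) G₁' K ρ'

/-- ROW pvk:KNE (short-medium; from KN1, KSG, MAI, COE). Necessity. MAI (CZ) gives `H`, `S` for `K0 A`; map them by `φ` (`AddSubgroup.map`, or comap of the inverse). `ρ (φ z) t = pair (τ t) z = 0` for `z ∈ S`. `K₁`: KN1 + KSG, and the isomorphism `K1 A ≃+ G₁`. -/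
def KNE_stmt : Prop := ∀ (X : Type) [TopologicalSpace X] [CompactSpace X] [T2Space X] [Infinite X] (α : X ≃ₜ X), IsMinimal α →
  ∀ (A : Type) [CStarAlgebra A] (ι : C(X, ℂ) →⋆ₐ[ℂ] A) (u : unitary A), IsCrossedProduct α ι u →
  ∀ (G₀ : Type) [AddCommGroup G₀] (g : G₀) (G₁ : Type) [AddCommGroup G₁] (E : Type) [AddCommGroup E] [Module ℝ E] [TopologicalSpace E]
    (K : Set E) (ρ : G₀ →+ C(K, ℝ)), HasInv A g G₁ K ρ →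
  (∃ (G' : Type) (_ : AddCommGroup G'), Nonempty (G₁ ≃+ ℤ × G')) ∧
  ∃ H S : AddSubgroup G₀, IsCompl H S ∧ g ∈ H ∧ (∀ (n : ℕ) (x : G₀), n ≠ 0 → x ∈ H → n • x = 0 → x = 0) ∧ ∀ x ∈ S, ρ x = 0

/-- ROW pvk:KTR (short-medium; from DTB). `τ' t` = the trace of `A` extending `τ t` (DTB 2); onto: the restriction of a trace `t'` of `A` to `A₀` (DTB 1) is some `τ t`, and `t' = τ' t` (DTB 3); injective: `τ' t` determines `τ t`. For `a : A` the function `t ↦ (τ' t)(a)` is a uniform limit of the functions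
`t ↦ (τ' t)(Φ a₀) = (τ t)(a₀)` (DTB 4), so real and imaginary part are continuous and affine. -/
def KTR_stmt : Prop := ∀ (X₀ Y X : Type) [TopologicalSpace X₀] [TopologicalSpace Y] [TopologicalSpace X] [CompactSpace X₀]
  [CompactSpace Y] [CompactSpace X] [T2Space X₀] [T2Space X] [Infinite X₀] [Infinite X] (α₀ : X₀ ≃ₜ X₀) (α : X ≃ₜ X) (π : C(X, X₀)) (e : ℤ → C(X, ℂ) →ₐ[ℂ] C(Y, ℂ)) (r : ℤ → C(Y, ℂ) →ₐ[ℂ] C(X, ℂ)),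
  ExtData α₀ α π e r → IsMinimal α₀ → IsMinimal α → ∀ (A A₀ : Type) [CStarAlgebra A] [CStarAlgebra A₀]
  (ι : C(X, ℂ) →⋆ₐ[ℂ] A) (u : unitary A) (c : ℤ → A →ₗ[ℂ] C(X, ℂ)) (ι₀ : C(X₀, ℂ) →⋆ₐ[ℂ] A₀) (u₀ : unitary A₀) (c₀ : ℤ → A₀ →ₗ[ℂ] C(X₀, ℂ)),
  Cov α ι u c → Cov α₀ ι₀ u₀ c₀ → ∀ Φ : A₀ →⋆ₐ[ℂ] A, (∀ f, Φ (ι₀ f) = ι (f.comp π)) → (∀ n x, c n (Φ x) = (c₀ n x).comp π) →
  ∀ (E : Type) [AddCommGroup E] [Module ℝ E] [TopologicalSpace E] (K : Set E) (τ : K → TracialState A₀), Function.Bijective τ →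
  (∀ a : A₀, ∃ b b' : C(K, ℝ), IsAff b ∧ IsAff b' ∧ ∀ t, (τ t).τ a = ⟨b t, b' t⟩) →
  ∃ τ' : K → TracialState A, Function.Bijective τ' ∧ (∀ t a, (τ' t).τ (Φ a) = (τ t).τ a) ∧
    ∀ a : A, ∃ b b' : C(K, ℝ), IsAff b ∧ IsAff b' ∧ ∀ t, (τ' t).τ a = ⟨b t, b' t⟩

/-- ROW pvk:KSX (medium; from KTR, KTA, KPZ, KDS, FUN). `φ' : K0 A ≃+ K0 A₀ × S₀` and `K1 A ≃+ K1 A₀ × S₁` from KTA and KDS (for `K₁`: `χ = 0`), composed with the isomorphisms of `HasInv A₀`. `Φ_* [1] = [1]` (FUN). Traces: KTR. `pair (τ' t) (Φ_* x) = pair (τ t) x` (on classes: `(τ' t).τ (Φ a) = (τ t).τ a`), KPZ for the second summand. -/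
def KSX_stmt : Prop := ∀ (X₀ Y X : Type) [TopologicalSpace X₀] [TopologicalSpace Y] [TopologicalSpace X] [CompactSpace X₀]
  [CompactSpace Y] [CompactSpace X] [T2Space X₀] [T2Space X] [Infinite X₀] [Infinite X] [PreconnectedSpace Y] (α₀ : X₀ ≃ₜ X₀) (α : X ≃ₜ X) (π : C(X, X₀)) (e : ℤ → C(X, ℂ) →ₐ[ℂ] C(Y, ℂ)) (r : ℤ → C(Y, ℂ) →ₐ[ℂ] C(X, ℂ)),
  ExtData α₀ α π e r → IsMinimal α₀ → IsMinimal α → ∀ (A A₀ : Type) [CStarAlgebra A] [CStarAlgebra A₀]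
  (ι : C(X, ℂ) →⋆ₐ[ℂ] A) (u : unitary A) (c : ℤ → A →ₗ[ℂ] C(X, ℂ)) (ι₀ : C(X₀, ℂ) →⋆ₐ[ℂ] A₀) (u₀ : unitary A₀) (c₀ : ℤ → A₀ →ₗ[ℂ] C(X₀, ℂ)),
  Cov α ι u c → Cov α₀ ι₀ u₀ c₀ → ∀ Φ : A₀ →⋆ₐ[ℂ] A, (∀ f, Φ (ι₀ f) = ι (f.comp π)) → Φ (u₀ : A₀) = u → (∀ n x, c n (Φ x) = (c₀ n x).comp π) →
  ∀ (y : Y) (S₀ S₁ : Type) [AddCommGroup S₀] [AddCommGroup S₁] (_ : (k0map (evC ℂ y).toRingHom).ker ≃+ S₀) (_ : K1 C(Y, ℂ) ≃+ S₁)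
    (G₀ : Type) [AddCommGroup G₀] (g : G₀) (G₁ : Type) [AddCommGroup G₁] (E : Type) [AddCommGroup E] [Module ℝ E] [TopologicalSpace E]
    (K : Set E) (ρ : G₀ →+ C(K, ℝ)), HasInv A₀ g G₁ K ρ → HasInv A ((g, 0) : G₀ × S₀) (G₁ × S₁) K (ρ.comp (AddMonoidHom.fst G₀ S₀))

/-- ROW pvk:KCH (short-medium; from JKT, JPR, KC0, KC1). `ψ t = ⟨T t, ..⟩` is a bijection of `K` with `InvSt s`; JKT: `τ`, `(τ t)(ι f) = (ψ t).cx f` (`c 0 (ι f) = f`, `cval`). Pairing: `z = ι_* w` (KC0), JPR: `pair (τ t) z = (ψ t).cx (trC w)`, `trC w = R w` is real: `= T t (intR (R w)) = ρ (Q (R w)) t = ρ (ψ₀ z) t`. -/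
def KCH_stmt : Prop := ∀ (E : Type) [AddCommGroup E] [Module ℝ E] [TopologicalSpace E] (K : Set E) (H : Type) [AddCommGroup H] (ρ : H →+ C(K, ℝ)) (g : H)
  (Ω : Type) [TopologicalSpace Ω] [CompactSpace Ω] [T2Space Ω] [TotallyDisconnectedSpace Ω] [Infinite Ω] (s : Ω ≃ₜ Ω) (Q : C(Ω, ℤ) →+ H)
  (T : K → C(Ω, ℝ) →ₗ[ℝ] ℝ), IsMinimal s → IsDim (KP K ρ) g s Q →
  (∀ f : C(Ω, ℤ), (∀ x, f (s x) = f x) → ∃ c : ℤ, ∀ x, f x = c) → (∀ t, IsInvSt s (T t)) →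
  (∀ (f : C(Ω, ℤ)) (t : K), T t (intR f) = ρ (Q f) t) → (∀ f : C(Ω, ℝ), ∃ a : C(K, ℝ), IsAff a ∧ ∀ t, a t = T t f) →
  Function.Injective T → (∀ φ, IsInvSt s φ → ∃ t, T t = φ) →
  ∀ (A : Type) [CStarAlgebra A] (ι : C(Ω, ℂ) →⋆ₐ[ℂ] A) (u : unitary A) (c : ℤ → A →ₗ[ℂ] C(Ω, ℂ)), Cov s ι u c → HasInv A g ℤ K ρ

/-- ROW pvk:KSU (short-medium; from CNT, YSP, DXB, LCP, COE, DFN, KCH, KSX, KHI). Sufficiency. `ρ` restricted to `H` is dense (`ρ(S) = 0`). CNT for `H`: `Ω`, `s`, `Q`, `T`; `A₀` for `s` (LCP, COE), KCH: `HasInv A₀ g ℤ K ρ_H`. YSP for `S`, `G'`: `Y`, `y`. DXB: `X`, `α`; LCP, COE: `A`; DFN: `Φ`; KSX: `HasInv A (g, 0) (ℤ × G') K (ρ_H ∘ fst)`.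
`G₀ ≃+ H × S` (`IsCompl`) and KHI. -/
def KSU_stmt : Prop := ∀ (E : Type) [AddCommGroup E] [Module ℝ E] [TopologicalSpace E] [IsTopologicalAddGroup E]
  [ContinuousSMul ℝ E] [LocallyConvexSpace ℝ E] [T2Space E] (K : Set E) (_ : IsSimplex K)
  (G₀ : Type) [AddCommGroup G₀] [Countable G₀] (g : G₀) (ρ : G₀ →+ C(K, ℝ)), KD K ρ g →
  ∀ (G' : Type) [AddCommGroup G'] [Countable G'] (H S : AddSubgroup G₀), IsCompl H S → g ∈ H →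
  (∀ (n : ℕ) (x : G₀), n ≠ 0 → x ∈ H → n • x = 0 → x = 0) → (∀ x ∈ S, ρ x = 0) →
  ∃ (X : Type) (_ : TopologicalSpace X) (_ : CompactSpace X) (_ : TopologicalSpace.MetrizableSpace X) (_ : Infinite X) (α : X ≃ₜ X),
    IsMinimal α ∧ SmallBdry α ∧ ∃ (A : Type) (_ : CStarAlgebra A) (ι : C(X, ℂ) →⋆ₐ[ℂ] A) (u : unitary A), IsCrossedProduct α ι u ∧
    HasInv A g (ℤ × G') K ρ

/-- ROW pvk:KSB (short-medium; from YSP, DXA, LCP, COE, DFN, DTB, KSX). Stability for every base. `Y` from YSP, `X` from DXA, `A` from LCP, coefficients from COE, `Φ` from DFN; DTB 2, 3; KSX. -/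
def KSB_stmt : Prop := ∀ (X₀ : Type) [TopologicalSpace X₀] [CompactSpace X₀] [TopologicalSpace.MetrizableSpace X₀] [Infinite X₀] (α₀ : X₀ ≃ₜ X₀), IsMinimal α₀ →
  ∀ (A₀ : Type) [CStarAlgebra A₀] (ι₀ : C(X₀, ℂ) →⋆ₐ[ℂ] A₀) (u₀ : unitary A₀), IsCrossedProduct α₀ ι₀ u₀ →
  ∀ (S₀ S₁ : Type) [AddCommGroup S₀] [Countable S₀] [AddCommGroup S₁] [Countable S₁],
  ∃ (X : Type) (_ : TopologicalSpace X) (_ : CompactSpace X) (_ : TopologicalSpace.MetrizableSpace X) (_ : Infinite X) (α : X ≃ₜ X) (π : C(X, X₀)),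
    IsMinimal α ∧ Function.Surjective π ∧ (∀ x, π (α x) = α₀ (π x)) ∧ (∃ x : X₀, ∀ p q : X, π p = x → π q = x → p = q) ∧
    ∃ (A : Type) (_ : CStarAlgebra A) (ι : C(X, ℂ) →⋆ₐ[ℂ] A) (u : unitary A), IsCrossedProduct α ι u ∧
    (∃ Φ : A₀ →⋆ₐ[ℂ] A, (∀ f, Φ (ι₀ f) = ι (f.comp π)) ∧ Φ (u₀ : A₀) = u ∧
      (∀ t₀ : TracialState A₀, ∃ t : TracialState A, ∀ a, t.τ (Φ a) = t₀.τ a) ∧ ∀ t t' : TracialState A, (∀ a, t.τ (Φ a) = t'.τ (Φ a)) → t = t') ∧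
    ∀ (G₀ : Type) [AddCommGroup G₀] (g : G₀) (G₁ : Type) [AddCommGroup G₁] (E : Type) [AddCommGroup E] [Module ℝ E] [TopologicalSpace E]
      (K : Set E) (ρ : G₀ →+ C(K, ℝ)), HasInv A₀ g G₁ K ρ → HasInv A ((g, 0) : G₀ × S₀) (G₁ × S₁) K (ρ.comp (AddMonoidHom.fst G₀ S₀))

end Pool.Agent.PV
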