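import Pool.Agent.helper77.PV.SpecK

/-!
# Project pv (MP_376aaf_an), block K, part 2: one trace. Rows pvk:KPR, KPT

RULES as in SpecK. `import Pool.Agent.helper77.PV.SpecK2`.
-/

set_option autoImplicit false

open scoped Matrix Topology
open Filter

namespace Pool.Agent.PV

open Pool.Agent.CZ Pool.Agent.PVH

/-- ROW pvk:KPR (short-medium). `H` is torsion free and countable, so it embeds in the ℚ-vector space `V = ℚ ⊗ H` (or `LocalizedModule`), of countable dimension; `ℝ` has uncountable dimension over `ℚ`: there is an injective ℚ-linear map `V → ℝ` with `g ↦ 1` (extend `g` to a basis of `V`, `1` to a basis of `ℝ`, and inject the countable basis into the uncountable one).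
The range of `H → ℝ` is not cyclic (injective, `H` is not cyclic), so it is dense (`AddSubgroup.dense_or_cyclic`). Compose with the projection `G₀ → H` along `S`. -/
def KPR_stmt : Prop := ∀ (G₀ : Type) [AddCommGroup G₀] [Countable G₀] (H S : AddSubgroup G₀), IsCompl H S →
  (∀ (n : ℕ) (x : G₀), n ≠ 0 → x ∈ H → n • x = 0 → x = 0) → (¬ ∃ h : G₀, ∀ x ∈ H, ∃ n : ℤ, x = n • h) →
  ∀ g ∈ H, g ≠ 0 → ∃ ρ : G₀ →+ ℝ, ρ g = 1 ∧ (∀ x ∈ S, ρ x = 0) ∧ Dense (Set.range ρ)

/-- ROW pvk:KPT (short-medium; from KSU, KPR). KSU for `E = ℝ`, `K = {0}` (a one point set: compact, convex, a simplex: take `c = max (a₁ 0) (a₂ 0)`; every function is affine) and the homomorphism `x ↦ constant ρ x` of KPR. A one point set `K` in bijection with the tracial states: there is exactly one. -/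
def KPT_stmt : Prop := ∀ (G₀ : Type) [AddCommGroup G₀] [Countable G₀] (H S : AddSubgroup G₀), IsCompl H S →
  (∀ (n : ℕ) (x : G₀), n ≠ 0 → x ∈ H → n • x = 0 → x = 0) → (¬ ∃ h : G₀, ∀ x ∈ H, ∃ n : ℤ, x = n • h) →
  ∀ g ∈ H, g ≠ 0 → ∀ (G' : Type) [AddCommGroup G'] [Countable G'],
  ∃ (X : Type) (_ : TopologicalSpace X) (_ : CompactSpace X) (_ : TopologicalSpace.MetrizableSpace X) (_ : Infinite X) (α : X ≃ₜ X),
    IsMinimal α ∧ SmallBdry α ∧ ∃ (A : Type) (_ : CStarAlgebra A) (ι : C(X, ℂ) →⋆ₐ[ℂ] A) (u : unitary A), IsCrossedProduct α ι u ∧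
    (∃ t : TracialState A, ∀ t' : TracialState A, t' = t) ∧ (∃ φ : K0 A ≃+ G₀, φ (unitCls A) = g) ∧ Nonempty (K1 A ≃+ ℤ × G')

end Pool.Agent.PV
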