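import Pool.Agent.helper10.PV.BTR
import Pool.Agent.helper11.PV.CI0
import Pool.Agent.helper11.PV.CS0
import Pool.Agent.helper11.PV.K0B
import Pool.Agent.helper11.PV.K0D
import Pool.Agent.helper11.PV.K0E
import Pool.Agent.helper11.PV.K0G
import Pool.Agent.helper11.PV.K0S
import Pool.Agent.helper11.PV.K1B
import Pool.Agent.helper11.PV.K1G
import Pool.Agent.helper17.PV.D1K
import Pool.Agent.helper17.PV.K1T
import Pool.Agent.helper18.PV.KSH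
import Pool.Agent.helper2.PV.KC0
import Pool.Agent.helper2.PV.MS0
import Pool.Agent.helper20.PV.KSB
import Pool.Agent.helper24.PV.IN0
import Pool.Agent.helper24.PV.INE
import Pool.Agent.helper25.PV.KN1
import Pool.Agent.helper27.PV.D0E
import Pool.Agent.helper28.PV.AllS
import Pool.Agent.helper28.PV.KNE
import Pool.Agent.helper29.PV.K0P
import Pool.Agent.helper29.PV.T2
import Pool.Agent.helper29.PV.ZC
import Pool.Agent.helper3.PV.APX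
import Pool.Agent.helper30.PV.LFA
import Pool.Agent.helper31.PV.D1N
import Pool.Agent.helper31.PV.INH
import Pool.Agent.helper32.PV.LPO
import Pool.Agent.helper37.CZ.Top
import Pool.Agent.helper39.PV.QCL
import Pool.Agent.helper40.PV.K1C
import Pool.Agent.helper40.PV.KRA
import Pool.Agent.helper41.PV.HOG
import Pool.Agent.helper41.PV.KSU
import Pool.Agent.helper41.PV.ZM
import Pool.Agent.helper42.PV.HOA
import Pool.Agent.helper42.PV.HOE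
import Pool.Agent.helper42.PV.HON
import Pool.Agent.helper42.PV.K1Z
import Pool.Agent.helper42.PV.PTH
import Pool.Agent.helper42.PV.ROT
import Pool.Agent.helper43.PV.QIN
import Pool.Agent.helper45.PV.TopG
import Pool.Agent.helper46.CZ.COE
import Pool.Agent.helper48.PV.KM1
import Pool.Agent.helper48.PV.T1C
import Pool.Agent.helper49.PV.K0C
import Pool.Agent.helper49.PV.K1M
import Pool.Agent.helper49.PV.T1
import Pool.Agent.helper5.PV.BZ1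
import Pool.Agent.helper5.PV.D0N
import Pool.Agent.helper5.PV.HOF
import Pool.Agent.helper5.PV.ZLP
import Pool.Agent.helper50.PV.SX1
import Pool.Agent.helper52.PV.FUN
import Pool.Agent.helper52.PV.KDS
import Pool.Agent.helper53.PV.All
import Pool.Agent.helper54.PV.D0X
import Pool.Agent.helper54.PV.INU
import Pool.Agent.helper54.PV.K0Q
import Pool.Agent.helper55.PV.PAD
import Pool.Agent.helper62.PV.BEN
import Pool.Agent.helper62.PV.BET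
import Pool.Agent.helper62.PV.BT1
import Pool.Agent.helper62.PV.CS1
import Pool.Agent.helper62.PV.K1R
import Pool.Agent.helper62.PV.KS
import Pool.Agent.helper63.PV.SXA
import Pool.Agent.helper63.PV.SXB
import Pool.Agent.helper68.PV.D0Z
import Pool.Agent.helper68.PV.D1P
import Pool.Agent.helper68.PV.MF1
import Pool.Agent.helper70.PV.GLC
import Pool.Agent.helper70.PV.KC
import Pool.Agent.helper70.PV.KT1
import Pool.Agent.helper70.PV.RNK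
import Pool.Agent.helper71.PV.INB
import Pool.Agent.helper71.PV.KM0
import Pool.Agent.helper72.PV.Cantor
import Pool.Agent.helper72.PV.KFV
import Pool.Agent.helper74.PV.D0Y
import Pool.Agent.helper74.PV.D1E
import Pool.Agent.helper75.PV.LPC
import Pool.Agent.helper75.PV.QOP
import Pool.Agent.helper78.PV.QD
import Pool.Agent.helper8.PV.KPT
import Pool.Agent.helper8.PV.KTR
import Pool.Agent.helper82.PV.KSX
import Pool.Agent.helper82.PV.KT0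
import Pool.Agent.helper82.PV.SHF
import Pool.Agent.helper84.CZ.NEW
import Pool.Agent.helper89.PV.KTA
import Pool.Agent.helper89.PV.MSF
import Pool.Agent.helper9.PV.KHI
import Pool.Agent.helper9.PV.QPA
import Pool.Agent.helper90.CZ.CLO
import Pool.Agent.helper90.PV.INA
import Pool.Agent.helper90.PV.SUB
import Pool.Agent.helper91.PV.MF0
import Pool.Agent.helper92.PV.CI1
import Pool.Agent.helper92.PV.KPR
import Pool.Agent.helper92.PV.KPZ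
import Pool.Agent.helper92.PV.PVS
import Pool.Agent.helper92.PV.TRI
import Pool.Agent.helper98.PV.HOL
import Pool.Agent.helper98.PV.KSG
import Pool.Agent.helper98.PV.RNM
import Pool.Agent.helper99.PV.KC1
import Pool.Agent.helper99.PV.KCH
import Pool.Agent.helper99.PV.MS1
import Pool.Agent.helper99.PV.QDM
import Pool.Agent.helper99.PV.QS

/-!
# Project pv (MP_376aaf_an): assembly of the rows
-/

set_option autoImplicit false

namespace Pool.Agent.PV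

open Pool.Agent.CZ

theorem T_MSF : MSF_stmt := Pool.Agent.PV.MSF

theorem T_K0E : K0E_stmt := Pool.Agent.PV.K0E

theorem T_K0S : K0S_stmt := Pool.Agent.PV.K0S

theorem T_K0B : K0B_stmt := Pool.Agent.PV.K0B T_K0E T_K0S

theorem T_K0G : K0G_stmt := Pool.Agent.PV.K0G T_K0E T_K0B

theorem T_FUN : FUN_stmt := Pool.Agent.PV.FUN

theorem T_SXA : SXA_stmt := Pool.Agent.PV.SXA T_K0E T_K0B T_K0G T_FUN

theorem T_K0Q : K0Q_stmt := Pool.Agent.PV.K0Q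

theorem T_K0C : K0C_stmt := Pool.Agent.PV.K0C T_K0Q

theorem T_K0D : K0D_stmt := Pool.Agent.PV.K0D T_K0B

theorem T_K1M : K1M_stmt := Pool.Agent.PV.K1M

theorem T_K1R : K1R_stmt := Pool.Agent.PV.K1R

theorem T_K1B : K1B_stmt := Pool.Agent.PV.K1B T_K1R

theorem T_K1G : K1G_stmt := Pool.Agent.PV.K1G T_K1M T_K1B T_K1R

theorem T_GLC : GLC_stmt := Pool.Agent.PV.GLC

theorem T_TRI : TRI_stmt := Pool.Agent.PV.TRI

theorem T_KC : KC_stmt := Pool.Agent.PV.KC T_K0E T_K0G T_K0B T_K1M T_K1G T_GLC T_TRI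

theorem T_SXB : SXB_stmt := Pool.Agent.PV.SXB T_K0G T_K0C T_K0D T_K0E T_K0B T_KC T_FUN

theorem T_SX0 : SX0_stmt := fun C C' D _ _ _ _ _ _ _ _ _ j e r χ h =>
  ⟨T_SXA C C' D j e r χ h, T_SXB C C' D j e r χ h⟩

theorem T_MF0 : MF0_stmt := Pool.Agent.PV.MF0 T_MSF T_SX0 T_FUN

theorem T_NEW : NEW_stmt := Pool.Agent.CZ.NEW

theorem T_CLO : CLO_stmt := Pool.Agent.CZ.CLO

theorem T_CS0 : CS0_stmt := Pool.Agent.PV.CS0 T_K0E T_NEW T_CLO

theorem T_K1C : K1C_stmt := Pool.Agent.PV.K1C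

theorem T_CI0 : CI0_stmt := Pool.Agent.PV.CI0 T_K0G T_K0C T_K0E T_K0B T_K1C T_CLO

theorem T_MS0 : MS0_stmt := Pool.Agent.PV.MS0 T_MSF T_MF0 T_CS0 T_CI0 T_FUN

theorem T_ROT : ROT_stmt := Pool.Agent.PV.ROT

theorem T_K1Z : K1Z_stmt := Pool.Agent.PV.K1Z T_ROT

theorem T_SX1 : SX1_stmt := Pool.Agent.PV.SX1 T_K1G T_K1M T_K1B T_K1Z T_KC T_FUN

theorem T_MF1 : MF1_stmt := Pool.Agent.PV.MF1 T_MSF T_SX1 T_FUN

theorem T_CS1 : CS1_stmt := Pool.Agent.PV.CS1 T_K1G T_K1M T_K1C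

theorem T_CI1 : CI1_stmt := Pool.Agent.PV.CI1 T_K1G T_K1Z T_K1M T_K1C T_K1B

theorem T_MS1 : MS1_stmt := Pool.Agent.PV.MS1 T_MSF T_MF1 T_CS1 T_CI1 T_FUN

theorem T_BZ1 : BZ1_stmt := Pool.Agent.PV.BZ1

theorem T_K1T : K1T_stmt := Pool.Agent.PV.K1T T_K1M T_K1B

theorem T_BET : BET_stmt := Pool.Agent.PV.BET T_K1T T_K1M T_K1B T_K1R

theorem T_BEN : BEN_stmt := Pool.Agent.PV.BEN T_K0G T_FUN T_BET

theorem T_ZM : ZM_stmt := Pool.Agent.PV.ZM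

theorem T_APX : APX_stmt := Pool.Agent.PV.APX T_ZM

theorem T_LFA : LFA_stmt := Pool.Agent.PV.LFA T_K1M T_K1T T_K1R

theorem T_ZC : ZC_stmt := Pool.Agent.PV.ZC

theorem T_QS : QS_stmt := Pool.Agent.PV.QS T_ZC

theorem T_QD : QD_stmt := Pool.Agent.PV.QD T_QS

theorem T_QDM : QDM_stmt := Pool.Agent.PV.QDM T_ZM T_QD

theorem T_INE : INE_stmt := Pool.Agent.PV.INE T_APX T_LFA T_QDM

theorem T_PTH : PTH_stmt := Pool.Agent.PV.PTH

theorem T_K0P : K0P_stmt := Pool.Agent.PV.K0P T_K0E T_PTH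

theorem T_QCL : QCL_stmt := Pool.Agent.PV.QCL T_QDM T_K0P

theorem T_QOP : QOP_stmt := Pool.Agent.PV.QOP T_QDM T_K0B T_K0E T_ZC

theorem T_PAD : PAD_stmt := Pool.Agent.PV.PAD T_QDM T_QCL T_QOP T_K0B T_K0E T_LFA

theorem T_SHF : SHF_stmt := Pool.Agent.PV.SHF T_QDM T_QCL T_QOP T_K0B T_K0E

theorem T_INU : INU_stmt := Pool.Agent.PV.INU T_PAD T_SHF T_QCL T_QDM T_LFA

theorem T_INH : INH_stmt := Pool.Agent.PV.INH T_INE T_INU T_APX T_LFA T_QDM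

theorem T_INB : INB_stmt := Pool.Agent.PV.INB T_INE T_INU T_PAD T_SHF T_QOP T_QDM T_K0B T_K0E T_LFA

theorem T_IN0 : IN0_stmt := Pool.Agent.PV.IN0 T_QOP T_QDM T_ZC T_K0E

theorem T_D1E : D1E_stmt := Pool.Agent.PV.D1E T_INE T_INU T_INH T_INB T_IN0 T_ROT T_K1R

theorem T_QPA : QPA_stmt := Pool.Agent.PV.QPA T_ZC T_QS T_QD

theorem T_KRA : KRA_stmt := Pool.Agent.PV.KRA T_QDM T_QPA T_ZM T_K1M T_K1T T_K1B

theorem T_D1K : D1K_stmt := Pool.Agent.PV.D1K T_INE T_KRA T_LFA T_QOP T_QDM T_K0Q T_K0B T_K1M T_K1B T_K1G T_K1R T_K1C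

theorem T_INA : INA_stmt := Pool.Agent.PV.INA T_QDM T_K0E T_K0S T_K0B T_FUN

theorem T_D1P : D1P_stmt := Pool.Agent.PV.D1P T_INE T_INA T_IN0 T_K0G T_K0C T_K0D T_K0B T_K1G T_K1M T_K1B T_FUN

theorem T_BT1 : BT1_stmt := Pool.Agent.PV.BT1 T_BZ1 T_BET T_BEN T_D1E T_D1K T_D1P T_IN0 T_K0G T_FUN

theorem T_RNM : RNM_stmt := Pool.Agent.PV.RNM

theorem T_BOT : BOT_stmt := Pool.Agent.PV.BTR T_BT1 T_RNM T_BET T_BEN T_FUN

theorem T_HOA : HOA_stmt := Pool.Agent.PV.HOA T_PTH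

theorem T_HOE : HOE_stmt := Pool.Agent.PV.HOE T_HOA T_K1T T_K1M T_K1R T_K1B T_K0S

theorem T_LPC : LPC_stmt := Pool.Agent.PV.LPC

theorem T_HOF : HOF_stmt := Pool.Agent.PV.HOF T_HOA T_LPC T_K0G T_K0C T_K0D T_K0E T_K0B T_K1Z T_K1M T_K1B T_FUN

theorem T_HOG : HOG_stmt := Pool.Agent.PV.HOG T_ROT T_LPC T_K1G T_K1B T_K1M T_K0B T_FUN

theorem T_HOL : HOL_stmt := Pool.Agent.PV.HOL T_HOE T_HOA T_HOF T_HOG

theorem T_KS : KS_stmt := Pool.Agent.PV.KS T_BOT T_HOL T_KC T_BEN T_K0G T_FUN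

theorem T_QIN : QIN_stmt := Pool.Agent.PV.QIN T_QDM T_ZC T_K0E T_K0S

theorem T_LPO : LPO_stmt := Pool.Agent.PV.LPO T_LFA T_QIN T_K0B T_FUN

theorem T_T1 : T1_stmt := Pool.Agent.PV.T1 T_K0G T_K0B T_K0C T_K0D T_K0E T_APX T_LPO T_ZC T_FUN

theorem T_T1C : T1C_stmt := Pool.Agent.PV.T1C T_K0G T_K0E T_K1G T_K1M T_FUN

theorem T_ZLP : ZLP_stmt := Pool.Agent.PV.ZLP T_ZC

theorem T_HON : HON_stmt := Pool.Agent.PV.HON T_HOA T_K0G T_FUN

theorem T_T2 : T2_stmt := Pool.Agent.PV.T2 T_T1 T_ZLP T_HOE T_HON T_HOF T_HOG T_FUN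

theorem T_D0E : D0E_stmt := Pool.Agent.PV.D0E T_ZLP T_BET T_D1E T_HOE

theorem T_D1N : D1N_stmt := Pool.Agent.PV.D1N T_INE T_K1G T_QDM

theorem T_D0X : D0X_stmt := Pool.Agent.PV.D0X T_D1E T_D1N T_D1K T_BOT T_BET T_BEN T_HOF T_FUN T_K0G

theorem T_D0Y : D0Y_stmt := Pool.Agent.PV.D0Y T_D1P T_BET T_BEN T_HON T_FUN T_K0G

theorem T_D0Z : D0Z_stmt := Pool.Agent.PV.D0Z T_D1E T_D1N T_D1P T_BOT T_BET T_BEN T_HON T_HOF T_HOG T_FUN T_K0G

theorem T_PVS : PVS_stmt := Pool.Agent.PV.PVS T_T1 T_T1C T_T2 T_D1E T_D1K T_D1P T_D0E T_D0X T_D0Y T_D0Z T_FUN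

theorem T_D0N : D0N_stmt := Pool.Agent.PV.D0N T_D1N T_BEN T_HON T_K0G T_FUN

theorem T_DZP : DZP_stmt := Pool.Agent.PV.aDZP

theorem T_RNK : RNK_stmt := Pool.Agent.PV.RNK T_TRI

theorem T_KN1 : KN1_stmt := Pool.Agent.PV.KN1 T_PVS T_DZP T_RNK

theorem T_KSG : KSG_stmt := Pool.Agent.PV.KSG

theorem T_MAI : MAI_stmt := Pool.Agent.CZ.Top_MAI

theorem T_COE : COE_stmt := Pool.Agent.CZ.COE

theorem T_KNE : KNE_stmt := Pool.Agent.PV.KNE T_KN1 T_KSG T_MAI T_COE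

theorem T_H_CNT : Pool.Agent.PVH.CNT_stmt := Pool.Agent.PVH.cantorRealization

theorem T_PRE : PRE_stmt := Pool.Agent.PV.PRE_all T_K1M T_FUN T_MS0 T_MS1 T_KS T_KC

theorem T_SUB : SUB_stmt := Pool.Agent.PV.SUB

theorem T_YSP : YSP_stmt := Pool.Agent.PV.YSP_top T_FUN T_K0E T_K0B T_K0G T_K0C T_K0D T_K1M T_K1B T_K1G T_K1Z T_ROT T_PTH T_GLC T_KC T_SX0 T_SX1 T_BOT T_HOL T_PRE T_SUB

theorem T_DXB : DXB_stmt := Pool.Agent.PV.aDXB

theorem T_LCP : LCP_stmt := Pool.Agent.PV.aLCP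

theorem T_DFN : DFN_stmt := Pool.Agent.PV.aDFN

theorem T_JKT : JKT_stmt := Pool.Agent.PV.aJKT

theorem T_JPR : JPR_stmt := Pool.Agent.PV.aJPR

theorem T_KT0 : KT0_stmt := Pool.Agent.PV.KT0 T_RNK T_TRI T_K0E T_K0B T_K0G T_CLO

theorem T_KT1 : KT1_stmt := Pool.Agent.PV.KT1 T_K1G T_K1M T_K1C T_GLC

theorem T_KC0 : KC0_stmt := Pool.Agent.PV.KC0 T_RNK T_KT0 T_KT1 T_PVS T_DZP T_FUN T_K0G

theorem T_KC1 : KC1_stmt := Pool.Agent.PV.KC1 T_RNK T_KT0 T_KT1 T_PVS T_DZP T_FUN T_K0G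

theorem T_KCH : KCH_stmt := Pool.Agent.PV.KCH T_JKT T_JPR T_KC0 T_KC1

theorem T_DTB : DTB_stmt := Pool.Agent.PV.aDTB

theorem T_KTR : KTR_stmt := Pool.Agent.PV.KTR T_DTB

theorem T_KSH : KSH_stmt := Pool.Agent.PV.KSH

theorem T_KFV : KFV_stmt := Pool.Agent.PV.KFV T_KSH

theorem T_KM0 : KM0_stmt := Pool.Agent.PV.KM0 T_MS0 T_FUN

theorem T_KM1 : KM1_stmt := Pool.Agent.PV.KM1 T_MS1 T_FUN

theorem T_DZM : DZM_stmt := Pool.Agent.PV.aDZM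

theorem T_KTA : KTA_stmt := Pool.Agent.PV.KTA T_KSH T_KFV T_KM0 T_KM1 T_PVS T_D1N T_D0N T_DZP T_DZM T_FUN

theorem T_JCX : JCX_stmt := Pool.Agent.PV.aJCX

theorem T_JST : JST_stmt := Pool.Agent.PV.aJST

theorem T_JNA : JNA_stmt := Pool.Agent.PV.aJNA

theorem T_JCO : JCO_stmt := Pool.Agent.PV.aJCO

theorem T_KPZ : KPZ_stmt := Pool.Agent.PV.KPZ T_JCX T_JST T_JPR T_JNA T_JCO T_FUN

theorem T_KDS : KDS_stmt := Pool.Agent.PV.KDS

theorem T_KSX : KSX_stmt := Pool.Agent.PV.KSX T_KTR T_KTA T_KPZ T_KDS T_FUN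

theorem T_KHI : KHI_stmt := Pool.Agent.PV.KHI

theorem T_KSU : KSU_stmt := Pool.Agent.PV.KSU T_H_CNT T_YSP T_DXB T_LCP T_COE T_DFN T_KCH T_KSX T_KHI

theorem T_DXA : DXA_stmt := Pool.Agent.PV.aDXA

theorem T_KSB : KSB_stmt := Pool.Agent.PV.KSB T_YSP T_DXA T_LCP T_COE T_DFN T_DTB T_KSX

theorem T_KPR : KPR_stmt := Pool.Agent.PV.KPR

theorem T_KPT : KPT_stmt := Pool.Agent.PV.KPT T_KSU T_KPR

end Pool.Agent.PV
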